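import Mathlib

/-!
# The Lusin-Novikov theorem

A Borel subset of a product of standard Borel spaces all of whose vertical sections are countable is
a countable union of Borel graphs of partial functions.
-/

namespace Pool.Agent.Work.MP_d78dd4_lc

open Set MeasureTheory TopologicalSpace

/-- A set which is the graph of a partial function. -/
def PGraph {X Y : Type} (G : Set (X × Y)) : Prop :=
  ∀ x y y', (x, y) ∈ G → (x, y') ∈ G → y = y'

section graph

variable {X Y : Type} [TopologicalSpace X] [PolishSpace X] [MeasurableSpace X] [BorelSpace X]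
  [TopologicalSpace Y] [PolishSpace Y] [MeasurableSpace Y] [BorelSpace Y]

/-- An analytic graph is contained in a Borel graph. -/
theorem graph_cover (A : Set (X × Y)) (hA : AnalyticSet A) (hg : PGraph A) :
    ∃ G, A ⊆ G ∧ MeasurableSet G ∧ PGraph G := by
  rw [AnalyticSet] at hA
  rcases hA with rfl | ⟨ψ, hψ, rfl⟩
  · exact ⟨∅, Subset.rfl, MeasurableSet.empty, fun x y y' h => absurd h (notMem_empty _)⟩
  set P : Set Y → Set X := fun U => (fun z => (ψ z).1) '' {z | (ψ z).2 ∈ U} with hP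
  have hPa : ∀ U, IsOpen U → AnalyticSet (P U) := fun U hU =>
    IsOpen.analyticSet_image (hU.preimage (continuous_snd.comp hψ)) (continuous_fst.comp hψ)
  have hsep : ∀ U V : Set Y, ∃ B : Set X, MeasurableSet B ∧
      (IsOpen U → IsOpen V → Disjoint U V → P U ⊆ B ∧ Disjoint (P V) B) := by
    intro U V
    by_cases h : IsOpen U ∧ IsOpen V ∧ Disjoint U V
    · obtain ⟨hU, hV, hUV⟩ := h
      have hd : Disjoint (P U) (P V) := by
        rw [Set.disjoint_left]
        rintro x ⟨z, hz, rfl⟩ ⟨z', hz', hzz⟩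
        have : (ψ z).2 = (ψ z').2 := by
          apply hg (ψ z).1 (ψ z).2 (ψ z').2
          · exact ⟨z, rfl⟩
          · simp only at hzz
            rw [← hzz]
            exact ⟨z', rfl⟩
        exact Set.disjoint_left.1 hUV hz (by rw [this]; exact hz')
      obtain ⟨B, h1, h2, h3⟩ := AnalyticSet.measurablySeparable (hPa U hU) (hPa V hV) hd
      exact ⟨B, h3, fun _ _ _ => ⟨h1, h2⟩⟩
    · exact ⟨∅, MeasurableSet.empty, fun h1 h2 h3 => absurd ⟨h1, h2, h3⟩ h⟩
  choose B hBm hB using hsep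
  set b := countableBasis Y
  have hbc : b.Countable := countable_countableBasis Y
  refine ⟨⋂ U ∈ b, ⋂ V ∈ b, {p : X × Y | Disjoint U V →
    (p.2 ∈ U → p.1 ∈ B U V) ∧ (p.2 ∈ V → p.1 ∉ B U V)}, ?_, ?_, ?_⟩
  · rintro _ ⟨z, rfl⟩
    simp only [mem_iInter, mem_ofPred_eq]
    intro U hU V hV hd
    have hUo := isOpen_of_mem_countableBasis hU
    have hVo := isOpen_of_mem_countableBasis hV
    obtain ⟨h1, h2⟩ := hB U V hUo hVo hd
    exact ⟨fun h => h1 ⟨z, h, rfl⟩, fun h => Set.disjoint_left.1 h2 ⟨z, h, rfl⟩⟩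
  · refine MeasurableSet.biInter hbc fun U hU => MeasurableSet.biInter hbc fun V hV => ?_
    have hUo := (isOpen_of_mem_countableBasis hU).measurableSet
    have hVo := (isOpen_of_mem_countableBasis hV).measurableSet
    by_cases hd : Disjoint U V
    · have : {p : X × Y | Disjoint U V →
          (p.2 ∈ U → p.1 ∈ B U V) ∧ (p.2 ∈ V → p.1 ∉ B U V)} =
          ((Prod.snd ⁻¹' U)ᶜ ∪ Prod.fst ⁻¹' (B U V)) ∩
          ((Prod.snd ⁻¹' V)ᶜ ∪ (Prod.fst ⁻¹' (B U V))ᶜ) := by
        ext p
        simp only [mem_ofPred_eq, hd, true_imp_iff, mem_inter_iff, mem_union, mem_compl_iff,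
          mem_preimage]
        tauto
      rw [this]
      exact ((measurable_snd hUo).compl.union (measurable_fst (hBm U V))).inter
        ((measurable_snd hVo).compl.union (measurable_fst (hBm U V)).compl)
    · have : {p : X × Y | Disjoint U V →
          (p.2 ∈ U → p.1 ∈ B U V) ∧ (p.2 ∈ V → p.1 ∉ B U V)} = univ := by
        ext p; simp [hd]
      rw [this]; exact MeasurableSet.univ
  · intro x y y' h1 h2
    by_contra hne
    obtain ⟨U, V, hUo, hVo, hyU, hyV, hd⟩ := t2_separation hne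
    obtain ⟨U', hU'b, hyU', hU'U⟩ := (isBasis_countableBasis Y).exists_subset_of_mem_open hyU hUo
    obtain ⟨V', hV'b, hyV', hV'V⟩ := (isBasis_countableBasis Y).exists_subset_of_mem_open hyV hVo
    simp only [mem_iInter, mem_ofPred_eq] at h1 h2
    have hd' : Disjoint U' V' := hd.mono hU'U hV'V
    exact (h2 U' hU'b V' hV'b hd').2 hyV' ((h1 U' hU'b V' hV'b hd').1 hyU')

end graph

/-- Sets covered by countably many Borel graphs. -/
def Small {X Y : Type} [MeasurableSpace X] [MeasurableSpace Y] (N : Set (X × Y)) : Prop :=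
  ∃ 𝒢 : Set (Set (X × Y)), 𝒢.Countable ∧ (∀ G ∈ 𝒢, MeasurableSet G ∧ PGraph G) ∧ N ⊆ ⋃₀ 𝒢

theorem Small.iUnion {X Y ι : Type} [MeasurableSpace X] [MeasurableSpace Y] [Countable ι]
    {N : ι → Set (X × Y)} (h : ∀ i, Small (N i)) : Small (⋃ i, N i) := by
  choose 𝒢 h1 h2 h3 using h
  refine ⟨⋃ i, 𝒢 i, countable_iUnion h1, ?_, ?_⟩
  · intro G hG
    obtain ⟨i, hi⟩ := mem_iUnion.1 hG
    exact h2 i G hi
  · refine iUnion_subset fun i => (h3 i).trans ?_
    exact sUnion_subset_sUnion (subset_iUnion 𝒢 i)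

theorem Small.union {X Y : Type} [MeasurableSpace X] [MeasurableSpace Y]
    {N M : Set (X × Y)} (h : Small N) (h' : Small M) : Small (N ∪ M) := by
  obtain ⟨𝒢, h1, h2, h3⟩ := h
  obtain ⟨𝒢', h1', h2', h3'⟩ := h'
  refine ⟨𝒢 ∪ 𝒢', h1.union h1', ?_, ?_⟩
  · rintro G (hG | hG)
    · exact h2 G hG
    · exact h2' G hG
  · rw [sUnion_union]
    exact union_subset_union h3 h3'

/-- The basic clopen subset of Baire space given by a finite sequence. -/
def cyl (l : List ℕ) : Set (ℕ → ℕ) := {z | ∀ i (h : i < l.length), z i = l[i]}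

theorem isClopen_cyl (l : List ℕ) : IsClopen (cyl l) := by
  have : cyl l = ⋂ i : Fin l.length, {z : ℕ → ℕ | z i = l[i]} := by
    ext z
    simp only [cyl, mem_ofPred_eq, mem_iInter, Fin.getElem_fin]
    exact ⟨fun h i => h i i.2, fun h i hi => h ⟨i, hi⟩⟩
  rw [this]
  refine isClopen_iInter_of_finite fun i => ?_
  exact (isClopen_discrete {l[i]}).preimage (continuous_apply (i : ℕ))

section main

variable {X Y : Type} [TopologicalSpace X] [PolishSpace X] [MeasurableSpace X] [BorelSpace X]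
  [TopologicalSpace Y] [PolishSpace Y] [MeasurableSpace Y] [BorelSpace Y]

/-- Configurations compatible with `p`, avoiding `N`. -/
def Conf (φ : (ℕ → ℕ) → X × Y) (n : ℕ) (p : (Fin n → Bool) → List ℕ) (N : Set (X × Y))
    (γ : (Fin n → Bool) → (ℕ → ℕ)) : Prop :=
  (∀ s, γ s ∈ cyl (p s)) ∧ (∀ s t, (φ (γ s)).1 = (φ (γ t)).1) ∧ ∀ s, φ (γ s) ∉ N

/-- Essential approximations. -/
def Ess (φ : (ℕ → ℕ) → X × Y) (n : ℕ) (p : (Fin n → Bool) → List ℕ) : Prop :=
  ∀ N, Small N → ∃ γ, Conf φ n p N γ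

/-- One step extensions. -/
def Ext (φ : (ℕ → ℕ) → X × Y) (n : ℕ) (s0 : Fin n → Bool) (p : (Fin n → Bool) → List ℕ)
    (q : (Fin (n + 1) → Bool) → List ℕ) : Prop :=
  (∀ s b, p s <+: q (Fin.snoc (α := fun _ => Bool) s b)) ∧ (∀ t, n + 1 ≤ (q t).length) ∧
    ∀ z ∈ cyl (q (Fin.snoc (α := fun _ => Bool) s0 false)),
    ∀ z' ∈ cyl (q (Fin.snoc (α := fun _ => Bool) s0 true)), (φ z).2 ≠ (φ z').2

theorem ofFn_prefix (l : List ℕ) (z : ℕ → ℕ) (hz : z ∈ cyl l) (L : ℕ) (hL : l.length ≤ L) :
    l <+: List.ofFn (fun i : Fin L => z i) := by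
  rw [List.prefix_iff_getElem]
  refine ⟨by simpa using hL, fun i hi => ?_⟩
  rw [List.getElem_ofFn]
  exact (hz i hi).symm

theorem mem_cyl_ofFn (z w : ℕ → ℕ) (L : ℕ) :
    w ∈ cyl (List.ofFn (fun i : Fin L => z i)) ↔ ∀ i < L, w i = z i := by
  simp only [cyl, mem_ofPred_eq, List.length_ofFn]
  constructor
  · intro h i hi
    have := h i hi
    rwa [List.getElem_ofFn] at this
  · intro h i hi
    rw [List.getElem_ofFn]
    exact h i hi

theorem exists_cyl_subset {U : Set (ℕ → ℕ)} (hU : IsOpen U) {z : ℕ → ℕ} (hz : z ∈ U) :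
    ∃ L, ∀ w : ℕ → ℕ, (∀ i < L, w i = z i) → w ∈ U := by
  obtain ⟨V, hVU⟩ : ∃ L, PiNat.cylinder z L ⊆ U := by
    have := (PiNat.isTopologicalBasis_cylinders (fun _ => ℕ)).exists_subset_of_mem_open hz hU
    obtain ⟨v, ⟨x, n, rfl⟩, h1, h2⟩ := this
    refine ⟨n, ?_⟩
    rwa [← PiNat.mem_cylinder_iff_eq.1 h1] at h2
  exact ⟨V, fun w hw => hVU (by rw [PiNat.mem_cylinder_iff]; exact hw)⟩

theorem ess_ext (φ : (ℕ → ℕ) → X × Y) (hφ : Continuous φ) (n : ℕ) (s0 : Fin n → Bool)
    (p : (Fin n → Bool) → List ℕ) (hp : Ess φ n p) : ∃ q, Ext φ n s0 p q ∧ Ess φ (n + 1) q := by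
  by_contra hcon
  push Not at hcon
  have h1 : ∀ q : (Fin (n + 1) → Bool) → List ℕ, ∃ N, Small N ∧
      (Ext φ n s0 p q → ∀ γ, ¬ Conf φ (n + 1) q N γ) := by
    intro q
    by_cases hq : Ext φ n s0 p q
    · have := hcon q hq
      unfold Ess at this
      push Not at this
      obtain ⟨N, hN, h⟩ := this
      exact ⟨N, hN, fun _ => h⟩
    · exact ⟨∅, ⟨∅, countable_empty, by simp, by simp⟩, fun h => absurd h hq⟩
  choose N hN hNq using h1
  obtain ⟨𝒢, hc, hG, hsub⟩ := Small.iUnion hN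
  set M : Set (X × Y) := ⋃₀ 𝒢 with hM
  have hMm : MeasurableSet M := MeasurableSet.sUnion hc fun G h => (hG G h).1
  have hMs : Small M := ⟨𝒢, hc, hG, Subset.rfl⟩
  set Γ : Set ((Fin n → Bool) → (ℕ → ℕ)) := {γ | Conf φ n p M γ} with hΓ
  have hφm : Measurable φ := hφ.measurable
  have hΓm : MeasurableSet Γ := by
    have : Γ = (⋂ s, {γ : (Fin n → Bool) → (ℕ → ℕ) | γ s ∈ cyl (p s)}) ∩
        ((⋂ s, ⋂ t, {γ : (Fin n → Bool) → (ℕ → ℕ) | (φ (γ s)).1 = (φ (γ t)).1}) ∩
        ⋂ s, {γ : (Fin n → Bool) → (ℕ → ℕ) | φ (γ s) ∉ M}) := by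
      ext γ
      simp only [hΓ, Conf, mem_ofPred_eq, mem_inter_iff, mem_iInter]
    rw [this]
    refine MeasurableSet.inter (MeasurableSet.iInter fun s => ?_) (MeasurableSet.inter
      (MeasurableSet.iInter fun s => MeasurableSet.iInter fun t => ?_)
      (MeasurableSet.iInter fun s => ?_))
    · exact measurable_pi_apply s (isClopen_cyl (p s)).isOpen.measurableSet
    · exact measurableSet_eq_fun ((measurable_fst.comp hφm).comp (measurable_pi_apply s))
        ((measurable_fst.comp hφm).comp (measurable_pi_apply t))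
    · exact (hφm.comp (measurable_pi_apply s)) hMm.compl
  set A : Set (X × Y) := (fun γ : (Fin n → Bool) → (ℕ → ℕ) => φ (γ s0)) '' Γ with hA
  have hAa : AnalyticSet A :=
    hΓm.analyticSet_image (hφm.comp (measurable_pi_apply s0))
  have hAg : PGraph A := by
    intro x y y' h h'
    obtain ⟨γ, hγ, hγx⟩ := h
    obtain ⟨γ', hγ', hγx'⟩ := h'
    by_contra hne
    simp only at hγx hγx'
    obtain ⟨U, V, hUo, hVo, hyU, hyV, hd⟩ := t2_separation hne
    obtain ⟨L1, hL1⟩ := exists_cyl_subset (hUo.preimage (continuous_snd.comp hφ))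
      (z := γ s0) (by simp only [mem_preimage, Function.comp]; rw [hγx]; exact hyU)
    obtain ⟨L2, hL2⟩ := exists_cyl_subset (hVo.preimage (continuous_snd.comp hφ))
      (z := γ' s0) (by simp only [mem_preimage, Function.comp]; rw [hγx']; exact hyV)
    set L : ℕ := max (max L1 L2) (max (n + 1) (Finset.univ.sup fun s => (p s).length)) with hL
    have hLp : ∀ s, (p s).length ≤ L := fun s =>
      (Finset.le_sup (f := fun s => (p s).length) (Finset.mem_univ s)).trans
        ((le_max_right _ _).trans (le_max_right _ _))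
    set δ : (Fin (n + 1) → Bool) → (ℕ → ℕ) := fun t =>
      if t (Fin.last n) then γ' (Fin.init t) else γ (Fin.init t) with hδ
    set q : (Fin (n + 1) → Bool) → List ℕ := fun t => List.ofFn (fun i : Fin L => δ t i) with hq
    have hδf : ∀ s, δ (Fin.snoc (α := fun _ => Bool) s false) = γ s := by
      intro s; simp [hδ]
    have hδt : ∀ s, δ (Fin.snoc (α := fun _ => Bool) s true) = γ' s := by
      intro s; simp [hδ]
    have hext : Ext φ n s0 p q := by
      refine ⟨?_, ?_, ?_⟩
      · intro s b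
        cases b
        · simp only [hq]
          rw [hδf]
          exact ofFn_prefix _ _ (hγ.1 s) L (hLp s)
        · simp only [hq]
          rw [hδt]
          exact ofFn_prefix _ _ (hγ'.1 s) L (hLp s)
      · intro t
        simp only [hq, List.length_ofFn]
        exact (le_max_left _ _).trans (le_max_right _ _)
      · intro z hz z' hz'
        simp only [hq] at hz hz'
        rw [hδf, mem_cyl_ofFn] at hz
        rw [hδt, mem_cyl_ofFn] at hz'
        have e1 := hL1 z fun i hi => hz i (hi.trans_le ((le_max_left _ _).trans (le_max_left _ _)))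
        have e2 := hL2 z' fun i hi =>
          hz' i (hi.trans_le ((le_max_right _ _).trans (le_max_left _ _)))
        intro he
        exact Set.disjoint_left.1 hd e1 (by
          simp only [mem_preimage, Function.comp] at e1 e2 ⊢
          rw [he]; exact e2)
    refine hNq q hext δ ⟨?_, ?_, ?_⟩
    · intro t
      simp only [hq]
      rw [mem_cyl_ofFn]
      exact fun i _ => rfl
    · have key : ∀ t, (φ (δ t)).1 = x := by
        intro t
        simp only [hδ]
        split
        · rw [hγ'.2.1 _ s0, hγx']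
        · rw [hγ.2.1 _ s0, hγx]
      intro s t
      rw [key, key]
    · intro t ht
      have : φ (δ t) ∈ M := hsub (mem_iUnion.2 ⟨q, ht⟩)
      revert this
      simp only [hδ]
      split
      · exact hγ'.2.2 _
      · exact hγ.2.2 _
  obtain ⟨G, hAG, hGm, hGg⟩ := graph_cover A hAa hAg
  have hGs : Small G := ⟨{G}, countable_singleton G, by
    rintro _ rfl; exact ⟨hGm, hGg⟩, by simp⟩
  obtain ⟨γ, hγ⟩ := hp (M ∪ G) (hMs.union hGs)
  have : φ (γ s0) ∈ A := ⟨γ, ⟨hγ.1, hγ.2.1, fun s h => hγ.2.2 s (Or.inl h)⟩, rfl⟩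
  exact hγ.2.2 s0 (Or.inr (hAG this))

/-- Every finite binary sequence is extended by some long `sd n`. -/
def sd (n i : ℕ) : Bool :=
  ((Encodable.decode (α := List Bool) (Nat.unpair n).1).getD []).getD i false

theorem sd_dense (z : ℕ → Bool) (m : ℕ) : ∃ n, m ≤ n ∧ ∀ i < m, sd n i = z i := by
  refine ⟨Nat.pair (Encodable.encode (List.ofFn (fun i : Fin m => z i))) m,
    Nat.right_le_pair _ _, fun i hi => ?_⟩
  unfold sd
  rw [Nat.unpair_pair]
  simp only [Encodable.encodek, Option.getD_some]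
  rw [List.getD_eq_getElem _ _ (by simpa using hi), List.getElem_ofFn]

/-- Restriction of an infinite binary sequence. -/
def rs (z : ℕ → Bool) (n : ℕ) : Fin n → Bool := fun i => z i

theorem rs_succ (z : ℕ → Bool) (n : ℕ) :
    rs z (n + 1) = Fin.snoc (α := fun _ => Bool) (rs z n) (z n) := by
  funext i
  refine Fin.lastCases ?_ (fun j => ?_) i
  · simp [rs]
  · simp [rs]

theorem small_range (φ : (ℕ → ℕ) → X × Y) (hφ : Continuous φ)
    (hc : ∀ x, {y | (x, y) ∈ range φ}.Countable) : Small (range φ) := by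
  by_contra hns
  have base : Ess φ 0 (fun _ => []) := by
    intro N hN
    have : ¬ range φ ⊆ N := by
      intro h
      obtain ⟨𝒢, h1, h2, h3⟩ := hN
      exact hns ⟨𝒢, h1, h2, h.trans h3⟩
    rw [Set.not_subset] at this
    obtain ⟨_, ⟨z, rfl⟩, hz⟩ := this
    refine ⟨fun _ => z, fun s => ?_, fun s t => rfl, fun s => hz⟩
    intro i hi
    simp at hi
  have step : ∀ n (p : {p : (Fin n → Bool) → List ℕ // Ess φ n p}),
      ∃ q : {q : (Fin (n + 1) → Bool) → List ℕ // Ess φ (n + 1) q},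
        Ext φ n (fun i => sd n i) p.1 q.1 := by
    intro n p
    obtain ⟨q, h1, h2⟩ := ess_ext φ hφ n (fun i => sd n i) p.1 p.2
    exact ⟨⟨q, h2⟩, h1⟩
  choose nxt hnxt using step
  set P : ∀ n, {p : (Fin n → Bool) → List ℕ // Ess φ n p} := fun n =>
    Nat.rec (motive := fun n => {p : (Fin n → Bool) → List ℕ // Ess φ n p})
      ⟨fun _ => [], base⟩ (fun n p => nxt n p) n with hP
  have hE : ∀ n, Ext φ n (fun i => sd n i) (P n).1 (P (n + 1)).1 := fun n => hnxt n (P n)
  have hpre1 : ∀ (z : ℕ → Bool) n, (P n).1 (rs z n) <+: (P (n + 1)).1 (rs z (n + 1)) := by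
    intro z n
    rw [rs_succ]
    exact (hE n).1 (rs z n) (z n)
  have hpre : ∀ (z : ℕ → Bool) m n, m ≤ n → (P m).1 (rs z m) <+: (P n).1 (rs z n) := by
    intro z m n hmn
    induction n, hmn using Nat.le_induction with
    | base => exact List.prefix_rfl
    | succ n _ ih => exact ih.trans (hpre1 z n)
  have hlen : ∀ n t, n ≤ ((P n).1 t).length := by
    intro n t
    cases n with
    | zero => exact Nat.zero_le _
    | succ n => exact (hE n).2.1 t
  set α : (ℕ → Bool) → (ℕ → ℕ) := fun z i => ((P (i + 1)).1 (rs z (i + 1))).getD i 0 with hα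
  have hαmem : ∀ z n, α z ∈ cyl ((P n).1 (rs z n)) := by
    intro z n i hi
    simp only [hα]
    have hi' : i < ((P (i + 1)).1 (rs z (i + 1))).length := hlen (i + 1) _
    rw [List.getD_eq_getElem _ _ hi']
    rcases le_total n (i + 1) with h | h
    · exact ((hpre z n (i + 1) h).getElem hi).symm
    · exact (hpre z (i + 1) n h).getElem hi'
  have hαc : Continuous α := by
    refine continuous_pi fun i => ?_
    have h1 : Continuous (fun z : ℕ → Bool => rs z (i + 1)) :=
      continuous_pi fun j => continuous_apply (j : ℕ)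
    exact (continuous_of_discreteTopology
      (f := fun t : Fin (i + 1) → Bool => ((P (i + 1)).1 t).getD i 0)).comp h1
  choose γ hγ using fun n => (P n).2 ∅ ⟨∅, countable_empty, by simp, by simp⟩
  have hlim : ∀ z, Filter.Tendsto (fun n => γ n (rs z n)) Filter.atTop (nhds (α z)) := by
    intro z
    rw [tendsto_pi_nhds]
    intro i
    refine tendsto_const_nhds.congr' ?_
    filter_upwards [Filter.eventually_gt_atTop i] with n hn
    have hi : i < ((P n).1 (rs z n)).length := hn.trans_le (hlen n _)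
    rw [hαmem z n i hi, (hγ n).1 (rs z n) i hi]
  have hx : ∀ z z', (φ (α z)).1 = (φ (α z')).1 := by
    intro z z'
    have h1 : Filter.Tendsto (fun n => (φ (γ n (rs z n))).1) Filter.atTop
        (nhds (φ (α z)).1) :=
      ((continuous_fst.comp hφ).tendsto _).comp (hlim z)
    have h2 : Filter.Tendsto (fun n => (φ (γ n (rs z' n))).1) Filter.atTop
        (nhds (φ (α z')).1) :=
      ((continuous_fst.comp hφ).tendsto _).comp (hlim z')
    have h3 : (fun n => (φ (γ n (rs z n))).1) = fun n => (φ (γ n (rs z' n))).1 :=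
      funext fun n => (hγ n).2.1 _ _
    rw [h3] at h1
    exact tendsto_nhds_unique h1 h2
  set x : X := (φ (α fun _ => false)).1 with hxdef
  have hcx := hc x
  set D : Y → Set (ℕ → Bool) := fun y => {z | (φ (α z)).2 = y} with hD
  have hDc : ∀ y, IsClosed (D y) := fun y =>
    isClosed_eq (continuous_snd.comp (hφ.comp hαc)) continuous_const
  have hun : (⋃ y ∈ {y | (x, y) ∈ range φ}, D y) = univ := by
    refine eq_univ_of_forall fun z => ?_
    refine mem_biUnion (x := (φ (α z)).2) ?_ rfl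
    show (x, (φ (α z)).2) ∈ range φ
    rw [hxdef, hx _ z]
    exact ⟨α z, rfl⟩
  obtain ⟨y, hint⟩ : ∃ y, (interior (D y)).Nonempty := by
    have : Countable {y | (x, y) ∈ range φ} := hcx.to_subtype
    obtain ⟨y, hy⟩ := nonempty_interior_of_iUnion_of_closed
      (f := fun y : {y | (x, y) ∈ range φ} => D y) (fun y => hDc y) (by
        rw [← hun, biUnion_eq_iUnion])
    exact ⟨y, hy⟩
  obtain ⟨z0, hz0⟩ := hint
  obtain ⟨m, hm⟩ : ∃ m, ∀ w : ℕ → Bool, (∀ i < m, w i = z0 i) → w ∈ D y := by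
    have := (PiNat.isTopologicalBasis_cylinders (fun _ => Bool)).exists_subset_of_mem_open hz0
      isOpen_interior
    obtain ⟨v, ⟨x', n, rfl⟩, h1, h2⟩ := this
    refine ⟨n, fun w hw => interior_subset (h2 ?_)⟩
    rw [← PiNat.mem_cylinder_iff_eq.1 h1, PiNat.mem_cylinder_iff]
    exact hw
  obtain ⟨n, hmn, hn⟩ := sd_dense z0 m
  set w : Bool → ℕ → Bool := fun b i => if i < n then sd n i else b with hw
  have hwD : ∀ b, w b ∈ D y := by
    intro b
    refine hm _ fun i hi => ?_
    simp only [hw, if_pos (hi.trans_le hmn)]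
    exact hn i hi
  have hwr : ∀ b, rs (w b) (n + 1) =
      Fin.snoc (α := fun _ => Bool) (fun i : Fin n => sd n i) b := by
    intro b
    rw [rs_succ]
    congr 1
    · funext i
      simp [rs, hw]
    · simp [hw]
  have h1 := hαmem (w false) (n + 1)
  have h2 := hαmem (w true) (n + 1)
  rw [hwr] at h1 h2
  refine (hE n).2.2 _ h1 _ h2 ?_
  have e1 : (φ (α (w false))).2 = y := hwD false
  have e2 : (φ (α (w true))).2 = y := hwD true
  rw [e1, e2]

end main

/-- **Lusin-Novikov.** A Borel set with countable sections is a countable union of Borel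
graphs. -/
theorem lusin_novikov {X Y : Type} [MeasurableSpace X] [StandardBorelSpace X]
    [MeasurableSpace Y] [StandardBorelSpace Y] (R : Set (X × Y)) (hR : MeasurableSet R)
    (hc : ∀ x, {y | (x, y) ∈ R}.Countable) :
    ∃ G : ℕ → Set (X × Y), (∀ n, MeasurableSet (G n)) ∧
      (∀ n x y y', (x, y) ∈ G n → (x, y') ∈ G n → y = y') ∧ R = ⋃ n, G n := by
  let := upgradeStandardBorel X
  let := upgradeStandardBorel Y
  have hs : Small R := by
    have ha := hR.analyticSet
    rw [AnalyticSet] at ha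
    rcases ha with rfl | ⟨φ, hφ, rfl⟩
    · exact ⟨∅, countable_empty, by simp, by simp⟩
    · exact small_range φ hφ hc
  obtain ⟨𝒢, h1, h2, h3⟩ := hs
  obtain ⟨g, hg⟩ := (h1.union (countable_singleton (∅ : Set (X × Y)))).exists_eq_range
    ⟨∅, Or.inr rfl⟩
  have hgm : ∀ n, MeasurableSet (g n) ∧ PGraph (g n) := by
    intro n
    have : g n ∈ 𝒢 ∪ {∅} := by rw [hg]; exact ⟨n, rfl⟩
    rcases this with h | h
    · exact h2 _ h
    · rw [mem_singleton_iff] at h
      rw [h]
      exact ⟨MeasurableSet.empty, fun x y y' h => absurd h (notMem_empty _)⟩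
  refine ⟨fun n => g n ∩ R, fun n => (hgm n).1.inter hR,
    fun n x y y' h h' => (hgm n).2 x y y' h.1 h'.1, ?_⟩
  ext p
  simp only [mem_iUnion, mem_inter_iff]
  constructor
  · intro hp
    obtain ⟨G, hG, hpG⟩ := h3 hp
    have : G ∈ range g := by rw [← hg]; exact Or.inl hG
    obtain ⟨n, rfl⟩ := this
    exact ⟨n, hpG, hp⟩
  · rintro ⟨n, _, hp⟩
    exact hp

end Pool.Agent.Work.MP_d78dd4_lc
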