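import Pool.Agent.Work.MP_d78dd4_lc.Defs
import Pool.Agent.Work.MP_d78dd4_lc.LN1

set_option autoImplicit false

/-!
# Lusin-Novikov: every countable Borel equivalence relation has a generating sequence (helper72)
-/

namespace Pool.Agent.Work.MP_d78dd4_lc

open Set

section fn

variable {X : Type} [MeasurableSpace X] [StandardBorelSpace X]

open Classical in
/-- The function with graph `G`, extended by the identity. -/
noncomputable def gfun (G : Set (X × X)) (x : X) : X := if h : ∃ y, (x, y) ∈ G then h.choose else x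

omit [MeasurableSpace X] [StandardBorelSpace X] in
theorem gfun_spec {G : Set (X × X)} {x : X} (h : ∃ y, (x, y) ∈ G) : (x, gfun G x) ∈ G := by
  unfold gfun
  rw [dif_pos h]
  exact h.choose_spec

omit [MeasurableSpace X] [StandardBorelSpace X] in
theorem gfun_eq {G : Set (X × X)} (hG : PGraph G) {x y : X} (h : (x, y) ∈ G) : gfun G x = y :=
  hG _ _ _ (gfun_spec ⟨y, h⟩) h

theorem measurableSet_dom {G : Set (X × X)} (hGm : MeasurableSet G) (hG : PGraph G) :
    MeasurableSet {x | ∃ y, (x, y) ∈ G} := by
  have h1 : MeasurableSet (Prod.fst '' G) := by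
    refine hGm.image_of_measurable_injOn measurable_fst ?_
    rintro ⟨x, y⟩ h ⟨x', y'⟩ h' he
    simp only at he
    subst he
    rw [hG x y y' h h']
  convert h1 using 1
  ext x
  simp

theorem measurable_gfun {G : Set (X × X)} (hGm : MeasurableSet G) (hG : PGraph G) :
    Measurable (gfun G) := by
  intro B hB
  have h1 : gfun G ⁻¹' B = {x | ∃ y, (x, y) ∈ G ∩ Prod.snd ⁻¹' B} ∪
      ({x | ∃ y, (x, y) ∈ G}ᶜ ∩ B) := by
    ext x
    by_cases h : ∃ y, (x, y) ∈ G
    · simp only [mem_preimage, mem_union, mem_ofPred_eq, mem_inter_iff, mem_compl_iff, h,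
        not_true_eq_false, false_and, or_false]
      constructor
      · intro hx
        exact ⟨gfun G x, gfun_spec h, hx⟩
      · rintro ⟨y, hy, hyB⟩
        rwa [gfun_eq hG hy]
    · have h2 : gfun G x = x := by unfold gfun; rw [dif_neg h]
      simp only [mem_preimage, mem_union, mem_ofPred_eq, mem_inter_iff, mem_compl_iff, h,
        not_false_eq_true, true_and, h2]
      constructor
      · intro hx; exact Or.inr hx
      · rintro (⟨y, hy, _⟩ | hx)
        · exact absurd ⟨y, hy⟩ h
        · exact hx
  rw [h1]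
  refine (measurableSet_dom (hGm.inter (measurable_snd hB)) ?_).union
    ((measurableSet_dom hGm hG).compl.inter hB)
  intro x y y' h h'
  exact hG x y y' h.1 h'.1

/-- Composition of the functions `f n` along a word. -/
def wM (f : ℕ → X → X) : List ℕ → X → X
  | [], x => x
  | n :: L, x => f n (wM f L x)

/-- The domain of a composition of partial functions. -/
def wD (d : ℕ → Set X) (f : ℕ → X → X) : List ℕ → Set X
  | [] => univ
  | n :: L => {x | x ∈ wD d f L ∧ wM f L x ∈ d n}

end fn

theorem IsCBER.exists_genSeq {X : Type} [MeasurableSpace X] [StandardBorelSpace X]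
    {E : X → X → Prop} (h : IsCBER E) : ∃ φ : GenSeq X, ∀ x y, φ.Rel x y ↔ E x y := by
  obtain ⟨G, hGm, hGg, hG⟩ := lusin_novikov {q : X × X | E q.1 q.2} h.borel h.countable
  set d : ℕ → Set X := fun n => {x | ∃ y, (x, y) ∈ G n} with hd
  set f : ℕ → X → X := fun n => gfun (G n) with hf
  have hdm : ∀ n, MeasurableSet (d n) := fun n => measurableSet_dom (hGm n) (hGg n)
  have hfm : ∀ n, Measurable (f n) := fun n => measurable_gfun (hGm n) (hGg n)
  obtain ⟨M, hMdef⟩ : ∃ M, M = wM f := ⟨_, rfl⟩
  obtain ⟨D, hDdef⟩ : ∃ D, D = wD d f := ⟨_, rfl⟩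
  have hM0 : ∀ x, M [] x = x := fun x => by rw [hMdef]; rfl
  have hM1 : ∀ n L x, M (n :: L) x = f n (M L x) := fun n L x => by rw [hMdef]; rfl
  have hD0 : D [] = univ := by rw [hDdef]; rfl
  have hD1 : ∀ n L, D (n :: L) = {x | x ∈ D L ∧ M L x ∈ d n} := fun n L => by
    rw [hDdef, hMdef]; rfl
  clear hMdef hDdef
  have hMm : ∀ L, Measurable (M L) := by
    intro L
    induction L with
    | nil =>
      have : M [] = id := funext fun x => hM0 x
      rw [this]; exact measurable_id
    | cons n L ih =>
      have : M (n :: L) = f n ∘ M L := funext fun x => hM1 n L x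
      rw [this]; exact (hfm n).comp ih
  have hDm : ∀ L, MeasurableSet (D L) := by
    intro L
    induction L with
    | nil => rw [hD0]; exact MeasurableSet.univ
    | cons n L ih => rw [hD1]; exact ih.inter (hMm L (hdm n))
  have hMa : ∀ L L' x, M (L ++ L') x = M L (M L' x) := by
    intro L L' x
    induction L with
    | nil => rw [List.nil_append, hM0]
    | cons n L ih => rw [List.cons_append, hM1, hM1, ih]
  have hDa : ∀ L L', D (L ++ L') = {x | x ∈ D L' ∧ M L' x ∈ D L} := by
    intro L L'
    induction L with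
    | nil => ext x; simp [hD0]
    | cons n L ih =>
      rw [List.cons_append, hD1, ih, hD1]
      ext x
      simp only [mem_ofPred_eq, hMa]
      tauto
  have hE : ∀ L x, x ∈ D L → E x (M L x) := by
    intro L x
    induction L with
    | nil => intro _; rw [hM0]; exact h.equiv.refl x
    | cons n L ih =>
      intro hx
      rw [hD1] at hx
      rw [hM1]
      refine h.equiv.trans (ih hx.1) ?_
      have h1 : (M L x, f n (M L x)) ∈ G n := gfun_spec hx.2
      have h2 : (M L x, f n (M L x)) ∈ {q : X × X | E q.1 q.2} := by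
        rw [hG]; exact mem_iUnion.2 ⟨n, h1⟩
      exact h2
  refine ⟨⟨fun n => D (Denumerable.ofNat (List ℕ) n), fun n => M (Denumerable.ofNat (List ℕ) n),
    fun n => hDm _, fun n => hMm _, ⟨Encodable.encode ([] : List ℕ), ?_, ?_⟩, ?_⟩, ?_⟩
  · rw [Denumerable.ofNat_encode, hD0]
  · intro x
    rw [Denumerable.ofNat_encode, hM0]
  · intro m n
    refine ⟨Encodable.encode (Denumerable.ofNat (List ℕ) m ++ Denumerable.ofNat (List ℕ) n),
      ?_, ?_⟩
    · rw [Denumerable.ofNat_encode, hDa]
    · intro x _
      rw [Denumerable.ofNat_encode, hMa]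
  · intro x y
    constructor
    · rintro ⟨⟨m, n⟩, ⟨h1, h2⟩, _⟩
      have h3 := hE _ _ h1
      change M (Denumerable.ofNat (List ℕ) m) x = y at h2
      rw [h2] at h3
      exact h3
    · intro hxy
      have key : ∀ x y, E x y → ∃ m, x ∈ D (Denumerable.ofNat (List ℕ) m) ∧
          M (Denumerable.ofNat (List ℕ) m) x = y := by
        intro x y hxy
        have : (x, y) ∈ {q : X × X | E q.1 q.2} := hxy
        rw [hG] at this
        obtain ⟨n, hn⟩ := mem_iUnion.1 this
        refine ⟨Encodable.encode [n], ?_, ?_⟩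
        · rw [Denumerable.ofNat_encode, hD1, hD0]
          exact ⟨mem_univ _, y, by rw [hM0]; exact hn⟩
        · rw [Denumerable.ofNat_encode, hM1, hM0]
          exact gfun_eq (hGg n) hn
      obtain ⟨m, hm⟩ := key x y hxy
      obtain ⟨n, hn⟩ := key y x (h.equiv.symm hxy)
      exact ⟨(m, n), hm, hn⟩

end Pool.Agent.Work.MP_d78dd4_lc
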