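import Pool.Agent.Work.MP_d78dd4_lc.Tower

set_option autoImplicit false

/-!
# Words in partial injections, and the final step from the shift to all sequences
-/

namespace Pool.Agent.Work.MP_d78dd4_lc

variable {X ι : Type}

/-- the partial injection of a letter -/
abbrev letter (p : ι → PartialEquiv X X) (l : ι × Bool) : PartialEquiv X X :=
  if l.2 then p l.1 else (p l.1).symm

theorem word_append (p : ι → PartialEquiv X X) (L L' : List (ι × Bool)) :
    word p (L' ++ L) = (word p L).trans (word p L') := by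
  induction L' with
  | nil => exact (PartialEquiv.trans_refl _).symm
  | cons l L' ih =>
    show (word p (L' ++ L)).trans (letter p l) = (word p L).trans ((word p L').trans (letter p l))
    rw [ih, PartialEquiv.trans_assoc]

/-- the inverse word -/
def invW (L : List (ι × Bool)) : List (ι × Bool) := (L.map fun l => (l.1, !l.2)).reverse

theorem letter_inv (p : ι → PartialEquiv X X) (l : ι × Bool) :
    letter p (l.1, !l.2) = (letter p l).symm := by
  obtain ⟨i, b⟩ := l
  cases b <;> simp [letter]

theorem word_inv (p : ι → PartialEquiv X X) (L : List (ι × Bool)) :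
    word p (invW L) = (word p L).symm := by
  induction L with
  | nil => rfl
  | cons l L ih =>
    have h1 : invW (l :: L) = invW L ++ [(l.1, !l.2)] := by
      simp [invW]
    have h2 : word p [(l.1, !l.2)] = (letter p l).symm := by
      show (PartialEquiv.refl X).trans (letter p (l.1, !l.2)) = _
      rw [PartialEquiv.refl_trans, letter_inv]
    rw [h1, word_append, ih, h2]
    rfl

theorem word_cons_mem {p : ι → PartialEquiv X X} {l : ι × Bool} {L : List (ι × Bool)} {x : X} :
    x ∈ (word p (l :: L)).source ↔ x ∈ (word p L).source ∧ word p L x ∈ (letter p l).source := by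
  show x ∈ ((word p L).trans (letter p l)).source ↔ _
  rw [PartialEquiv.trans_source]
  rfl

theorem word_append_mem {p : ι → PartialEquiv X X} {L L' : List (ι × Bool)} {x : X} :
    x ∈ (word p (L' ++ L)).source ↔ x ∈ (word p L).source ∧ word p L x ∈ (word p L').source := by
  rw [word_append, PartialEquiv.trans_source]
  rfl

theorem word_append_apply (p : ι → PartialEquiv X X) (L L' : List (ι × Bool)) (x : X) :
    word p (L' ++ L) x = word p L' (word p L x) := by
  rw [word_append]
  rfl

/-- related points stay related along words -/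
theorem word_rel {R : X → X → Prop} (hR : Equivalence R) {p : ι → PartialEquiv X X}
    (hp : ∀ i, ∀ x ∈ (p i).source, R x (p i x)) (L : List (ι × Bool)) {x : X}
    (hx : x ∈ (word p L).source) : R x (word p L x) := by
  induction L with
  | nil => exact hR.refl x
  | cons l L ih =>
    obtain ⟨h1, h2⟩ := word_cons_mem.1 hx
    refine hR.trans (ih h1) ?_
    show R (word p L x) (letter p l (word p L x))
    generalize word p L x = y at h2 ⊢
    obtain ⟨i, b⟩ := l
    cases b with
    | true => exact hp i y h2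
    | false =>
      have h3 : y ∈ (p i).target := h2
      have h4 := hp i _ ((p i).map_target h3)
      rw [(p i).right_inv h3] at h4
      exact hR.symm h4

section meas

variable [MeasurableSpace X]

theorem IsBorelPI.symm {p : PartialEquiv X X} (h : IsBorelPI p) : IsBorelPI p.symm :=
  ⟨h.target, h.source, h.meas_symm, h.meas⟩

theorem IsBorelPI.trans {p q : PartialEquiv X X} (hp : IsBorelPI p) (hq : IsBorelPI q) :
    IsBorelPI (p.trans q) where
  source := by
    rw [PartialEquiv.trans_source]
    exact hp.source.inter (hp.meas hq.source)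
  target := by
    rw [PartialEquiv.trans_target]
    exact hq.target.inter (hq.meas_symm hp.target)
  meas := hq.meas.comp hp.meas
  meas_symm := hp.meas_symm.comp hq.meas_symm

theorem isBorelPI_word {p : ι → PartialEquiv X X} (hp : ∀ i, IsBorelPI (p i)) (L : List (ι × Bool)) :
    IsBorelPI (word p L) := by
  induction L with
  | nil => exact ⟨MeasurableSet.univ, MeasurableSet.univ, measurable_id, measurable_id⟩
  | cons l L ih =>
    refine IsBorelPI.trans ih ?_
    split_ifs
    · exact hp l.1
    · exact (hp l.1).symm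

/-- the generating sequence of all words -/
theorem exists_enumerates [Countable ι] {p : ι → PartialEquiv X X} (hp : ∀ i, IsBorelPI (p i)) :
    ∃ φ : GenSeq X, Enumerates φ p := by
  obtain ⟨φ, e, h1, h2, h3⟩ := exists_genSeq_of_family (I := List (ι × Bool))
    (fun L => (word p L).source) (fun L => word p L) (fun L => (isBorelPI_word hp L).source)
    (fun L => (isBorelPI_word hp L).meas) ⟨[], rfl, fun x => rfl⟩ (by
      intro m n
      refine ⟨m ++ n, ?_, fun x _ => word_append_apply p n m x⟩
      ext x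
      exact word_append_mem)
  refine ⟨φ, fun L => ?_, fun n => ⟨e n, h2 n, fun x _ => by rw [h3]⟩⟩
  obtain ⟨n, rfl⟩ := h1 L
  exact ⟨n, h2 n, fun x _ => by rw [h3]⟩

theorem Enumerates.exists_word {φ : GenSeq X} {p : ι → PartialEquiv X X} (h : Enumerates φ p)
    (q : ℕ × ℕ) : ∃ L, ∀ x y, φ.Via q x y → x ∈ (word p L).source ∧ word p L x = y := by
  obtain ⟨L, h1, h2⟩ := h.2 q.1
  refine ⟨L, fun x y hq => ?_⟩
  rw [← h1, ← h2 x hq.1.1]
  exact hq.1

theorem Enumerates.rel_of_word {φ : GenSeq X} {p : ι → PartialEquiv X X} (h : Enumerates φ p)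
    {L : List (ι × Bool)} {x : X} (hx : x ∈ (word p L).source) : φ.Rel x (word p L x) := by
  obtain ⟨m, h1, h2⟩ := h.1 L
  obtain ⟨n, h3, h4⟩ := h.1 (invW L)
  have h5 : x ∈ φ.dom m := by
    rw [h1]
    exact hx
  have h6 : word p L x ∈ φ.dom n := by
    rw [h3, word_inv]
    exact (word p L).map_source hx
  refine ⟨(m, n), ⟨h5, h2 x h5⟩, ⟨h6, ?_⟩⟩
  show φ.map n (word p L x) = x
  rw [h4 _ h6, word_inv]
  exact (word p L).left_inv hx

/-- words in the partial injections `φ.pe q` -/
theorem exists_via_word (φ : GenSeq X) (r : ι → ℕ × ℕ) (L : List (ι × Bool)) :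
    ∃ t, ∀ x ∈ (word (fun i => φ.pe (r i)) L).source,
      φ.Via t x (word (fun i => φ.pe (r i)) L x) := by
  induction L with
  | nil =>
    obtain ⟨t, ht⟩ := φ.exists_via_id
    exact ⟨t, fun x _ => ht x⟩
  | cons l L ih =>
    obtain ⟨t, ht⟩ := ih
    have h1 : ∃ s, ∀ y ∈ (letter (fun i => φ.pe (r i)) l).source,
        φ.Via s y (letter (fun i => φ.pe (r i)) l y) := by
      obtain ⟨i, b⟩ := l
      cases b with
      | true => exact ⟨r i, fun y hy => GenSeq.via_pe hy⟩
      | false =>
        refine ⟨(r i).swap, fun y hy => ?_⟩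
        have h2 : y ∈ (φ.pe (r i)).target := hy
        have h3 := GenSeq.via_pe ((φ.pe (r i)).map_target h2)
        rw [(φ.pe (r i)).right_inv h2] at h3
        exact h3.swap
    obtain ⟨s, hs⟩ := h1
    obtain ⟨v, hv⟩ := φ.exists_via_comp t s
    refine ⟨v, fun x hx => ?_⟩
    obtain ⟨h4, h5⟩ := word_cons_mem.1 hx
    exact hv _ _ _ (ht x h4) (hs _ h5)

end meas

/-! ### The shift as a relation with a generating sequence -/

theorem exists_shSeq : ∃ σ : GenSeq Sh, (∀ x y, σ.Rel x y ↔ Orb x y) ∧
    ∀ γ, ∃ q, ∀ x, σ.Via q x (sh γ x) := by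
  obtain ⟨σ, e, h1, h2, h3⟩ := exists_genSeq_of_family (I := FreeGroup Bool)
    (fun _ => (Set.univ : Set Sh)) (fun γ => sh γ) (fun _ => MeasurableSet.univ)
    (fun γ => measurable_sh γ) ⟨1, rfl, sh_one⟩ (by
      intro m n
      refine ⟨m * n, ?_, fun x _ => sh_mul m n x⟩
      ext x
      simp)
  have h4 : ∀ γ, ∃ q, ∀ x, σ.Via q x (sh γ x) := by
    intro γ
    obtain ⟨m, hm⟩ := h1 γ
    obtain ⟨n, hn⟩ := h1 γ⁻¹
    refine ⟨(m, n), fun x => ⟨⟨?_, ?_⟩, ⟨?_, ?_⟩⟩⟩
    · rw [h2]
      trivial
    · rw [h3, hm]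
    · rw [h2]
      trivial
    · show σ.map n (sh γ x) = x
      rw [h3, hn, sh_inv_sh]
  refine ⟨σ, fun x y => ⟨?_, ?_⟩, h4⟩
  · rintro ⟨q, hq⟩
    refine ⟨e q.1, ?_⟩
    rw [← h3, hq.1.2]
  · rintro ⟨γ, rfl⟩
    obtain ⟨q, hq⟩ := h4 γ
    exact ⟨q, hq x⟩

section finish

variable [MeasurableSpace X]

/-- uniformity for the two generators implies uniformity for all group elements -/
theorem exists_via_all {φ : GenSeq X} {g : Sh → X}
    (h : ∀ i, ∃ q, ∀ z, φ.Via q (g z) (g (sh (FreeGroup.of i) z))) (γ : FreeGroup Bool) :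
    ∃ q, ∀ z, φ.Via q (g z) (g (sh γ z)) := by
  induction γ using FreeGroup.induction_on with
  | C1 =>
    obtain ⟨q, hq⟩ := φ.exists_via_id
    refine ⟨q, fun z => ?_⟩
    rw [sh_one]
    exact hq _
  | of i => exact h i
  | inv_of i _ =>
    obtain ⟨q, hq⟩ := h i
    refine ⟨q.swap, fun z => ?_⟩
    have h1 := hq (sh (FreeGroup.of i)⁻¹ z)
    rw [sh_sh_inv] at h1
    exact h1.swap
  | mul γ δ h1 h2 =>
    obtain ⟨q, hq⟩ := h1
    obtain ⟨r, hr⟩ := h2
    obtain ⟨t, ht⟩ := φ.exists_via_comp r q
    refine ⟨t, fun z => ?_⟩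
    rw [sh_mul]
    exact ht _ _ _ (hr z) (hq _)

/-- a uniform reduction of the shift gives uniform universality -/
theorem uniformlyUniversal_of_shift {φ : GenSeq X} {g : Sh → X} (hg : BorelRed Orb φ.Rel g)
    (h : ∀ i, ∃ q, ∀ z, φ.Via q (g z) (g (sh (FreeGroup.of i) z))) : UniformlyUniversal φ := by
  intro Y _ _ ψ
  obtain ⟨f, u, hf, hu⟩ := to_shift ψ
  choose t ht using exists_via_all h
  refine ⟨fun y => g (f y), hg.comp hf, fun q => t (u q), fun q y y' hq => ?_⟩
  show φ.Via (t (u q)) (g (f y)) (g (f y'))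
  rw [hu q y y' hq]
  exact ht _ _

end finish

end Pool.Agent.Work.MP_d78dd4_lc
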