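import Pool.Agent.Work.MP_d78dd4_lc.Core
import Pool.Agent.Work.MP_d78dd4_lc.LN

set_option autoImplicit false

/-!
# The label statements, the homomorphism statement, and the equivalence theorem
-/

namespace Pool.Agent.Work.MP_d78dd4_lc

theorem universal_orb : Universal Orb := by
  refine ⟨isCBER_orb, ?_⟩
  intro Y _ _ F hF
  obtain ⟨ψ, hψ⟩ := hF.exists_genSeq
  obtain ⟨f, u, hf, hu⟩ := to_shift ψ
  refine ⟨f, hf.1, fun y y' => ?_⟩
  rw [← hψ]
  exact hf.2 y y'

theorem q1Shift_of_q1 (h : Q1) : Q1Shift := fun φ hφ => h Sh φ (universal_orb.congr hφ)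

/-! ### Actions -/

section act

variable {X : Type} [MeasurableSpace X] (T : Bool → X ≃ᵐ X)

theorem act_append (L L' : List (Bool × Bool)) (x : X) :
    act T (L' ++ L) x = act T L' (act T L x) := by
  induction L' with
  | nil => rfl
  | cons l L' ih =>
    show (if l.2 then T l.1 (act T (L' ++ L) x) else (T l.1).symm (act T (L' ++ L) x)) = _
    rw [ih]
    rfl

theorem measurable_act (L : List (Bool × Bool)) : Measurable (act T L) := by
  induction L with
  | nil => exact measurable_id
  | cons l L ih =>
    by_cases h : l.2 = true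
    · have h1 : act T (l :: L) = fun x => T l.1 (act T L x) := by
        funext x
        simp [act, h]
      rw [h1]
      exact (T l.1).measurable.comp ih
    · have h1 : act T (l :: L) = fun x => (T l.1).symm (act T L x) := by
        funext x
        simp [act, h]
      rw [h1]
      exact (T l.1).symm.measurable.comp ih

theorem act_inv (L : List (Bool × Bool)) (x : X) : act T (invW L) (act T L x) = x := by
  induction L generalizing x with
  | nil => rfl
  | cons l L ih =>
    have h1 : invW (l :: L) = invW L ++ [(l.1, !l.2)] := by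
      simp [invW]
    have h2 : act T [(l.1, !l.2)] (act T (l :: L) x) = act T L x := by
      obtain ⟨i, b⟩ := l
      cases b <;> simp [act]
    rw [h1, act_append, h2]
    exact ih x

theorem act_inv_inv (L : List (Bool × Bool)) : invW (invW L) = L := by
  simp [invW, List.map_reverse, Function.comp_def]

theorem orbT_equiv : Equivalence (OrbT T) where
  refl x := ⟨[], rfl⟩
  symm := by
    rintro x y ⟨L, rfl⟩
    exact ⟨invW L, act_inv T L x⟩
  trans := by
    rintro x y z ⟨L, rfl⟩ ⟨M, rfl⟩
    exact ⟨M ++ L, act_append T L M x⟩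

/-! ### The labelled presentation -/

variable {C : Type} (c : X → C)

/-- the labels read at the two ends of every step of the path -/
def vlab : List (Bool × Bool) → X → List (C × C)
  | [], _ => []
  | l :: L, x => (c (act T L x), c (act T (l :: L) x)) :: vlab L x

theorem length_vlab (L : List (Bool × Bool)) (x : X) : (vlab T c L x).length = L.length := by
  induction L with
  | nil => rfl
  | cons l L ih => simp [vlab, ih]

theorem vlab_append (L L' : List (Bool × Bool)) (x : X) :
    vlab T c (L' ++ L) x = vlab T c L' (act T L x) ++ vlab T c L x := by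
  induction L' with
  | nil => rfl
  | cons l L' ih =>
    show (c (act T (L' ++ L) x), c (act T (l :: L' ++ L) x)) :: vlab T c (L' ++ L) x =
      (c (act T L' (act T L x)), c (act T (l :: L') (act T L x))) ::
        (vlab T c L' (act T L x) ++ vlab T c L x)
    rw [ih, act_append, act_append]

theorem vlab_suffix {x y : X} (L : List (Bool × Bool)) :
    L ≠ [] → vlab T c L x = vlab T c L y → ∀ M, M <:+ L → c (act T M x) = c (act T M y) := by
  induction L with
  | nil => exact fun h => absurd rfl h
  | cons l L ih =>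
    intro _ h M hM
    have h1 := (List.cons.inj h).1
    have h2 := (List.cons.inj h).2
    rcases List.suffix_cons_iff.1 hM with h3 | h3
    · subst h3
      exact (Prod.ext_iff.1 h1).2
    · by_cases h4 : L = []
      · subst h4
        have h5 : M = [] := List.suffix_nil.1 h3
        subst h5
        exact (Prod.ext_iff.1 h1).1
      · exact ih h4 h2 M h3

theorem measurableSet_vlab [MeasurableSpace C] [MeasurableSingletonClass C] {c : X → C}
    (hc : Measurable c) (L : List (Bool × Bool)) :
    ∀ s : List (C × C), MeasurableSet {x | vlab T c L x = s} := by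
  induction L with
  | nil =>
    intro s
    simp only [vlab]
    exact MeasurableSet.const _
  | cons l L ih =>
    intro s
    cases s with
    | nil =>
      have h1 : {x | vlab T c (l :: L) x = []} = ∅ := by
        ext x
        simp [vlab]
      rw [h1]
      exact MeasurableSet.empty
    | cons a s =>
      have h1 : {x | vlab T c (l :: L) x = a :: s} =
          ({x | c (act T L x) = a.1} ∩ {x | c (act T (l :: L) x) = a.2}) ∩
            {x | vlab T c L x = s} := by
        ext x
        simp [vlab, Prod.ext_iff]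
      rw [h1]
      refine MeasurableSet.inter (MeasurableSet.inter ?_ ?_) (ih s)
      · exact (hc.comp (measurable_act T _)) (MeasurableSet.singleton a.1)
      · exact (hc.comp (measurable_act T _)) (MeasurableSet.singleton a.2)

theorem exists_labelled [StandardBorelSpace X] [Countable C] [MeasurableSpace C]
    [MeasurableSingletonClass C] {c : X → C} (hc : Measurable c) :
    ∃ φ : GenSeq X, (∀ x y, φ.Rel x y ↔ OrbT T x y) ∧ (UniformlyUniversal φ → LabelRed T c) := by
  obtain ⟨φ, e, h1, h2, h3⟩ := exists_genSeq_of_family (I := List (Bool × Bool) × List (C × C))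
    (fun i => {x : X | vlab T c i.1 x = i.2}) (fun i => act T i.1)
    (fun i => measurableSet_vlab T hc i.1 i.2) (fun i => measurable_act T _) (by
      refine ⟨([], []), ?_, fun x => rfl⟩
      ext x
      simp [vlab]) (by
      intro m n
      by_cases hn : n.2.length = n.1.length
      · by_cases hm : m.2.length = m.1.length
        · refine ⟨(m.1 ++ n.1, m.2 ++ n.2), ?_, fun x _ => act_append T n.1 m.1 x⟩
          ext x
          show vlab T c (m.1 ++ n.1) x = m.2 ++ n.2 ↔
            vlab T c n.1 x = n.2 ∧ vlab T c m.1 (act T n.1 x) = m.2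
          rw [vlab_append]
          constructor
          · intro h4
            have h5 := List.append_inj h4 (by rw [length_vlab, hm])
            exact ⟨h5.2, h5.1⟩
          · rintro ⟨h4, h5⟩
            rw [h4, h5]
        · have h4 : ∀ x, vlab T c m.1 x ≠ m.2 := fun x hx => hm (by rw [← hx, length_vlab])
          refine ⟨m, ?_, fun x hx => absurd hx (h4 x)⟩
          ext x
          constructor
          · intro hx
            exact absurd hx (h4 x)
          · rintro ⟨_, hx⟩
            exact absurd hx (h4 _)
      · have h4 : ∀ x, vlab T c n.1 x ≠ n.2 := fun x hx => hn (by rw [← hx, length_vlab])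
        refine ⟨n, ?_, fun x hx => absurd hx (h4 x)⟩
        ext x
        constructor
        · intro hx
          exact absurd hx (h4 x)
        · rintro ⟨hx, _⟩
          exact absurd hx (h4 _))
  have h4 : ∀ x y, φ.Rel x y ↔ OrbT T x y := by
    intro x y
    constructor
    · rintro ⟨q, hq⟩
      refine ⟨(e q.1).1, ?_⟩
      have h5 := hq.1.2
      rw [h3] at h5
      exact h5
    · rintro ⟨L, rfl⟩
      obtain ⟨m, hm⟩ := h1 (L, vlab T c L x)
      obtain ⟨n, hn⟩ := h1 (invW L, vlab T c (invW L) (act T L x))
      refine ⟨(m, n), ⟨?_, ?_⟩, ⟨?_, ?_⟩⟩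
      · rw [h2, hm]
        rfl
      · show φ.map m x = _
        rw [h3, hm]
      · rw [h2, hn]
        rfl
      · show φ.map n (act T L x) = _
        rw [h3, hn]
        exact act_inv T L x
  refine ⟨φ, h4, fun h => ?_⟩
  obtain ⟨σ, hσ1, hσ2⟩ := exists_shSeq
  obtain ⟨g, ⟨hg1, hg2⟩, u, hu⟩ := h Sh σ
  have hgen := exists_via_all (φ := φ) (g := g) fun i => by
    obtain ⟨q, hq⟩ := hσ2 (FreeGroup.of i)
    exact ⟨u q, fun z => hu q _ _ (hq z)⟩
  have hfree : ∀ i, ∃ x, g (sh (FreeGroup.of i) x) ≠ g x := by
    intro i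
    refine (Cat.generically_free g hg1 (fun x y h => (hσ1 x y).1 ((hg2 x y).2 ?_)) ?_
      (FreeGroup.of i) (FreeGroup.of_ne_one i)).exists
    · rw [h]
      exact φ.rel_equiv.refl _
    · intro γ x y h
      obtain ⟨q, hq⟩ := hgen γ
      rw [← (hq x).1.2, ← (hq y).1.2, h]
  have h5 : ∀ i : Bool, ∃ (w : List (Bool × Bool)) (s : List (C × C)), ∀ x,
      g (sh (FreeGroup.of i) x) = act T w (g x) ∧ vlab T c w (g x) = s := by
    intro i
    obtain ⟨q, hq⟩ := hσ2 (FreeGroup.of i)
    refine ⟨(e (u q).1).1, (e (u q).1).2, fun x => ?_⟩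
    have h6 := (hu q _ _ (hq x)).1
    rw [h2, h3] at h6
    exact ⟨h6.2.symm, h6.1⟩
  choose w s hws using h5
  refine ⟨w, g, ⟨hg1, fun x y => ?_⟩, fun i x => (hws i x).1, fun i L hL x y => ?_⟩
  · rw [← hσ1, hg2, h4]
  · refine vlab_suffix T c (w i) ?_ ?_ L hL
    · intro h6
      obtain ⟨z, hz⟩ := hfree i
      apply hz
      rw [(hws i z).1, h6]
      rfl
    · rw [(hws i x).2, (hws i y).2]

end act

theorem twoLabels_of_q1 (h : Q1) : TwoLabels := by
  intro X _ _ T hU c hc
  obtain ⟨φ, h1, h2⟩ := exists_labelled T hc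
  exact h2 (h X φ (hU.congr h1))

theorem act_shT (L : List (Bool × Bool)) (x : Sh) : act shT L x = sh (FreeGroup.mk L) x := by
  induction L with
  | nil => exact (sh_one x).symm
  | cons l L ih =>
    obtain ⟨i, b⟩ := l
    have h1 : FreeGroup.mk ((i, b) :: L) = FreeGroup.mk [(i, b)] * FreeGroup.mk L := by
      rw [FreeGroup.mul_mk]
      rfl
    rw [h1, sh_mul, ← ih]
    cases b <;> rfl

theorem orbT_shT (x y : Sh) : OrbT shT x y ↔ Orb x y := by
  constructor
  · rintro ⟨L, rfl⟩
    exact ⟨FreeGroup.mk L, (act_shT L x).symm⟩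
  · rintro ⟨γ, rfl⟩
    refine ⟨γ.toWord, ?_⟩
    rw [act_shT, FreeGroup.mk_toWord]

theorem shiftLabels_of_q1Shift (h : Q1Shift) : ShiftLabels := by
  intro c hc
  obtain ⟨φ, h1, h2⟩ := exists_labelled shT hc
  exact h2 (h φ fun x y => (h1 x y).trans (orbT_shT x y))

/-! ### Two labels suffice -/

section tower

variable {X : Type} [MeasurableSpace X]

/-- the vertical automorphism -/
def TA (X : Type) [MeasurableSpace X] : (X × ℤ) ≃ᵐ (X × ℤ) where
  toFun z := (z.1, z.2 + 1)
  invFun z := (z.1, z.2 - 1)
  left_inv z := by simp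
  right_inv z := by simp
  measurable_toFun := measurable_from_prod_countable_left fun n =>
    measurable_id.prodMk (measurable_const : Measurable fun _ : X => n + 1)
  measurable_invFun := measurable_from_prod_countable_left fun n =>
    measurable_id.prodMk (measurable_const : Measurable fun _ : X => n - 1)

open Classical in
/-- the crossing, extended by the identity -/
noncomputable def crossAll (θ : ℕ → PartialEquiv X X) (z : X × ℤ) : X × ℤ :=
  if z ∈ crossDom θ then cross θ z else z

omit [MeasurableSpace X] in
theorem crossAll_crossAll (θ : ℕ → PartialEquiv X X) (z : X × ℤ) :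
    crossAll θ (crossAll θ z) = z := by
  classical
  by_cases h : z ∈ crossDom θ
  · have h1 : crossAll θ z = cross θ z := by
      simp [crossAll, h]
    rw [h1, crossAll, if_pos (cross_mem θ h), cross_cross θ h]
  · have h1 : crossAll θ z = z := by
      simp [crossAll, h]
    rw [h1, h1]

theorem measurable_crossAll {θ : ℕ → PartialEquiv X X} (hθ : ∀ j, IsBorelPI (θ j)) :
    Measurable (crossAll θ) := by
  classical
  exact Measurable.ite (measurableSet_crossDom hθ) (measurable_cross hθ) measurable_id

/-- the crossing automorphism -/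
noncomputable def TB {θ : ℕ → PartialEquiv X X} (hθ : ∀ j, IsBorelPI (θ j)) :
    (X × ℤ) ≃ᵐ (X × ℤ) where
  toFun := crossAll θ
  invFun := crossAll θ
  left_inv := crossAll_crossAll θ
  right_inv := crossAll_crossAll θ
  measurable_toFun := measurable_crossAll hθ
  measurable_invFun := measurable_crossAll hθ

end tower

theorem q1_of_twoLabels (h : TwoLabels) : Q1 := by
  classical
  intro X _ _ φ hU
  have hB := isBorelPI_tw (isBorelPI_theta φ)
  let T : Bool → (X × ℤ) ≃ᵐ (X × ℤ) := fun i => if i then TB (isBorelPI_theta φ) else TA X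
  let c : X × ℤ → Bool := fun z => decide (z ∈ crossDom (theta φ))
  have hc : Measurable c := by
    have h1 : Measurable fun z : X × ℤ => if z ∈ crossDom (theta φ) then true else false :=
      Measurable.ite (measurableSet_crossDom (isBorelPI_theta φ)) measurable_const measurable_const
    have h2 : c = fun z : X × ℤ => if z ∈ crossDom (theta φ) then true else false := by
      funext z
      by_cases h3 : z ∈ crossDom (theta φ) <;> simp [c, h3]
    rw [h2]
    exact h1
  have e0 := orbT_equiv T
  have hcr : ∀ z, TRel φ z (crossAll (theta φ) z) := by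
    intro z
    by_cases h1 : z ∈ crossDom (theta φ)
    · have h2 : crossAll (theta φ) z = cross (theta φ) z := by
        simp [crossAll, h1]
      rw [h2]
      exact cross_rel φ.rel_equiv (theta_rel φ) h1
    · have h2 : crossAll (theta φ) z = z := by
        simp [crossAll, h1]
      rw [h2]
      exact (tRel_equiv φ).refl _
  have e2 : ∀ z z', OrbT T z z' ↔ TRel φ z z' := by
    refine tRel_iff φ e0 ?_ (fun y n => ⟨[(false, true)], rfl⟩) (fun z hz => ⟨[(true, true)], ?_⟩)
    · rintro z z' ⟨L, rfl⟩
      induction L with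
      | nil => exact (tRel_equiv φ).refl _
      | cons l L ih =>
        refine (tRel_equiv φ).trans ih ?_
        obtain ⟨i, b⟩ := l
        cases i with
        | false => cases b <;> exact (tRel_equiv φ).refl _
        | true => cases b <;> exact hcr _
    · show crossAll (theta φ) z = cross (theta φ) z
      simp [crossAll, hz]
  have hU' : Universal (OrbT T) := by
    obtain ⟨φ', hE⟩ := exists_enumerates hB
    have hlet : ∀ l, ∀ z ∈ (letter (tw (theta φ)) l).source,
        φ'.Rel z (letter (tw (theta φ)) l z) := by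
      intro l z hz
      exact hE.rel_of_word (L := [l]) (word_cons_mem.2 ⟨trivial, hz⟩)
    have e3 : ∀ z z', φ'.Rel z z' ↔ TRel φ z z' := by
      refine tRel_iff φ φ'.rel_equiv ?_ (fun y n => hlet (false, true) (y, n) trivial)
        (fun z hz => hlet (true, true) z hz)
      rintro z z' ⟨q, hq⟩
      obtain ⟨L, hL⟩ := hE.exists_word q
      obtain ⟨h1, h2⟩ := hL z z' hq
      rw [← h2]
      exact word_rel (tRel_equiv φ) (fun i w hw => tw_rel φ.rel_equiv (theta_rel φ) i w hw) L h1
    have hC : IsCBER (TRel φ) := by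
      have h1 : φ'.Rel = TRel φ := by
        funext z z'
        exact propext (e3 z z')
      rw [← h1]
      exact φ'.isCBER
    exact (universal_tRel φ hU hC).congr e2
  obtain ⟨w, g, ⟨hg1, hg2⟩, hgw, hlab⟩ := h (X × ℤ) T hU' c hc
  refine tower_main φ ⟨hg1, fun z z' => by rw [hg2, e2]⟩ fun i => ?_
  have key : ∀ L, L <:+ w i → ∃ M, ∀ z, g z ∈ (word (tw (theta φ)) M).source ∧
      word (tw (theta φ)) M (g z) = act T L (g z) := by
    intro L
    induction L with
    | nil => exact fun _ => ⟨[], fun z => ⟨trivial, rfl⟩⟩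
    | cons l L ih =>
      intro hL
      have hL' : L <:+ w i := (List.suffix_cons l L).trans hL
      obtain ⟨M, hM⟩ := ih hL'
      obtain ⟨j, b⟩ := l
      cases j with
      | false =>
        refine ⟨(false, b) :: M, fun z => ⟨word_cons_mem.2 ⟨(hM z).1, ?_⟩, ?_⟩⟩
        · cases b <;> trivial
        · show letter (tw (theta φ)) (false, b) (word (tw (theta φ)) M (g z)) = _
          rw [(hM z).2]
          cases b <;> rfl
      | true =>
        have h1 : ∀ z, act T ((true, b) :: L) (g z) = crossAll (theta φ) (act T L (g z)) := by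
          intro z
          cases b <;> rfl
        by_cases h2 : ∃ z₀, act T L (g z₀) ∈ crossDom (theta φ)
        · obtain ⟨z₀, hz₀⟩ := h2
          have h3 : ∀ z, act T L (g z) ∈ crossDom (theta φ) := by
            intro z
            have h4 := hlab i L hL' z z₀
            simp only [c] at h4
            rw [decide_eq_true hz₀] at h4
            exact of_decide_eq_true h4
          refine ⟨(true, b) :: M, fun z => ⟨word_cons_mem.2 ⟨(hM z).1, ?_⟩, ?_⟩⟩
          · rw [(cross_letter (theta φ) b).1, (hM z).2]
            exact h3 z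
          · show letter (tw (theta φ)) (true, b) (word (tw (theta φ)) M (g z)) = _
            rw [(hM z).2, (cross_letter (theta φ) b).2, h1, crossAll, if_pos (h3 z)]
        · refine ⟨M, fun z => ⟨(hM z).1, ?_⟩⟩
          rw [(hM z).2, h1, crossAll, if_neg fun h3 => h2 ⟨z, h3⟩]
  obtain ⟨M, hM⟩ := key (w i) (List.suffix_refl _)
  exact ⟨M, fun z => ⟨(hM z).1, by rw [(hM z).2, hgw]⟩⟩

/-! ### Homomorphisms -/

theorem hom_of_labels (h : ShiftLabels) : HomStatement := by
  classical
  intro X _ _ φ f hf hom
  have h1 : ∀ (i : Bool) (x : Sh), ∃ n : ℕ, φ.Via (Nat.unpair n) (f x) (f (sh (FreeGroup.of i) x)) := by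
    intro i x
    obtain ⟨q, hq⟩ := hom x (sh (FreeGroup.of i) x) ⟨_, rfl⟩
    refine ⟨Nat.pair q.1 q.2, ?_⟩
    rw [Nat.unpair_pair]
    exact hq
  let d : Bool → Sh → ℕ := fun i x => Nat.find (h1 i x)
  have hd : ∀ i, Measurable (d i) := fun i => measurable_find (h1 i) fun n =>
    φ.measurableSet_via _ hf (hf.comp (measurable_sh _))
  have hd2 : ∀ i x, φ.Via (Nat.unpair (d i x)) (f x) (f (sh (FreeGroup.of i) x)) := fun i x =>
    Nat.find_spec (h1 i x)
  let c : Sh → ℕ := fun x => Nat.pair (d false x) (d true x)
  have hc : Measurable c := by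
    have h2 : Measurable fun n : ℕ × ℕ => Nat.pair n.1 n.2 := measurable_of_countable _
    exact h2.comp ((hd false).prodMk (hd true))
  -- the label determines the pair of indices
  have h2 : ∀ (i : Bool) (n : ℕ), ∃ q, ∀ x, c x = n → φ.Via q (f x) (f (sh (FreeGroup.of i) x)) := by
    intro i n
    cases i with
    | false =>
      refine ⟨Nat.unpair (Nat.unpair n).1, fun x hx => ?_⟩
      have h3 := hd2 false x
      rw [← hx]
      show φ.Via (Nat.unpair (Nat.unpair (Nat.pair (d false x) (d true x))).1) _ _
      rw [Nat.unpair_pair]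
      exact h3
    | true =>
      refine ⟨Nat.unpair (Nat.unpair n).2, fun x hx => ?_⟩
      have h3 := hd2 true x
      rw [← hx]
      show φ.Via (Nat.unpair (Nat.unpair (Nat.pair (d false x) (d true x))).2) _ _
      rw [Nat.unpair_pair]
      exact h3
  obtain ⟨w, g, ⟨hg1, hg2⟩, hgw, hlab⟩ := h c hc
  have h3 : ∀ i L, L <:+ w i → ∃ q, ∀ z, φ.Via q (f (g z)) (f (act shT L (g z))) := by
    intro i L
    induction L with
    | nil =>
      intro _
      obtain ⟨q, hq⟩ := φ.exists_via_id
      exact ⟨q, fun z => hq _⟩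
    | cons l L ih =>
      intro hL
      have hL' : L <:+ w i := (List.suffix_cons l L).trans hL
      obtain ⟨q, hq⟩ := ih hL'
      obtain ⟨j, b⟩ := l
      cases b with
      | true =>
        obtain ⟨r, hr⟩ := h2 j (c (act shT L (g fun _ _ => false)))
        obtain ⟨t, ht⟩ := φ.exists_via_comp q r
        exact ⟨t, fun z => ht _ _ _ (hq z) (hr _ (hlab i L hL' z _))⟩
      | false =>
        obtain ⟨r, hr⟩ := h2 j (c (act shT ((j, false) :: L) (g fun _ _ => false)))
        obtain ⟨t, ht⟩ := φ.exists_via_comp q r.swap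
        refine ⟨t, fun z => ht _ _ _ (hq z) ?_⟩
        have h4 := (hr _ (hlab i _ hL z _)).swap
        have h5 : sh (FreeGroup.of j) (act shT ((j, false) :: L) (g z)) = act shT L (g z) :=
          sh_sh_inv _ _
        rw [h5] at h4
        exact h4
  choose u hu using exists_via_all (φ := φ) (g := fun z => f (g z)) fun i => by
    obtain ⟨q, hq⟩ := h3 i (w i) (List.suffix_refl _)
    exact ⟨q, fun z => by rw [hgw]; exact hq z⟩
  refine ⟨g, u, ⟨hg1, fun x y => (hg2 x y).trans (orbT_shT _ _)⟩, fun γ x => hu γ x⟩

theorem q1_of_hom (h : HomStatement) : Q1 := by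
  intro X _ _ φ hU
  obtain ⟨f, hf⟩ := hU.2 Sh Orb isCBER_orb
  obtain ⟨g, u, hg, hu⟩ := h X φ f hf.1 fun x y hxy => (hf.2 x y).1 hxy
  exact uniformlyUniversal_of_shift (g := fun z => f (g z)) (hf.comp hg) fun i =>
    ⟨u (FreeGroup.of i), fun z => hu _ z⟩

/-- the equivalence theorem -/
theorem equivalences : List.TFAE [Q1, Q1Two, TwoLabels, ShiftLabels, Q1Shift, HomStatement] := by
  tfae_have 1 → 2 := fun h X _ _ p _ _ _ _ _ φ _ hU => h X φ hU
  tfae_have 2 → 1 := q1_of_two
  tfae_have 1 → 3 := twoLabels_of_q1
  tfae_have 3 → 1 := q1_of_twoLabels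
  tfae_have 1 → 5 := q1Shift_of_q1
  tfae_have 5 → 4 := shiftLabels_of_q1Shift
  tfae_have 4 → 6 := hom_of_labels
  tfae_have 6 → 1 := q1_of_hom
  tfae_finish

end Pool.Agent.Work.MP_d78dd4_lc
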