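import Pool.Agent.Work.MP_d78dd4_lc.BB
import Pool.Agent.Work.MP_d78dd4_lc.Label

set_option autoImplicit false

/-!
# Increasing unions and Borel boundedness (helper56)

Let `E` be the increasing union of the relations `E n`.  The words in the partial injections
`p i` restricted to `{x | x (E n) (p i x)}` (all `i`, `n`) generate `E`.  A uniform reduction of the shift uses
two words only, one for each generator, hence is a reduction of the shift to some `E n`; so this `E n` is
universal and `E` reduces to it.  If this `E n` is Borel bounded, then so is `E` (`BorelBounded.of_red`), and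
`E` has a generating sequence with finite forward orbits (`exists_finiteForward`).
-/

namespace Pool.Agent.Work.MP_d78dd4_lc

open Set

namespace BB

section union

variable {X : Type} (p : ℕ → PartialEquiv X X) (E : ℕ → X → X → Prop)

/-- the letter `p i` restricted to the points `x` with `x (E n) (p i x)` -/
def r (t : ℕ × ℕ) : PartialEquiv X X where
  toFun := p t.1
  invFun := (p t.1).symm
  source := (p t.1).source ∩ {x | E t.2 x (p t.1 x)}
  target := (p t.1).target ∩ {y | E t.2 ((p t.1).symm y) y}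
  map_source' x hx := ⟨(p t.1).map_source hx.1, by
    show E t.2 ((p t.1).symm (p t.1 x)) (p t.1 x)
    rw [(p t.1).left_inv hx.1]
    exact hx.2⟩
  map_target' y hy := ⟨(p t.1).map_target hy.1, by
    show E t.2 ((p t.1).symm y) (p t.1 ((p t.1).symm y))
    rw [(p t.1).right_inv hy.1]
    exact hy.2⟩
  left_inv' x hx := (p t.1).left_inv hx.1
  right_inv' y hy := (p t.1).right_inv hy.1

private theorem word_r {p E} (hE : ∀ n, Equivalence (E n)) (hmono : ∀ n m, n ≤ m → ∀ x y, E n x y → E m x y)
    (N : ℕ) (L : List ((ℕ × ℕ) × Bool)) (hN : ∀ l ∈ L, l.1.2 ≤ N) {x : X}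
    (hx : x ∈ (word (r p E) L).source) : E N x (word (r p E) L x) := by
  induction L with
  | nil => exact (hE N).refl x
  | cons l L ih =>
    obtain ⟨h1, h2⟩ := word_cons_mem.1 hx
    refine (hE N).trans (ih (fun l' hl' => hN l' (List.mem_cons_of_mem _ hl')) h1) ?_
    show E N (word (r p E) L x) (letter (r p E) l (word (r p E) L x))
    generalize word (r p E) L x = y at h2 ⊢
    have hl : l.1.2 ≤ N := hN l List.mem_cons_self
    obtain ⟨⟨i, n⟩, b⟩ := l
    cases b with
    | true =>
      have h3 : y ∈ (p i).source ∩ {x | E n x (p i x)} := h2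
      exact hmono n N hl _ _ h3.2
    | false =>
      have h3 : y ∈ (p i).target ∩ {y | E n ((p i).symm y) y} := h2
      exact hmono n N hl _ _ ((hE n).symm h3.2)

private theorem isBorelPI_r [MeasurableSpace X] {p : ℕ → PartialEquiv X X} {E : ℕ → X → X → Prop}
    (hp : ∀ i, IsBorelPI (p i)) (hE : ∀ n, IsCBER (E n)) (t : ℕ × ℕ) : IsBorelPI (r p E t) where
  source := (hp t.1).source.inter ((measurable_id.prodMk (hp t.1).meas) (hE t.2).borel)
  target := (hp t.1).target.inter (((hp t.1).meas_symm.prodMk measurable_id) (hE t.2).borel)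
  meas := (hp t.1).meas
  meas_symm := (hp t.1).meas_symm

end union

/-! ### Borel boundedness is inherited by relations which reduce to a Borel bounded one -/

section push

variable {X Y : Type}

open Classical in
/-- the value of `h` at the point of the section of `G` over `y` -/
noncomputable def pf (G : Set (Y × X)) (h : X → ℕ) (y : Y) : ℕ :=
  if hx : ∃ x, (y, x) ∈ G then h hx.choose else 0

private theorem pf_eq {G : Set (Y × X)} (hG : ∀ y x x', (y, x) ∈ G → (y, x') ∈ G → x = x') (h : X → ℕ)
    {y : Y} {x : X} (hx : (y, x) ∈ G) : pf G h y = h x := by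
  have h1 : ∃ x, (y, x) ∈ G := ⟨x, hx⟩
  unfold pf
  rw [dif_pos h1, hG y _ x h1.choose_spec hx]

variable [MeasurableSpace X] [StandardBorelSpace X] [MeasurableSpace Y] [StandardBorelSpace Y]

private theorem measurableSet_dom' {G : Set (Y × X)} (hGm : MeasurableSet G)
    (hG : ∀ y x x', (y, x) ∈ G → (y, x') ∈ G → x = x') : MeasurableSet {y | ∃ x, (y, x) ∈ G} := by
  have h1 : MeasurableSet (Prod.fst '' G) := by
    refine hGm.image_of_measurable_injOn measurable_fst ?_
    rintro ⟨y, x⟩ h ⟨y', x'⟩ h' he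
    simp only at he
    subst he
    rw [hG y x x' h h']
  convert h1 using 1
  ext x
  simp

private theorem measurable_pf {G : Set (Y × X)} (hGm : MeasurableSet G)
    (hG : ∀ y x x', (y, x) ∈ G → (y, x') ∈ G → x = x') {h : X → ℕ} (hh : Measurable h) :
    Measurable (pf G h) := by
  refine measurable_to_countable' fun c => ?_
  have h1 : pf G h ⁻¹' {c} = {y | ∃ x, (y, x) ∈ G ∩ Prod.snd ⁻¹' (h ⁻¹' {c})} ∪
      ({y | ∃ x, (y, x) ∈ G}ᶜ ∩ {y | 0 = c}) := by
    ext y
    by_cases hy : ∃ x, (y, x) ∈ G
    · obtain ⟨x, hx⟩ := hy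
      constructor
      · intro h2
        have h3 : pf G h y = c := h2
        rw [pf_eq hG h hx] at h3
        exact Or.inl ⟨x, hx, h3⟩
      · rintro (⟨x', hx', h3⟩ | ⟨h3, -⟩)
        · show pf G h y = c
          rw [pf_eq hG h hx']
          exact h3
        · exact absurd ⟨x, hx⟩ h3
    · have h2 : pf G h y = 0 := by
        unfold pf
        rw [dif_neg hy]
      constructor
      · intro h3
        have h4 : pf G h y = c := h3
        rw [h2] at h4
        exact Or.inr ⟨hy, h4⟩
      · rintro (⟨x', hx', -⟩ | ⟨-, h3⟩)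
        · exact absurd ⟨x', hx'⟩ hy
        · show pf G h y = c
          rw [h2]
          exact h3
  rw [h1]
  refine (measurableSet_dom' (hGm.inter (measurable_snd (hh (measurableSet_singleton c)))) ?_).union
    ((measurableSet_dom' hGm hG).compl.inter (MeasurableSet.const _))
  intro y x x' h h'
  exact hG y x x' h.1 h'.1

end push

end BB

theorem BorelBounded.of_red {X Y : Type} [MeasurableSpace X] [StandardBorelSpace X] [MeasurableSpace Y]
    [StandardBorelSpace Y] {E : X → X → Prop} {F : Y → Y → Prop} (hE : IsCBER E) (hF : IsCBER F)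
    (hb : BorelBounded F) {f : X → Y} (hf : BorelRed E F f) : BorelBounded E := by
  intro φ hφ
  have hgm : MeasurableSet {q : Y × X | f q.2 = q.1} :=
    measurableSet_eq_fun (hf.1.comp measurable_snd) measurable_fst
  have hgc : ∀ y, {x | (y, x) ∈ {q : Y × X | f q.2 = q.1}}.Countable := by
    intro y
    by_cases h : ∃ x, f x = y
    · obtain ⟨x, hx⟩ := h
      refine (hE.countable x).mono ?_
      intro x' hx'
      have h1 : f x' = y := hx'
      refine (hf.2 x x').2 ?_
      rw [hx, h1]
      exact hF.equiv.refl y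
    · convert Set.countable_empty
      ext x
      exact ⟨fun hx => h ⟨x, hx⟩, fun hx => hx.elim⟩
  obtain ⟨G, hGm, hG, hGU⟩ := lusin_novikov _ hgm hgc
  obtain ⟨ψ, hψ, h1, h2⟩ := hb (fun y k => ∑ n ∈ Finset.range (k + 1), BB.pf (G n) (fun x => φ x k) y)
    (measurable_pi_lambda _ fun k => Finset.measurable_sum _ fun n _ =>
      BB.measurable_pf (hGm n) (hG n) ((measurable_pi_apply k).comp hφ))
  refine ⟨fun x => ψ (f x), hψ.comp hf.1, fun x => ?_, fun x y hxy => h2 _ _ ((hf.2 x y).1 hxy)⟩
  obtain ⟨N, hN⟩ := h1 (f x)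
  have h3 : (f x, x) ∈ {q : Y × X | f q.2 = q.1} := rfl
  rw [hGU] at h3
  obtain ⟨n, hn⟩ := mem_iUnion.1 h3
  refine ⟨max N n, fun k hk => ?_⟩
  refine le_trans ?_ (hN k ((le_max_left _ _).trans hk))
  have h4 : BB.pf (G n) (fun x => φ x k) (f x) = φ x k := BB.pf_eq (hG n) _ hn
  rw [← h4]
  exact Finset.single_le_sum (f := fun n => BB.pf (G n) (fun x => φ x k) (f x)) (fun _ _ => Nat.zero_le _)
    (Finset.mem_range.2 (by
      have := (le_max_right N n).trans hk
      omega))

/-- the union of an increasing sequence of countable Borel equivalence relations -/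
theorem isCBER_union {X : Type} [MeasurableSpace X] {E : ℕ → X → X → Prop} (hE : ∀ n, IsCBER (E n))
    (hmono : ∀ n m, n ≤ m → ∀ x y, E n x y → E m x y) : IsCBER fun x y => ∃ n, E n x y where
  equiv := by
    refine ⟨fun x => ⟨0, (hE 0).equiv.refl x⟩, ?_, ?_⟩
    · rintro x y ⟨n, hn⟩
      exact ⟨n, (hE n).equiv.symm hn⟩
    · rintro x y z ⟨n, hn⟩ ⟨m, hm⟩
      exact ⟨max n m, (hE _).equiv.trans (hmono n _ (le_max_left _ _) _ _ hn)
        (hmono m _ (le_max_right _ _) _ _ hm)⟩
  borel := by
    have h1 : {q : X × X | ∃ n, E n q.1 q.2} = ⋃ n, {q : X × X | E n q.1 q.2} := by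
      ext q
      simp
    rw [h1]
    exact MeasurableSet.iUnion fun n => (hE n).borel
  countable x := by
    have h1 : {y | ∃ n, E n x y} = ⋃ n, {y | E n x y} := by
      ext y
      simp
    rw [h1]
    exact Set.countable_iUnion fun n => (hE n).countable x

/-- there is a generating sequence of the union such that uniform universality with respect to it makes one
of the relations universal -/
theorem exists_universal {X : Type} [MeasurableSpace X] [StandardBorelSpace X]
    {E : ℕ → X → X → Prop} (hE : ∀ n, IsCBER (E n)) (hmono : ∀ n m, n ≤ m → ∀ x y, E n x y → E m x y) :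
    ∃ θ : GenSeq X, (∀ x y, θ.Rel x y ↔ ∃ n, E n x y) ∧ (UniformlyUniversal θ → ∃ n, Universal (E n)) := by
  have hU := isCBER_union hE hmono
  obtain ⟨φ, hφ⟩ := hU.exists_genSeq
  obtain ⟨p, hpdef⟩ : ∃ p : ℕ → PartialEquiv X X, p = fun n => φ.pe (Nat.unpair n) := ⟨_, rfl⟩
  have hp : ∀ i, IsBorelPI (p i) := fun i => by rw [hpdef]; exact φ.isBorelPI_pe _
  have hpS : ∀ x y, (∃ n, E n x y) → ∃ i, x ∈ (p i).source ∧ p i x = y := by
    intro x y h
    obtain ⟨s, hs⟩ := (hφ x y).2 h
    refine ⟨Nat.pair s.1 s.2, ?_⟩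
    rw [hpdef]
    show x ∈ (φ.pe (Nat.unpair _)).source ∧ φ.pe (Nat.unpair _) x = y
    rw [Nat.unpair_pair]
    exact hs.mem
  clear hpdef
  obtain ⟨θ, hθ⟩ := exists_enumerates (p := BB.r p E) (BB.isBorelPI_r hp hE)
  have hrel : ∀ x y, θ.Rel x y ↔ ∃ n, E n x y := by
    intro x y
    constructor
    · rintro ⟨s, hs⟩
      obtain ⟨L, hL⟩ := hθ.exists_word s
      obtain ⟨h3, h4⟩ := hL x y hs
      rw [← h4]
      exact word_rel (p := BB.r p E) hU.equiv (fun t z hz => ⟨t.2, hz.2⟩) L h3
    · rintro ⟨n, hn⟩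
      obtain ⟨i, h3, h4⟩ := hpS x y ⟨n, hn⟩
      have h5 : x ∈ (word (BB.r p E) [((i, n), true)]).source := by
        refine word_cons_mem.2 ⟨mem_univ _, h3, ?_⟩
        show E n x (p i x)
        rw [h4]
        exact hn
      have h6 := hθ.rel_of_word h5
      have h7 : word (BB.r p E) [((i, n), true)] x = y := h4
      rwa [h7] at h6
  refine ⟨θ, hrel, fun hQ => ?_⟩
  obtain ⟨σ, hσ, hσγ⟩ := exists_shSeq
  obtain ⟨f, hf, u, hu⟩ := hQ Sh σ
  have hgen : ∀ i : Bool, ∃ N, ∀ z, E N (f z) (f (sh (FreeGroup.of i) z)) := by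
    intro i
    obtain ⟨s, hs⟩ := hσγ (FreeGroup.of i)
    obtain ⟨L, hL⟩ := hθ.exists_word (u s)
    obtain ⟨N, hN⟩ : ∃ N, ∀ l ∈ L, l.1.2 ≤ N := by
      clear hL
      induction L with
      | nil => exact ⟨0, by simp⟩
      | cons l L ih =>
        obtain ⟨A, hA⟩ := ih
        refine ⟨max A l.1.2, fun l' hl' => ?_⟩
        rcases List.mem_cons.1 hl' with rfl | h
        · exact le_max_right _ _
        · exact (hA l' h).trans (le_max_left _ _)
    refine ⟨N, fun z => ?_⟩
    obtain ⟨h3, h4⟩ := hL _ _ (hu s _ _ (hs z))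
    rw [← h4]
    exact BB.word_r (fun n => (hE n).equiv) hmono N L hN h3
  choose N hN using hgen
  have hN' : ∀ i z, E (max (N false) (N true)) (f z) (f (sh (FreeGroup.of i) z)) := by
    intro i z
    cases i with
    | false => exact hmono _ _ (le_max_left _ _) _ _ (hN false z)
    | true => exact hmono _ _ (le_max_right _ _) _ _ (hN true z)
  generalize max (N false) (N true) = M at hN'
  have hall : ∀ (γ : FreeGroup Bool) z, E M (f z) (f (sh γ z)) := by
    intro γ
    induction γ using FreeGroup.induction_on with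
    | C1 =>
      intro z
      rw [sh_one]
      exact (hE M).equiv.refl _
    | of i => exact hN' i
    | inv_of i _ =>
      intro z
      have h1 := hN' i (sh (FreeGroup.of i)⁻¹ z)
      rw [sh_sh_inv] at h1
      exact (hE M).equiv.symm h1
    | mul γ δ h1 h2 =>
      intro z
      rw [sh_mul]
      exact (hE M).equiv.trans (h2 z) (h1 _)
  refine ⟨M, universal_orb.of_red (hE M) (g := f) ⟨hf.1, fun x y => ⟨?_, fun h => ?_⟩⟩⟩
  · rintro ⟨γ, rfl⟩
    exact hall γ x
  · exact (hσ x y).1 ((hf.2 x y).2 ((hrel _ _).2 ⟨M, h⟩))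

/-- The main theorem: the union of an increasing sequence of countable Borel equivalence relations has a
generating sequence such that uniform universality with respect to it makes one of the relations universal
and not Borel bounded. -/
theorem exists_union_seq {X : Type} [MeasurableSpace X] [StandardBorelSpace X]
    {E : ℕ → X → X → Prop} (hE : ∀ n, IsCBER (E n)) (hE1 : ∀ n x y, E n x y → E (n + 1) x y) :
    ∃ θ : GenSeq X, (∀ x y, θ.Rel x y ↔ ∃ n, E n x y) ∧
      (UniformlyUniversal θ → ∃ n, Universal (E n) ∧ ¬ BorelBounded (E n)) := by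
  have hmono : ∀ n m, n ≤ m → ∀ x y, E n x y → E m x y := by
    intro n m hnm x y h
    induction m, hnm using Nat.le_induction with
    | base => exact h
    | succ m _ ih => exact hE1 m x y ih
  have hU := isCBER_union hE hmono
  by_cases hb : BorelBounded fun x y => ∃ n, E n x y
  · obtain ⟨θ, h1, h2⟩ := exists_finiteForward hU hb
    exact ⟨θ, h1, fun h => absurd h (not_uniformlyUniversal θ h2)⟩
  · obtain ⟨θ, h1, h2⟩ := exists_universal hE hmono
    refine ⟨θ, h1, fun h => ?_⟩
    obtain ⟨n, hn⟩ := h2 h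
    refine ⟨n, hn, fun hbn => hb ?_⟩
    obtain ⟨f, hf⟩ := hn.2 X _ hU
    exact BorelBounded.of_red hU (hE n) hbn hf

end Pool.Agent.Work.MP_d78dd4_lc
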