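import Pool.Agent.Work.MP_d78dd4_lc.Defs

set_option autoImplicit false

/-!
# Basic facts on generating sequences
-/

namespace Pool.Agent.Work.MP_d78dd4_lc

variable {X Y Z : Type} [MeasurableSpace X] [MeasurableSpace Y] [MeasurableSpace Z]

namespace GenSeq

theorem exists_via_id (φ : GenSeq X) : ∃ q, ∀ x, φ.Via q x x := by
  obtain ⟨n, h1, h2⟩ := φ.id_mem
  refine ⟨(n, n), fun x => ?_⟩
  have h3 : x ∈ φ.dom n := by
    rw [h1]
    trivial
  exact ⟨⟨h3, h2 x⟩, ⟨h3, h2 x⟩⟩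

theorem Via.swap {φ : GenSeq X} {q : ℕ × ℕ} {x y : X} (h : φ.Via q x y) : φ.Via q.swap y x :=
  ⟨h.2, h.1⟩

theorem exists_via_comp (φ : GenSeq X) (q r : ℕ × ℕ) :
    ∃ t, ∀ x y z, φ.Via q x y → φ.Via r y z → φ.Via t x z := by
  obtain ⟨k, h1, h2⟩ := φ.comp_mem r.1 q.1
  obtain ⟨l, h3, h4⟩ := φ.comp_mem q.2 r.2
  refine ⟨(k, l), fun x y z hq hr => ?_⟩
  have h5 : x ∈ φ.dom k := by
    rw [h1]
    refine ⟨hq.1.1, ?_⟩
    rw [hq.1.2]
    exact hr.1.1
  have h6 : z ∈ φ.dom l := by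
    rw [h3]
    refine ⟨hr.2.1, ?_⟩
    rw [hr.2.2]
    exact hq.2.1
  refine ⟨⟨h5, ?_⟩, ⟨h6, ?_⟩⟩
  · show φ.map k x = z
    rw [h2 x h5, hq.1.2, hr.1.2]
  · show φ.map l z = x
    rw [h4 z h6, hr.2.2, hq.2.2]

theorem rel_equiv (φ : GenSeq X) : Equivalence φ.Rel where
  refl x := by
    obtain ⟨q, hq⟩ := φ.exists_via_id
    exact ⟨q, hq x⟩
  symm := by
    rintro x y ⟨q, hq⟩
    exact ⟨q.swap, hq.swap⟩
  trans := by
    rintro x y z ⟨q, hq⟩ ⟨r, hr⟩
    obtain ⟨t, ht⟩ := φ.exists_via_comp q r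
    exact ⟨t, ht x y z hq hr⟩

theorem measurableSet_via [StandardBorelSpace X] (φ : GenSeq X) (q : ℕ × ℕ) {f h : Y → X}
    (hf : Measurable f) (hh : Measurable h) : MeasurableSet {y | φ.Via q (f y) (h y)} := by
  have h1 : MeasurableSet {y | f y ∈ φ.dom q.1} := hf (φ.dom_meas q.1)
  have h2 : MeasurableSet {y | φ.map q.1 (f y) = h y} :=
    measurableSet_eq_fun ((φ.map_meas q.1).comp hf) hh
  have h3 : MeasurableSet {y | h y ∈ φ.dom q.2} := hh (φ.dom_meas q.2)
  have h4 : MeasurableSet {y | φ.map q.2 (h y) = f y} :=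
    measurableSet_eq_fun ((φ.map_meas q.2).comp hh) hf
  exact (h1.inter h2).inter (h3.inter h4)

theorem isCBER [StandardBorelSpace X] (φ : GenSeq X) : IsCBER φ.Rel where
  equiv := φ.rel_equiv
  borel := by
    have h1 : {q : X × X | φ.Rel q.1 q.2} = ⋃ r : ℕ × ℕ, {q : X × X | φ.Via r q.1 q.2} := by
      ext q
      simp [Rel]
    rw [h1]
    exact MeasurableSet.iUnion fun r => φ.measurableSet_via r measurable_fst measurable_snd
  countable := by
    intro x
    refine (Set.countable_range fun n : ℕ => φ.map n x).mono ?_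
    rintro y ⟨q, hq⟩
    exact ⟨q.1, hq.1.2⟩

end GenSeq

theorem BorelRed.comp {F : Z → Z → Prop} {E : Y → Y → Prop} {D : X → X → Prop} {f : Z → Y} {g : Y → X}
    (hg : BorelRed E D g) (hf : BorelRed F E f) : BorelRed F D fun z => g (f z) :=
  ⟨hg.1.comp hf.1, fun y y' => (hf.2 y y').trans (hg.2 _ _)⟩

theorem Universal.of_red {E : Y → Y → Prop} {D : X → X → Prop} (hE : Universal E) (hD : IsCBER D)
    {g : Y → X} (hg : BorelRed E D g) : Universal D := by
  refine ⟨hD, ?_⟩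
  intro W _ _ F hF
  obtain ⟨f, hf⟩ := hE.2 W F hF
  exact ⟨_, hg.comp hf⟩

/-- a relation which agrees with a universal one is universal -/
theorem Universal.congr {E D : X → X → Prop} (hE : Universal E) (h : ∀ x y, D x y ↔ E x y) :
    Universal D := by
  have h1 : D = E := by
    funext x y
    exact propext (h x y)
  rw [h1]
  exact hE

/-! ### Families with another index type -/

/-- the generating sequence obtained from a countable family of partial Borel functions -/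
theorem exists_genSeq_of_family {I : Type} [Countable I] (dom : I → Set X) (map : I → X → X)
    (hd : ∀ i, MeasurableSet (dom i)) (hm : ∀ i, Measurable (map i))
    (hid : ∃ n, dom n = Set.univ ∧ ∀ x, map n x = x)
    (hc : ∀ m n, ∃ k, dom k = {x | x ∈ dom n ∧ map n x ∈ dom m} ∧
      ∀ x ∈ dom k, map k x = map m (map n x)) :
    ∃ (φ : GenSeq X) (e : ℕ → I), Function.Surjective e ∧ (∀ n, φ.dom n = dom (e n)) ∧
      ∀ n, φ.map n = map (e n) := by
  obtain ⟨i0, hi0⟩ := hid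
  haveI : Nonempty I := ⟨i0⟩
  obtain ⟨e, he⟩ := exists_surjective_nat I
  refine ⟨⟨fun n => dom (e n), fun n => map (e n), fun n => hd _, fun n => hm _, ?_, ?_⟩, e, he,
    fun n => rfl, fun n => rfl⟩
  · obtain ⟨n, rfl⟩ := he i0
    exact ⟨n, hi0⟩
  · intro m n
    obtain ⟨k, hk⟩ := hc (e m) (e n)
    obtain ⟨k', rfl⟩ := he k
    exact ⟨k', hk⟩

end Pool.Agent.Work.MP_d78dd4_lc
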