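import Pool.Agent.Work.MP_d78dd4_lc.Defs

set_option autoImplicit false

/-!
# A category argument: uniform maps from the shift are generically injective (helper72)
-/

namespace Pool.Agent.Work.MP_d78dd4_lc

namespace Cat

open Set Filter Topology

instance : Countable (FreeGroup Bool) := by
  unfold FreeGroup; infer_instance

theorem sh_sh (γ δ : FreeGroup Bool) (x : Sh) : sh γ (sh δ x) = sh (γ * δ) x := by
  funext h; simp [sh, mul_assoc]

theorem sh_one (x : Sh) : sh 1 x = x := by
  funext h; simp [sh]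

theorem continuous_sh (γ : FreeGroup Bool) : Continuous (sh γ) :=
  continuous_pi fun h => continuous_apply (γ⁻¹ * h)

/-- the shift by `γ` as a homeomorphism -/
def shHomeo (γ : FreeGroup Bool) : Sh ≃ₜ Sh where
  toFun := sh γ
  invFun := sh γ⁻¹
  left_inv x := by rw [sh_sh, inv_mul_cancel, sh_one]
  right_inv x := by rw [sh_sh, mul_inv_cancel, sh_one]
  continuous_toFun := continuous_sh γ
  continuous_invFun := continuous_sh γ⁻¹

theorem tendsto_sh (γ : FreeGroup Bool) : Tendsto (sh γ) (residual Sh) (residual Sh) :=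
  tendsto_residual_of_isOpenMap (continuous_sh γ) (shHomeo γ).isOpenMap

theorem mem_of_agree {U : Set Sh} (hU : IsOpen U) {x : Sh} (hx : x ∈ U) :
    ∃ I : Finset (FreeGroup Bool), ∀ z : Sh, (∀ g ∈ I, z g = x g) → z ∈ U := by
  obtain ⟨I, u, h1, h2⟩ := isOpen_pi_iff.1 hU x hx
  refine ⟨I, fun z hz => h2 fun g hg => ?_⟩
  rw [hz g hg]
  exact (h1 g hg).2

theorem transitive {w : FreeGroup Bool} (hw : w ≠ 1) {U V : Set Sh} (hU : IsOpen U)
    (hV : IsOpen V) (hUn : U.Nonempty) (hVn : V.Nonempty) :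
    ∃ (k : ℕ) (x : Sh), x ∈ U ∧ sh (w ^ k) x ∈ V := by
  obtain ⟨x, hx⟩ := hUn
  obtain ⟨y, hy⟩ := hVn
  obtain ⟨I, hI⟩ := mem_of_agree hU hx
  obtain ⟨J, hJ⟩ := mem_of_agree hV hy
  have hinj : Function.Injective (fun k : ℕ => w ^ k) := by
    rw [injective_pow_iff_not_isOfFinOrder]
    exact not_isOfFinOrder_of_isMulTorsionFree hw
  obtain ⟨k, hk⟩ : ∃ k : ℕ, w ^ k ∉ Finset.image₂ (fun h g => h * g⁻¹) J I := by
    by_contra hcon
    push Not at hcon
    exact Set.infinite_univ (α := ℕ) ((Set.Finite.preimage (hinj.injOn)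
      (Finset.finite_toSet (Finset.image₂ (fun h g => h * g⁻¹) J I))).subset
        (fun k _ => hcon k))
  classical
  refine ⟨k, fun g => if g ∈ I then x g else y (w ^ k * g), hI _ fun g hg => if_pos hg,
    hJ _ fun h hh => ?_⟩
  have hn : (w ^ k)⁻¹ * h ∉ I := by
    intro hmem
    apply hk
    refine Finset.mem_image₂.2 ⟨h, hh, _, hmem, ?_⟩
    simp
  simp only [sh, if_neg hn]
  rw [mul_inv_cancel_left]

/-- The topological 0-1 law. -/
theorem zero_one {w : FreeGroup Bool} (hw : w ≠ 1) {A : Set Sh} (hA : MeasurableSet A)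
    (hinv : ∀ x ∈ A, sh w x ∈ A) : (∀ᶠ x in residual Sh, x ∉ A) ∨ ∀ᶠ x in residual Sh, x ∈ A := by
  obtain ⟨U, hUo, hAU⟩ := hA.residualEq_isOpen
  rcases U.eq_empty_or_nonempty with rfl | hUn
  · left
    filter_upwards [hAU] with x hx
    exact fun h => by
      have := (iff_of_eq hx).1 h
      exact this
  right
  have hpow : ∀ (k : ℕ), ∀ x ∈ A, sh (w ^ k) x ∈ A := by
    intro k
    induction k with
    | zero => intro x hx; rw [pow_zero, sh_one]; exact hx
    | succ k ih =>
      intro x hx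
      rw [pow_succ', ← sh_sh]
      exact hinv _ (ih x hx)
  have h1 : ∀ᶠ x in residual Sh, ∀ k : ℕ, (sh (w ^ k)⁻¹ x ∈ A ↔ sh (w ^ k)⁻¹ x ∈ U) := by
    rw [eventually_countable_forall]
    intro k
    have h2 : ∀ᶠ x in residual Sh, (x ∈ A ↔ x ∈ U) := by
      filter_upwards [hAU] with x hx
      exact iff_of_eq hx
    exact (tendsto_sh (w ^ k)⁻¹).eventually h2
  have h2 : ∀ᶠ x in residual Sh, ∃ k : ℕ, sh (w ^ k)⁻¹ x ∈ U := by
    have ho : IsOpen (⋃ k : ℕ, (sh (w ^ k)⁻¹) ⁻¹' U) :=
      isOpen_iUnion fun k => hUo.preimage (continuous_sh _)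
    have hd : Dense (⋃ k : ℕ, (sh (w ^ k)⁻¹) ⁻¹' U) := by
      rw [dense_iff_inter_open]
      intro V hV hVn
      obtain ⟨k, x, hx, hkx⟩ := transitive hw hUo hV hUn hVn
      refine ⟨sh (w ^ k) x, hkx, mem_iUnion.2 ⟨k, ?_⟩⟩
      rw [mem_preimage, sh_sh, inv_mul_cancel, sh_one]
      exact hx
    filter_upwards [residual_of_dense_open ho hd] with x hx
    exact mem_iUnion.1 hx
  filter_upwards [h1, h2] with x hx1 ⟨k, hk⟩
  have := hpow k _ ((hx1 k).2 hk)
  rwa [sh_sh, mul_inv_cancel, sh_one] at this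

instance residual_neBot : (residual Sh).NeBot := by
  refine ⟨fun h => ?_⟩
  have h1 : (∅ : Set Sh) ∈ residual Sh := by rw [h]; exact mem_bot
  have h2 := (dense_of_mem_residual h1).nonempty
  exact Set.not_nonempty_empty h2

/-- Points are meager. -/
theorem ne_of_residual (y : Sh) : ∀ᶠ x in residual Sh, x ≠ y := by
  refine residual_of_dense_open (s := {y}ᶜ) isOpen_compl_singleton ?_
  intro x
  by_cases hx : x = y
  · subst hx
    rw [mem_closure_iff_seq_limit]
    refine ⟨fun n g k => if g = 1 ∧ k = n then !(x g k) else x g k, fun n => ?_, ?_⟩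
    · intro h
      have := congrFun (congrFun h 1) n
      simp at this
    · rw [tendsto_pi_nhds]
      intro g
      rw [tendsto_pi_nhds]
      intro k
      refine tendsto_const_nhds.congr' ?_
      filter_upwards [eventually_gt_atTop k] with n hn
      rw [if_neg]
      rintro ⟨_, rfl⟩
      exact lt_irrefl _ hn
  · exact subset_closure hx

/-- A Borel map which is generically invariant is generically constant. -/
theorem generically_const {Z : Type} [MeasurableSpace Z] [StandardBorelSpace Z] {w : FreeGroup Bool}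
    (hw : w ≠ 1) {f : Sh → Z} (hf : Measurable f) {A : Set Sh} (hA : MeasurableSet A)
    (hinv : ∀ x ∈ A, sh w x ∈ A) (hAf : ∀ x ∈ A, f (sh w x) = f x)
    (hAr : ∀ᶠ x in residual Sh, x ∈ A) : ∃ z, ∀ᶠ x in residual Sh, f x = z := by
  let e := MeasurableSpace.mapNatBool Z
  have he : Measurable e := MeasurableSpace.measurable_mapNatBool Z
  have hei : Function.Injective e := MeasurableSpace.injective_mapNatBool Z
  have h1 : ∀ n : ℕ, ∃ b : Bool, ∀ᶠ x in residual Sh, e (f x) n = b := by
    intro n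
    have hm : MeasurableSet {z : Z | e z n = true} :=
      ((measurable_pi_apply n).comp he) (measurableSet_singleton true)
    have hB : MeasurableSet (A ∩ f ⁻¹' {z : Z | e z n = true}) := hA.inter (hf hm)
    rcases zero_one hw hB (fun x hx => ⟨hinv x hx.1, by
      have := hx.2
      rw [mem_preimage] at this ⊢
      rwa [hAf x hx.1]⟩) with h | h
    · refine ⟨false, ?_⟩
      filter_upwards [h, hAr] with x hx hxA
      by_contra hne
      exact hx ⟨hxA, by simpa using hne⟩
    · refine ⟨true, ?_⟩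
      filter_upwards [h] with x hx
      exact hx.2
  choose b hb using h1
  have h2 : ∀ᶠ x in residual Sh, ∀ n, e (f x) n = b n := eventually_countable_forall.2 hb
  obtain ⟨x0, hx0⟩ := h2.exists
  refine ⟨f x0, ?_⟩
  filter_upwards [h2] with x hx
  apply hei
  funext n
  rw [hx n, hx0 n]

/-- Uniform maps are generically injective. -/
theorem generically_free {Z : Type} [MeasurableSpace Z] [StandardBorelSpace Z] (f : Sh → Z)
    (hf : Measurable f) (h1 : ∀ x y, f x = f y → Orb x y)
    (h2 : ∀ γ x y, f x = f y → f (sh γ x) = f (sh γ y)) (w : FreeGroup Bool) (hw : w ≠ 1) :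
    ∀ᶠ x in residual Sh, f (sh w x) ≠ f x := by
  set K : Set Sh := {x | f (sh w x) = f x} with hK
  have hKm : MeasurableSet K :=
    measurableSet_eq_fun (hf.comp (continuous_sh w).measurable) hf
  have hinv : ∀ x ∈ K, sh w x ∈ K := fun x hx => h2 w _ _ hx
  rcases zero_one hw hKm hinv with h | h
  · exact h
  · exfalso
    obtain ⟨z, hz⟩ := generically_const hw hf hKm hinv (fun x hx => hx) h
    obtain ⟨x0, hx0⟩ := hz.exists
    have h3 : ∀ᶠ x in residual Sh, ∀ γ, x ≠ sh γ x0 :=
      eventually_countable_forall.2 fun γ => ne_of_residual _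
    obtain ⟨x, hx, hx'⟩ := (hz.and h3).exists
    obtain ⟨γ, hγ⟩ := h1 x0 x (by rw [hx0, hx])
    exact hx' γ hγ.symm

end Cat

end Pool.Agent.Work.MP_d78dd4_lc
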