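import Pool.Agent.Work.MP_d78dd4_lc.Words
import Pool.Agent.Work.MP_d78dd4_lc.Cat

set_option autoImplicit false

/-!
# Uniform reductions into a tower give uniform reductions
-/

namespace Pool.Agent.Work.MP_d78dd4_lc

/-! ### Levels -/

/-- sums of two powers of two -/
theorem sidon {a b c d : ℕ} (h : 2 ^ a + 2 ^ b = 2 ^ c + 2 ^ d) :
    (a = c ∧ b = d) ∨ (a = d ∧ b = c) := by
  have key : ∀ a b c d : ℕ, a ≤ b → c ≤ d → 2 ^ a + 2 ^ b = 2 ^ c + 2 ^ d → b ≤ d := by
    intro a b c d h1 h2 h3
    by_contra h4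
    have h5 : 2 ^ (d + 1) ≤ 2 ^ b := Nat.pow_le_pow_right (by norm_num) (by omega)
    have h6 : 2 ^ c ≤ 2 ^ d := Nat.pow_le_pow_right (by norm_num) h2
    have h7 : 0 < 2 ^ a := Nat.pos_of_ne_zero (by positivity)
    rw [pow_succ] at h5
    omega
  have key2 : ∀ a b c d : ℕ, a ≤ b → c ≤ d → 2 ^ a + 2 ^ b = 2 ^ c + 2 ^ d → a = c ∧ b = d := by
    intro a b c d h1 h2 h3
    have h4 : b = d := le_antisymm (key a b c d h1 h2 h3) (key c d a b h2 h1 h3.symm)
    subst h4
    have h5 : 2 ^ a = 2 ^ c := by omega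
    exact ⟨Nat.pow_right_injective (le_refl 2) h5, rfl⟩
  rcases le_total a b with h1 | h1 <;> rcases le_total c d with h2 | h2
  · exact Or.inl (key2 a b c d h1 h2 h)
  · right
    exact key2 a b d c h1 h2 (by omega)
  · right
    have := key2 b a c d h1 h2 (by omega)
    exact ⟨this.2, this.1⟩
  · left
    have := key2 b a d c h1 h2 (by omega)
    exact ⟨this.2, this.1⟩

/-- the partner of an exponent -/
def partner (a : ℕ) : ℕ := if a % 2 = 0 then a + 1 else a - 1

theorem partner_inj {a b : ℕ} (h : partner a = partner b) : a = b := by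
  unfold partner at h
  split_ifs at h <;> omega

variable {Y : Type} (θ : ℕ → PartialEquiv Y Y)

/-- words which consist of vertical letters -/
def Vert (L : List (Bool × Bool)) : Prop := ∀ l ∈ L, l.1 = false

theorem vert_word {L : List (Bool × Bool)} (hL : Vert L) :
    ∃ e : ℤ, ∀ z, z ∈ (word (tw θ) L).source ∧ word (tw θ) L z = (z.1, z.2 + e) := by
  induction L with
  | nil => exact ⟨0, fun z => ⟨trivial, Prod.ext rfl (add_zero _).symm⟩⟩
  | cons l L ih =>
    obtain ⟨e, he⟩ := ih fun l hl => hL l (List.mem_cons_of_mem _ hl)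
    have h1 : l.1 = false := hL l List.mem_cons_self
    obtain ⟨i, b⟩ := l
    simp only at h1
    subst h1
    cases b with
    | true =>
      refine ⟨e + 1, fun z => ⟨word_cons_mem.2 ⟨(he z).1, trivial⟩, ?_⟩⟩
      show twA Y (word (tw θ) L z) = _
      rw [(he z).2]
      exact Prod.ext rfl (add_assoc _ _ _)
    | false =>
      refine ⟨e - 1, fun z => ⟨word_cons_mem.2 ⟨(he z).1, trivial⟩, ?_⟩⟩
      show (twA Y).symm (word (tw θ) L z) = _
      rw [(he z).2]
      exact Prod.ext rfl (add_sub_assoc _ _ _)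

theorem cross_letter (ε : Bool) : (letter (tw θ) (true, ε)).source = crossDom θ ∧
    ∀ z, letter (tw θ) (true, ε) z = cross θ z := by
  cases ε <;> exact ⟨rfl, fun z => rfl⟩

/-- the effect of a crossing on the level -/
theorem cross_level {z : Y × ℤ} (hz : z ∈ crossDom θ) :
    ∃ a : ℕ, z.2 = 2 ^ a ∧ (cross θ z).2 = 2 ^ partner a := by
  obtain ⟨y, n⟩ := z
  rcases hz with ⟨j, h1, h2⟩ | ⟨j, h1, h2⟩
  · simp only at h1
    subst h1
    refine ⟨2 * j, rfl, ?_⟩
    rw [cross_even]
    have : partner (2 * j) = 2 * j + 1 := by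
      unfold partner
      rw [if_pos (by omega)]
    rw [this]
  · simp only at h1
    subst h1
    refine ⟨2 * j + 1, rfl, ?_⟩
    rw [cross_odd]
    have : partner (2 * j + 1) = 2 * j := by
      unfold partner
      rw [if_neg (by omega)]
      omega
    rw [this]

theorem mid_mem {δ ε : Bool} {P : List (Bool × Bool)} {z : Y × ℤ} :
    z ∈ (word (tw θ) ((true, δ) :: P ++ [(true, ε)])).source ↔
      z ∈ crossDom θ ∧ cross θ z ∈ (word (tw θ) P).source ∧
        word (tw θ) P (cross θ z) ∈ crossDom θ := by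
  have h1 : (true, δ) :: P ++ [(true, ε)] = [(true, δ)] ++ (P ++ [(true, ε)]) := rfl
  rw [h1, word_append_mem, word_append_mem, word_append_apply]
  have h2 : ∀ (ε : Bool) (z : Y × ℤ), z ∈ (word (tw θ) [(true, ε)]).source ↔ z ∈ crossDom θ := by
    intro ε z
    rw [word_cons_mem, (cross_letter θ ε).1]
    exact ⟨fun h => h.2, fun h => ⟨trivial, h⟩⟩
  have h3 : ∀ (ε : Bool) (z : Y × ℤ), word (tw θ) [(true, ε)] z = cross θ z := by
    intro ε z
    show letter (tw θ) (true, ε) z = _
    exact (cross_letter θ ε).2 z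
  rw [h2, h2, h3]
  exact and_assoc

theorem mid_apply (δ ε : Bool) (P : List (Bool × Bool)) (z : Y × ℤ) :
    word (tw θ) ((true, δ) :: P ++ [(true, ε)]) z =
      cross θ (word (tw θ) P (cross θ z)) := by
  have h1 : (true, δ) :: P ++ [(true, ε)] = [(true, δ)] ++ (P ++ [(true, ε)]) := rfl
  rw [h1, word_append_apply, word_append_apply]
  show letter (tw θ) (true, δ) (word (tw θ) P (letter (tw θ) (true, ε) z)) = _
  rw [(cross_letter θ δ).2, (cross_letter θ ε).2]

/-- two consecutive crossings in a word which is defined at points of different levels -/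
theorem consecutive {δ ε : Bool} {P : List (Bool × Bool)} (hP : Vert P) {z₁ z₂ : Y × ℤ}
    (h₁ : z₁ ∈ (word (tw θ) ((true, δ) :: P ++ [(true, ε)])).source)
    (h₂ : z₂ ∈ (word (tw θ) ((true, δ) :: P ++ [(true, ε)])).source) (hne : z₁.2 ≠ z₂.2) :
    (∀ z, word (tw θ) P z = z) ∧ ∀ z ∈ (word (tw θ) ((true, δ) :: P ++ [(true, ε)])).source,
      word (tw θ) ((true, δ) :: P ++ [(true, ε)]) z = z := by
  obtain ⟨e, he⟩ := vert_word θ hP
  obtain ⟨a1, a2, a3⟩ := (mid_mem θ).1 h₁
  obtain ⟨b1, b2, b3⟩ := (mid_mem θ).1 h₂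
  obtain ⟨r₁, c1, c2⟩ := cross_level θ a1
  obtain ⟨r₂, d1, d2⟩ := cross_level θ b1
  obtain ⟨t₁, c6, _⟩ := cross_level θ a3
  obtain ⟨t₂, d6, _⟩ := cross_level θ b3
  rw [(he _).2] at c6 d6
  simp only at c6 d6
  rw [c2] at c6
  rw [d2] at d6
  have hs : partner r₁ ≠ partner r₂ := by
    intro h
    apply hne
    rw [c1, d1, partner_inj h]
  have h3 : 2 ^ t₁ + 2 ^ partner r₂ = 2 ^ t₂ + 2 ^ partner r₁ := by
    have : ((2 ^ t₁ : ℕ) : ℤ) + ((2 ^ partner r₂ : ℕ) : ℤ) =
        ((2 ^ t₂ : ℕ) : ℤ) + ((2 ^ partner r₁ : ℕ) : ℤ) := by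
      push_cast
      rw [← c6, ← d6]
      ring
    exact_mod_cast this
  have h4 : t₁ = partner r₁ := by
    rcases sidon h3 with h | h
    · exact absurd h.2.symm hs
    · exact h.1
  have he0 : e = 0 := by
    rw [h4] at c6
    linarith
  have h5 : ∀ z, word (tw θ) P z = z := by
    intro z
    rw [(he z).2, he0, add_zero]
  refine ⟨h5, fun z hz => ?_⟩
  rw [mid_apply, h5]
  exact cross_cross θ ((mid_mem θ).1 hz).1

/-- levels are not merged -/
theorem level_ne {L : List (Bool × Bool)} {z₁ z₂ : Y × ℤ} (h₁ : z₁ ∈ (word (tw θ) L).source)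
    (h₂ : z₂ ∈ (word (tw θ) L).source) (hne : z₁.2 ≠ z₂.2) :
    (word (tw θ) L z₁).2 ≠ (word (tw θ) L z₂).2 := by
  induction L with
  | nil => exact hne
  | cons l L ih =>
    obtain ⟨a1, a2⟩ := word_cons_mem.1 h₁
    obtain ⟨b1, b2⟩ := word_cons_mem.1 h₂
    have h3 := ih a1 b1
    show (letter (tw θ) l (word (tw θ) L z₁)).2 ≠ (letter (tw θ) l (word (tw θ) L z₂)).2
    generalize word (tw θ) L z₁ = w₁ at a2 h3 ⊢
    generalize word (tw θ) L z₂ = w₂ at b2 h3 ⊢
    obtain ⟨i, b⟩ := l
    cases i with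
    | false =>
      cases b with
      | true =>
        show w₁.2 + 1 ≠ w₂.2 + 1
        omega
      | false =>
        show w₁.2 - 1 ≠ w₂.2 - 1
        omega
    | true =>
      rw [(cross_letter θ b).1] at a2 b2
      rw [(cross_letter θ b).2, (cross_letter θ b).2]
      obtain ⟨r₁, c1, c2⟩ := cross_level θ a2
      obtain ⟨r₂, d1, d2⟩ := cross_level θ b2
      intro h4
      rw [c2, d2] at h4
      have h5 : partner r₁ = partner r₂ := by
        have : (2 : ℕ) ^ partner r₁ = 2 ^ partner r₂ := by exact_mod_cast h4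
        exact Nat.pow_right_injective (le_refl 2) this
      apply h3
      rw [c1, d1, partner_inj h5]

/-! ### Case 1: constant level -/

theorem machine (L : List (Bool × Bool)) (n : ℤ) :
    ∃ (Θ : List (ℕ × Bool)) (n' : ℤ), ∀ y, (y, n) ∈ (word (tw θ) L).source →
      y ∈ (word θ Θ).source ∧ word (tw θ) L (y, n) = (word θ Θ y, n') := by
  induction L with
  | nil => exact ⟨[], n, fun y _ => ⟨trivial, rfl⟩⟩
  | cons l L ih =>
    obtain ⟨Θ, n', h⟩ := ih
    obtain ⟨i, b⟩ := l
    cases i with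
    | false =>
      cases b with
      | true =>
        refine ⟨Θ, n' + 1, fun y hy => ?_⟩
        obtain ⟨h1, h2⟩ := word_cons_mem.1 hy
        obtain ⟨h3, h4⟩ := h y h1
        refine ⟨h3, ?_⟩
        show letter (tw θ) (false, true) (word (tw θ) L (y, n)) = _
        rw [h4]
        rfl
      | false =>
        refine ⟨Θ, n' - 1, fun y hy => ?_⟩
        obtain ⟨h1, h2⟩ := word_cons_mem.1 hy
        obtain ⟨h3, h4⟩ := h y h1
        refine ⟨h3, ?_⟩
        show letter (tw θ) (false, false) (word (tw θ) L (y, n)) = _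
        rw [h4]
        rfl
    | true =>
      refine ⟨(idx n', side n') :: Θ, if side n' then 2 * n' else n' / 2, fun y hy => ?_⟩
      obtain ⟨h1, h2⟩ := word_cons_mem.1 hy
      obtain ⟨h3, h4⟩ := h y h1
      rw [h4, (cross_letter θ b).1] at h2
      have h5 : word (tw θ) ((true, b) :: L) (y, n) = cross θ (word θ Θ y, n') := by
        show letter (tw θ) (true, b) (word (tw θ) L (y, n)) = _
        rw [h4, (cross_letter θ b).2]
      rw [h5]
      rcases h2 with ⟨j, h6, h7⟩ | ⟨j, h6, h7⟩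
      · simp only at h6 h7
        subst h6
        rw [idx_even, side_even]
        refine ⟨word_cons_mem.2 ⟨h3, h7⟩, ?_⟩
        rw [cross, side_even, idx_even]
        rfl
      · simp only at h6 h7
        subst h6
        rw [idx_odd, side_odd]
        refine ⟨word_cons_mem.2 ⟨h3, h7⟩, ?_⟩
        rw [cross, side_odd, idx_odd]
        rfl

/-! ### Case 2: two levels -/

theorem exists_first_crossing {L : List (Bool × Bool)} (h : ¬ Vert L) :
    ∃ A ε B, L = A ++ (true, ε) :: B ∧ Vert B := by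
  induction L with
  | nil => exact absurd (fun l hl => absurd hl List.not_mem_nil) h
  | cons l L ih =>
    by_cases hL : Vert L
    · obtain ⟨i, b⟩ := l
      have h1 : i = true := by
        by_contra h2
        apply h
        intro l hl
        rcases List.mem_cons.1 hl with h3 | h3
        · rw [h3]
          simpa using h2
        · exact hL l h3
      subst h1
      exact ⟨[], b, L, rfl, hL⟩
    · obtain ⟨A, ε, B, h1, h2⟩ := ih hL
      exact ⟨l :: A, ε, B, by rw [h1]; rfl, h2⟩

/-- `L` moves `g z` to `g (i z)` for all `z` -/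
def Valid (g : Sh → Y × ℤ) (i : Bool) (L : List (Bool × Bool)) : Prop :=
  ∀ z, g z ∈ (word (tw θ) L).source ∧ word (tw θ) L (g z) = g (sh (FreeGroup.of i) z)

theorem two_levels {g : Sh → Y × ℤ} {i : Bool}
    (hfree : ∃ z, g (sh (FreeGroup.of i * FreeGroup.of i) z) ≠ g z)
    {z₁ z₂ : Sh} (hne : (g z₁).2 ≠ (g z₂).2) :
    ∀ (n : ℕ) (L : List (Bool × Bool)), L.length ≤ n → Valid θ g i L →
      ∀ z, (g (sh (FreeGroup.of i) z)).1 = (g z).1 := by
  intro n
  induction n with
  | zero =>
    intro L hL hv z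
    have h1 : L = [] := List.length_eq_zero_iff.1 (by omega)
    subst h1
    rw [← (hv z).2]
    rfl
  | succ n ih =>
    intro L hL hv z
    by_cases h1 : Vert L
    · obtain ⟨e, he⟩ := vert_word θ h1
      rw [← (hv z).2, (he _).2]
    obtain ⟨A, ε, B, hLe, hB⟩ := exists_first_crossing h1
    by_cases hA : Vert A
    · -- exactly one crossing: consider `L ++ L`
      exfalso
      have h2 : ∀ z, g z ∈ (word (tw θ) (L ++ L)).source ∧
          word (tw θ) (L ++ L) (g z) = g (sh (FreeGroup.of i * FreeGroup.of i) z) := by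
        intro z
        refine ⟨word_append_mem.2 ⟨(hv z).1, ?_⟩, ?_⟩
        · rw [(hv z).2]
          exact (hv _).1
        · rw [word_append_apply, (hv z).2, (hv _).2, sh_mul]
      have h3 : L ++ L = A ++ (((true, ε) :: (B ++ A) ++ [(true, ε)]) ++ B) := by
        rw [hLe]
        simp
      have h4 : ∀ z, g z ∈ (word (tw θ) B).source ∧
          word (tw θ) B (g z) ∈ (word (tw θ) ((true, ε) :: (B ++ A) ++ [(true, ε)])).source := by
        intro z
        have h5 := (h2 z).1
        rw [h3] at h5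
        exact word_append_mem.1 (word_append_mem.1 h5).1
      have h5 : Vert (B ++ A) := by
        intro l hl
        rcases List.mem_append.1 hl with h | h
        · exact hB l h
        · exact hA l h
      have h6 := consecutive θ h5 (h4 z₁).2 (h4 z₂).2 (level_ne θ (h4 z₁).1 (h4 z₂).1 hne)
      obtain ⟨z₀, hz₀⟩ := hfree
      apply hz₀
      rw [← (h2 z₀).2, h3, word_append_apply, word_append_apply, h6.2 _ (h4 z₀).2]
      obtain ⟨a, ha⟩ := vert_word θ hA
      obtain ⟨b, hb⟩ := vert_word θ hB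
      have h7 := h6.1 (g z₀)
      rw [word_append_apply, (ha _).2, (hb _).2] at h7
      rw [(hb _).2, (ha _).2]
      show ((g z₀).1, (g z₀).2 + b + a) = g z₀
      rw [add_right_comm]
      exact h7
    · obtain ⟨A', δ, P, hAe, hP⟩ := exists_first_crossing hA
      have h3 : L = A' ++ (((true, δ) :: P ++ [(true, ε)]) ++ B) := by
        rw [hLe, hAe]
        simp
      have h4 : ∀ z, (g z ∈ (word (tw θ) B).source ∧
          word (tw θ) B (g z) ∈ (word (tw θ) ((true, δ) :: P ++ [(true, ε)])).source) ∧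
          word (tw θ) (((true, δ) :: P ++ [(true, ε)]) ++ B) (g z) ∈ (word (tw θ) A').source := by
        intro z
        have h5 := (hv z).1
        rw [h3] at h5
        exact ⟨word_append_mem.1 (word_append_mem.1 h5).1, (word_append_mem.1 h5).2⟩
      have h6 := (consecutive θ hP (h4 z₁).1.2 (h4 z₂).1.2
        (level_ne θ (h4 z₁).1.1 (h4 z₂).1.1 hne)).2
      refine ih (A' ++ B) ?_ ?_ z
      · have h7 := congrArg List.length h3
        simp at h7 ⊢
        omega
      · intro z
        have h7 := h6 _ (h4 z).1.2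
        have h8 := (h4 z).2
        rw [word_append_apply, h7] at h8
        refine ⟨word_append_mem.2 ⟨(h4 z).1.1, h8⟩, ?_⟩
        rw [word_append_apply, ← (hv z).2, h3, word_append_apply, word_append_apply, h7]

/-! ### The theorem -/

section main

variable {X : Type} [MeasurableSpace X] [StandardBorelSpace X] (φ : GenSeq X)

/-- the family of partial injections of a generating sequence -/
def theta (n : ℕ) : PartialEquiv X X := φ.pe (Nat.unpair n)

omit [StandardBorelSpace X] in
theorem theta_rel (n : ℕ) (y : X) (hy : y ∈ (theta φ n).source) : φ.Rel y (theta φ n y) :=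
  ⟨_, GenSeq.via_pe hy⟩

theorem isBorelPI_theta (n : ℕ) : IsBorelPI (theta φ n) := φ.isBorelPI_pe _

/-- the relation on the tower -/
def TRel (z z' : X × ℤ) : Prop := φ.Rel z.1 z'.1

omit [StandardBorelSpace X] in
theorem tRel_equiv : Equivalence (TRel φ) :=
  ⟨fun _ => φ.rel_equiv.refl _, fun h => φ.rel_equiv.symm h, fun h h' => φ.rel_equiv.trans h h'⟩

theorem tower_main {g : Sh → X × ℤ} (hg : BorelRed Orb (TRel φ) g)
    (hval : ∀ i, ∃ L, Valid (theta φ) g i L) : UniformlyUniversal φ := by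
  have hred : BorelRed Orb φ.Rel fun z => (g z).1 := ⟨measurable_fst.comp hg.1, hg.2⟩
  -- equality is preserved
  have hgen : ∀ γ : FreeGroup Bool, ∃ L, ∀ z, g z ∈ (word (tw (theta φ)) L).source ∧
      word (tw (theta φ)) L (g z) = g (sh γ z) := by
    intro γ
    induction γ using FreeGroup.induction_on with
    | C1 => exact ⟨[], fun z => ⟨trivial, by rw [sh_one]; rfl⟩⟩
    | of i => exact hval i
    | inv_of i h =>
      obtain ⟨L, hL⟩ := h
      refine ⟨invW L, fun z => ?_⟩
      have h1 := hL (sh (FreeGroup.of i)⁻¹ z)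
      rw [sh_sh_inv] at h1
      rw [word_inv, ← h1.2]
      exact ⟨(word _ L).map_source h1.1, (word _ L).left_inv h1.1⟩
    | mul γ δ h1 h2 =>
      obtain ⟨L, hL⟩ := h1
      obtain ⟨M, hM⟩ := h2
      refine ⟨L ++ M, fun z => ⟨word_append_mem.2 ⟨(hM z).1, ?_⟩, ?_⟩⟩
      · rw [(hM z).2]
        exact (hL _).1
      · rw [word_append_apply, (hM z).2, (hL _).2, sh_mul]
  have hfree : ∀ i, ∃ z, g (sh (FreeGroup.of i * FreeGroup.of i) z) ≠ g z := by
    intro i
    have h1 := Cat.generically_free g hg.1 (fun x y h => (hg.2 x y).2 (by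
        rw [h]
        exact (tRel_equiv φ).refl _)) (fun γ x y h => by
        obtain ⟨L, hL⟩ := hgen γ
        rw [← (hL x).2, ← (hL y).2, h]) (FreeGroup.of i * FreeGroup.of i) (by
        intro h
        have h2 : FreeGroup.of i ^ 2 = 1 := by
          rw [pow_two]
          exact h
        have h3 : (FreeGroup.lift fun _ : Bool => Multiplicative.ofAdd (1 : ℤ))
            (FreeGroup.of i ^ 2) = 1 := by
          rw [h2]
          exact map_one _
        rw [map_pow, FreeGroup.lift_apply_of] at h3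
        have h4 := congrArg Multiplicative.toAdd h3
        simp at h4)
    exact h1.exists
  refine uniformlyUniversal_of_shift hred fun i => ?_
  obtain ⟨L, hL⟩ := hval i
  by_cases hc : ∃ n, ∀ z, (g z).2 = n
  · obtain ⟨n, hn⟩ := hc
    obtain ⟨Θ, n', hΘ⟩ := machine (theta φ) L n
    obtain ⟨t, ht⟩ := exists_via_word φ Nat.unpair Θ
    refine ⟨t, fun z => ?_⟩
    have h1 : g z = ((g z).1, n) := Prod.ext rfl (hn z)
    have h2 := (hL z).1
    rw [h1] at h2
    obtain ⟨h3, h4⟩ := hΘ _ h2
    have h5 := (hL z).2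
    rw [h1, h4] at h5
    have h6 := ht _ h3
    show φ.Via t (g z).1 (g (sh (FreeGroup.of i) z)).1
    rw [← h5]
    exact h6
  · have h1 : ∃ z₁ z₂, (g z₁).2 ≠ (g z₂).2 := by
      by_contra h2
      apply hc
      refine ⟨(g fun _ _ => false).2, fun z => ?_⟩
      by_contra h3
      exact h2 ⟨_, _, h3⟩
    obtain ⟨z₁, z₂, h2⟩ := h1
    obtain ⟨t, ht⟩ := φ.exists_via_id
    refine ⟨t, fun z => ?_⟩
    show φ.Via t (g z).1 (g (sh (FreeGroup.of i) z)).1
    rw [two_levels (theta φ) (hfree i) h2 L.length L le_rfl hL z]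
    exact ht _

omit [StandardBorelSpace X] in
/-- an equivalence relation on the tower which contains the vertical steps and the crossings is `TRel` -/
theorem tRel_iff {R : X × ℤ → X × ℤ → Prop} (hR : Equivalence R)
    (h1 : ∀ z z', R z z' → TRel φ z z') (h2 : ∀ y n, R (y, n) (y, n + 1))
    (h3 : ∀ z ∈ crossDom (theta φ), R z (cross (theta φ) z)) (z z' : X × ℤ) :
    R z z' ↔ TRel φ z z' := by
  refine ⟨h1 z z', ?_⟩
  have h4 : ∀ (y : X) (m : ℤ) (k : ℕ), R (y, m) (y, m + k) := by
    intro y m k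
    induction k with
    | zero =>
      have : m + ((0 : ℕ) : ℤ) = m := by simp
      rw [this]
      exact hR.refl _
    | succ k ih =>
      have : m + ((k + 1 : ℕ) : ℤ) = m + k + 1 := by
        push_cast
        ring
      rw [this]
      exact hR.trans ih (h2 _ _)
  have h5 : ∀ (y : X) (m n : ℤ), R (y, m) (y, n) := by
    intro y m n
    rcases le_total m n with h | h
    · have := h4 y m (n - m).toNat
      rw [Int.toNat_of_nonneg (by omega), add_sub_cancel] at this
      exact this
    · have := h4 y n (m - n).toNat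
      rw [Int.toNat_of_nonneg (by omega), add_sub_cancel] at this
      exact hR.symm this
  rintro ⟨q, hq⟩
  obtain ⟨h6, h7⟩ := hq.mem
  have h8 : theta φ (Nat.pair q.1 q.2) = φ.pe q := by
    show φ.pe (Nat.unpair _) = _
    rw [Nat.unpair_pair]
  have h9 := h3 (z.1, 2 ^ (2 * Nat.pair q.1 q.2)) (Or.inl ⟨_, rfl, by rw [h8]; exact h6⟩)
  rw [cross_even, h8, h7] at h9
  exact hR.trans (h5 z.1 z.2 _) (hR.trans h9 (h5 z'.1 _ z'.2))

omit [StandardBorelSpace X] in
theorem universal_tRel (hU : Universal φ.Rel) (hC : IsCBER (TRel φ)) : Universal (TRel φ) :=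
  hU.of_red hC (g := fun x => (x, 0)) ⟨measurable_id.prodMk measurable_const, fun _ _ => Iff.rfl⟩

end main

/-- automorphism and partial involution -/
theorem q1_of_two (h : Q1Two) : Q1 := by
  intro X _ _ φ hU
  have hB := isBorelPI_tw (isBorelPI_theta φ)
  obtain ⟨φ', hE⟩ := exists_enumerates hB
  have e0 := φ'.rel_equiv
  have hlet : ∀ l, ∀ z ∈ (letter (tw (theta φ)) l).source,
      φ'.Rel z (letter (tw (theta φ)) l z) := by
    intro l z hz
    exact hE.rel_of_word (L := [l]) (word_cons_mem.2 ⟨trivial, hz⟩)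
  have e2 : ∀ z z', φ'.Rel z z' ↔ TRel φ z z' := by
    refine tRel_iff φ e0 ?_ (fun y n => hlet (false, true) (y, n) trivial)
      (fun z hz => hlet (true, true) z hz)
    rintro z z' ⟨q, hq⟩
    obtain ⟨L, hL⟩ := hE.exists_word q
    obtain ⟨h1, h2⟩ := hL z z' hq
    rw [← h2]
    exact word_rel (tRel_equiv φ) (fun i w hw => tw_rel φ.rel_equiv (theta_rel φ) i w hw) L h1
  have hC : IsCBER (TRel φ) := by
    have h1 : φ'.Rel = TRel φ := by
      funext z z'
      exact propext (e2 z z')
    rw [← h1]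
    exact φ'.isCBER
  have hU' : Universal φ'.Rel := (universal_tRel φ hU hC).congr e2
  obtain ⟨σ, hσ1, hσ2⟩ := exists_shSeq
  obtain ⟨g, ⟨hg1, hg2⟩, u, hu⟩ := h (X × ℤ) (tw (theta φ)) hB rfl rfl rfl
    (fun z hz => cross_cross (theta φ) hz) φ' hE hU' Sh σ
  refine tower_main φ ⟨hg1, fun z z' => by rw [← hσ1, hg2, e2]⟩ fun i => ?_
  obtain ⟨q, hq⟩ := hσ2 (FreeGroup.of i)
  obtain ⟨L, hL⟩ := hE.exists_word (u q)
  exact ⟨L, fun z => hL _ _ (hu q _ _ (hq z))⟩

end Pool.Agent.Work.MP_d78dd4_lc
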