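import Pool.Agent.Work.MP_d78dd4_lc.Meas

set_option autoImplicit false

/-!
# Uniformly universal presentations contain free actions of the free group (helper72)
-/

namespace Pool.Agent.Work.MP_d78dd4_lc

open Set Filter Topology

/-- `a` is a free action of the free group with two generators on the set `Y` -/
structure FreeAction {X : Type} (Y : Set X) (a : FreeGroup Bool → X → X) : Prop where
  maps : ∀ γ, ∀ y ∈ Y, a γ y ∈ Y
  one : ∀ y ∈ Y, a 1 y = y
  mul : ∀ γ δ, ∀ y ∈ Y, a (γ * δ) y = a γ (a δ y)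
  free : ∀ γ, γ ≠ 1 → ∀ y ∈ Y, a γ y ≠ y

/-- for every member `φ_n` and every point `x` the sequence `x, φ_n x, φ_n (φ_n x), ...` is finite or
repeats a value -/
def FiniteForward {X : Type} [MeasurableSpace X] (φ : GenSeq X) : Prop :=
  ∀ n x, ∃ j, (φ.map n)^[j] x ∉ φ.dom n ∨ ∃ i < j, (φ.map n)^[i] x = (φ.map n)^[j] x

namespace Cat

/-- an enumeration of the free group -/
noncomputable def en : ℕ → FreeGroup Bool := (exists_surjective_nat (FreeGroup Bool)).choose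

theorem en_surj : Function.Surjective en := (exists_surjective_nat (FreeGroup Bool)).choose_spec

/-- the standard generating sequence of the shift -/
noncomputable def shSeq : GenSeq Sh where
  dom _ := univ
  map n := sh (en n)
  dom_meas _ := MeasurableSet.univ
  map_meas n := (continuous_sh (en n)).measurable
  id_mem := by
    obtain ⟨n, hn⟩ := en_surj 1
    exact ⟨n, rfl, fun x => by rw [hn, sh_one]⟩
  comp_mem m n := by
    obtain ⟨k, hk⟩ := en_surj (en m * en n)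
    refine ⟨k, by ext x; simp, fun x _ => ?_⟩
    rw [hk, sh_sh]

theorem shSeq_rel (x y : Sh) : shSeq.Rel x y ↔ Orb x y := by
  constructor
  · rintro ⟨⟨m, n⟩, ⟨_, h⟩, _⟩
    exact ⟨en m, h⟩
  · rintro ⟨γ, h⟩
    obtain ⟨m, hm⟩ := en_surj γ
    obtain ⟨n, hn⟩ := en_surj γ⁻¹
    refine ⟨(m, n), ⟨mem_univ _, ?_⟩, ⟨mem_univ _, ?_⟩⟩
    · show sh (en m) x = y
      rw [hm, h]
    · show sh (en n) y = x
      rw [hn, ← h, sh_sh, inv_mul_cancel, sh_one]

end Cat

open Cat MeasureTheory in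
theorem exists_freeAction {X : Type} [MeasurableSpace X] [StandardBorelSpace X] (φ : GenSeq X)
    (h : UniformlyUniversal φ) :
    ∃ (Y : Set X) (a : FreeGroup Bool → X → X) (u : FreeGroup Bool → ℕ × ℕ) (μ : Measure X),
      MeasurableSet Y ∧ FreeAction Y a ∧ (∀ γ, ∀ y ∈ Y, φ.Via (u γ) y (a γ y)) ∧
      (∀ y ∈ Y, ∀ z ∈ Y, φ.Rel y z ↔ ∃ γ, a γ y = z) ∧
      IsProbabilityMeasure μ ∧ μ Y = 1 ∧
      ∀ γ B, MeasurableSet B → μ {y | y ∈ Y ∧ a γ y ∈ B} = μ B := by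
  obtain ⟨f, ⟨hfm, hfr⟩, u₀, hu₀⟩ := h Sh shSeq
  -- uniformity for the elements of the free group
  have hu1 : ∀ γ, ∃ q : ℕ × ℕ, ∀ x, φ.Via q (f x) (f (sh γ x)) := by
    intro γ
    obtain ⟨m, hm⟩ := en_surj γ
    obtain ⟨n, hn⟩ := en_surj γ⁻¹
    refine ⟨u₀ (m, n), fun x => hu₀ (m, n) x (sh γ x) ⟨⟨mem_univ _, ?_⟩, ⟨mem_univ _, ?_⟩⟩⟩
    · show sh (en m) x = _
      rw [hm]
    · show sh (en n) (sh γ x) = x
      rw [hn, sh_sh, inv_mul_cancel, sh_one]
  choose u hu using hu1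
  have hcong : ∀ γ x y, f x = f y → f (sh γ x) = f (sh γ y) := by
    intro γ x y hxy
    have h1 := (hu γ x).1.2
    have h2 := (hu γ y).1.2
    rw [← h1, ← h2, hxy]
  have hrel : ∀ x y, φ.Rel (f x) (f y) ↔ Orb x y := fun x y => by
    rw [← hfr, shSeq_rel]
  have horb : ∀ x y, f x = f y → Orb x y := by
    intro x y hxy
    rw [← hrel, ← hxy, hrel]
    exact ⟨1, sh_one x⟩
  set C : Set Sh := {x | ∀ γ, γ ≠ 1 → f (sh γ x) ≠ f x} with hC
  have hCr : ∀ᵐ x ∂bern, x ∈ C := by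
    have : ∀ᵐ x ∂bern, ∀ γ, γ ≠ 1 → f (sh γ x) ≠ f x := by
      rw [ae_all_iff]
      intro γ
      by_cases hγ : γ = 1
      · exact Eventually.of_forall fun x h => absurd hγ h
      · filter_upwards [ae_free f hfm horb hcong γ hγ] with x hx _
        exact hx
    exact this
  have hCm : MeasurableSet C := by
    have : C = ⋂ γ : FreeGroup Bool, ({x | γ ≠ 1 → f (sh γ x) ≠ f x} : Set Sh) := by
      ext x; simp [hC]
    rw [this]
    refine MeasurableSet.iInter fun γ => ?_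
    by_cases hγ : γ = 1
    · have : ({x | γ ≠ 1 → f (sh γ x) ≠ f x} : Set Sh) = univ := by
        ext x; simp [hγ]
      rw [this]; exact MeasurableSet.univ
    · have : ({x | γ ≠ 1 → f (sh γ x) ≠ f x} : Set Sh) = {x | f (sh γ x) = f x}ᶜ := by
        ext x; simp [hγ]
      rw [this]
      exact (measurableSet_eq_fun (hfm.comp (continuous_sh γ).measurable) hfm).compl
  have hCinv : ∀ δ, ∀ x ∈ C, sh δ x ∈ C := by
    intro δ x hx γ hγ hfe
    have h1 := hcong δ⁻¹ _ _ hfe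
    rw [sh_sh, sh_sh, sh_sh, inv_mul_cancel, sh_one] at h1
    refine hx (δ⁻¹ * (γ * δ)) ?_ ?_
    · intro h2
      apply hγ
      have h3 : γ * δ = δ := by
        calc γ * δ = δ * (δ⁻¹ * (γ * δ)) := by group
          _ = δ := by rw [h2, mul_one]
      calc γ = γ * δ * δ⁻¹ := by group
        _ = 1 := by rw [h3, mul_inv_cancel]
    · convert h1 using 2
      group
  have hinj : InjOn f C := by
    intro x hx y hy hxy
    obtain ⟨γ, rfl⟩ := horb x y hxy
    by_cases hγ : γ = 1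
    · rw [hγ, sh_one]
    · exact absurd hxy.symm (hx γ hγ)
  have ha : ∀ γ x, φ.map (u γ).1 (f x) = f (sh γ x) := fun γ x => (hu γ x).1.2
  have hYm : MeasurableSet (f '' C) := hCm.image_of_measurable_injOn hfm hinj
  refine ⟨f '' C, fun γ y => φ.map (u γ).1 y, u, bern.map f, hYm, ⟨?_, ?_, ?_, ?_⟩, ?_, ?_,
    Measure.isProbabilityMeasure_map hfm.aemeasurable, ?_, ?_⟩
  · rintro γ _ ⟨x, hx, rfl⟩
    exact ⟨sh γ x, hCinv γ x hx, (ha γ x).symm⟩
  · rintro _ ⟨x, hx, rfl⟩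
    show φ.map (u 1).1 (f x) = f x
    rw [ha, sh_one]
  · rintro γ δ _ ⟨x, hx, rfl⟩
    show φ.map (u (γ * δ)).1 (f x) = φ.map (u γ).1 (φ.map (u δ).1 (f x))
    rw [ha, ha, ha, sh_sh]
  · rintro γ hγ _ ⟨x, hx, rfl⟩
    show φ.map (u γ).1 (f x) ≠ f x
    rw [ha]
    exact hx γ hγ
  · rintro γ _ ⟨x, hx, rfl⟩
    show φ.Via (u γ) (f x) (φ.map (u γ).1 (f x))
    rw [ha]
    exact hu γ x
  · rintro _ ⟨x, hx, rfl⟩ _ ⟨y, hy, rfl⟩
    rw [hrel]
    constructor
    · rintro ⟨γ, rfl⟩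
      exact ⟨γ, ha γ x⟩
    · rintro ⟨γ, h1⟩
      change φ.map (u γ).1 (f x) = f y at h1
      rw [ha] at h1
      have h2 := horb _ _ h1
      obtain ⟨δ, hδ⟩ := h2
      exact ⟨δ * γ, by rw [← sh_sh, hδ]⟩
  · rw [Measure.map_apply hfm hYm]
    have h1 : ∀ᵐ x ∂bern, x ∈ f ⁻¹' (f '' C) := by
      filter_upwards [hCr] with x hx
      exact ⟨x, hx, rfl⟩
    rw [← prob_compl_eq_zero_iff (hfm hYm)]
    exact mem_ae_iff.1 h1
  · intro γ B hB
    have hm : MeasurableSet {y | y ∈ f '' C ∧ φ.map (u γ).1 y ∈ B} :=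
      hYm.inter (φ.map_meas _ hB)
    rw [Measure.map_apply hfm hm, Measure.map_apply hfm hB, ← bern_preimage γ (hfm hB)]
    refine measure_congr ?_
    filter_upwards [hCr] with x hx
    refine propext ?_
    show (f x ∈ f '' C ∧ φ.map (u γ).1 (f x) ∈ B) ↔ f (sh γ x) ∈ B
    rw [ha]
    exact ⟨fun h => h.2, fun h => ⟨⟨x, hx, rfl⟩, h⟩⟩

theorem not_uniformlyUniversal {X : Type} [MeasurableSpace X] [StandardBorelSpace X]
    (φ : GenSeq X) (h : FiniteForward φ) : ¬ UniformlyUniversal φ := by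
  intro hU
  obtain ⟨Y, a, u, μ, hY, hA, hvia, -, hμ, hμY, -⟩ := exists_freeAction φ hU
  obtain ⟨y, hy⟩ : Y.Nonempty := by
    rw [nonempty_iff_ne_empty]
    rintro rfl
    simp at hμY
  have hw : FreeGroup.of true ≠ (1 : FreeGroup Bool) := FreeGroup.of_ne_one true
  set w := FreeGroup.of true with hwdef
  have hit : ∀ k, (φ.map (u w).1)^[k] y = a (w ^ k) y := by
    intro k
    induction k with
    | zero => rw [pow_zero, hA.one y hy]; rfl
    | succ k ih =>
      rw [Function.iterate_succ_apply', ih, pow_succ', hA.mul _ _ _ hy]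
      exact (hvia w _ (hA.maps _ _ hy)).1.2
  obtain ⟨j, hj | ⟨i, hij, he⟩⟩ := h (u w).1 y
  · rw [hit] at hj
    exact hj (hvia w _ (hA.maps _ _ hy)).1.1
  · rw [hit, hit] at he
    have h1 : a (w ^ (j - i)) (a (w ^ i) y) = a (w ^ i) y := by
      rw [← hA.mul _ _ _ hy, ← pow_add, Nat.sub_add_cancel hij.le, he]
    refine hA.free (w ^ (j - i)) ?_ _ (hA.maps _ _ hy) h1
    intro h2
    rw [pow_eq_one_iff_left (by omega)] at h2
    exact hw h2

end Pool.Agent.Work.MP_d78dd4_lc
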