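import Mathlib

set_option autoImplicit false

/-!
# Definitions: uniform universality of countable Borel equivalence relations

All spaces are standard Borel spaces in `Type`.
-/

namespace Pool.Agent.Work.MP_d78dd4_lc

/-- `E` is a countable Borel equivalence relation -/
structure IsCBER {X : Type} [MeasurableSpace X] (E : X → X → Prop) : Prop where
  equiv : Equivalence E
  borel : MeasurableSet {q : X × X | E q.1 q.2}
  countable : ∀ x, {y | E x y}.Countable

/-- A generating sequence.  The `n`-th partial Borel function is the restriction of the Borel function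
`map n` to the Borel set `dom n` (every partial Borel function on a Borel set is of this form: extend it
by the identity).  The family contains the identity and is closed under composition. -/
structure GenSeq (X : Type) [MeasurableSpace X] where
  dom : ℕ → Set X
  map : ℕ → X → X
  dom_meas : ∀ n, MeasurableSet (dom n)
  map_meas : ∀ n, Measurable (map n)
  id_mem : ∃ n, dom n = Set.univ ∧ ∀ x, map n x = x
  comp_mem : ∀ m n, ∃ k, dom k = {x | x ∈ dom n ∧ map n x ∈ dom m} ∧
    ∀ x ∈ dom k, map k x = map m (map n x)

/-- `x R y` via the pair `q = (m, n)`: `φ_m x = y` and `φ_n y = x` -/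
def GenSeq.Via {X : Type} [MeasurableSpace X] (φ : GenSeq X) (q : ℕ × ℕ) (x y : X) : Prop :=
  (x ∈ φ.dom q.1 ∧ φ.map q.1 x = y) ∧ (y ∈ φ.dom q.2 ∧ φ.map q.2 y = x)

/-- the equivalence relation generated by the sequence -/
def GenSeq.Rel {X : Type} [MeasurableSpace X] (φ : GenSeq X) (x y : X) : Prop :=
  ∃ q : ℕ × ℕ, φ.Via q x y

/-- `f` is a Borel reduction from `F` to `E` -/
def BorelRed {Y X : Type} [MeasurableSpace Y] [MeasurableSpace X] (F : Y → Y → Prop)
    (E : X → X → Prop) (f : Y → X) : Prop :=
  Measurable f ∧ ∀ y y', F y y' ↔ E (f y) (f y')

/-- `E` is a universal countable Borel equivalence relation -/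
def Universal {X : Type} [MeasurableSpace X] (E : X → X → Prop) : Prop :=
  IsCBER E ∧ ∀ (Y : Type) [MeasurableSpace Y] [StandardBorelSpace Y] (F : Y → Y → Prop),
    IsCBER F → ∃ f : Y → X, BorelRed F E f

/-- `f` maps pairs related via `q` to pairs related via `u q`, for some function `u` -/
def Uniform {Y X : Type} [MeasurableSpace Y] [MeasurableSpace X] (ψ : GenSeq Y) (φ : GenSeq X)
    (f : Y → X) : Prop :=
  ∃ u : ℕ × ℕ → ℕ × ℕ, ∀ q y y', ψ.Via q y y' → φ.Via (u q) (f y) (f y')

/-- the relation generated by `φ` is uniformly universal with respect to `φ` -/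
def UniformlyUniversal {X : Type} [MeasurableSpace X] (φ : GenSeq X) : Prop :=
  ∀ (Y : Type) [MeasurableSpace Y] [StandardBorelSpace Y] (ψ : GenSeq Y),
    ∃ f : Y → X, BorelRed ψ.Rel φ.Rel f ∧ Uniform ψ φ f

/-- Q1 -/
def Q1 : Prop :=
  ∀ (X : Type) [MeasurableSpace X] [StandardBorelSpace X] (φ : GenSeq X),
    Universal φ.Rel → UniformlyUniversal φ

/-! ### Presentations by words in partial Borel injections -/

/-- a partial Borel injection, given with its inverse (both are Borel) -/
structure IsBorelPI {X : Type} [MeasurableSpace X] (p : PartialEquiv X X) : Prop where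
  source : MeasurableSet p.source
  target : MeasurableSet p.target
  meas : Measurable p
  meas_symm : Measurable p.symm

/-- the partial injection given by a word in the letters `p i` (written `(i, true)`) and `(p i)⁻¹`
(written `(i, false)`); the last letter of the list is applied first -/
def word {X ι : Type} (p : ι → PartialEquiv X X) : List (ι × Bool) → PartialEquiv X X
  | [] => PartialEquiv.refl X
  | l :: L => (word p L).trans (if l.2 then p l.1 else (p l.1).symm)

/-- the members of the sequence `φ` are exactly the words in the partial injections `p i` and their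
inverses -/
def Enumerates {X ι : Type} [MeasurableSpace X] (φ : GenSeq X) (p : ι → PartialEquiv X X) : Prop :=
  (∀ L, ∃ n, φ.dom n = (word p L).source ∧ ∀ x ∈ φ.dom n, φ.map n x = word p L x) ∧
  (∀ n, ∃ L, φ.dom n = (word p L).source ∧ ∀ x ∈ φ.dom n, φ.map n x = word p L x)

/-- Q1 for the generating sequences which consist of the words in one Borel automorphism (`p false`) and
one partial Borel involution (`p true`) -/
def Q1Two : Prop :=
  ∀ (X : Type) [MeasurableSpace X] [StandardBorelSpace X] (p : Bool → PartialEquiv X X),
    (∀ i, IsBorelPI (p i)) →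
    (p false).source = Set.univ → (p false).target = Set.univ →
    (p true).target = (p true).source → (∀ x ∈ (p true).source, p true (p true x) = x) →
    ∀ φ : GenSeq X, Enumerates φ p → Universal φ.Rel → UniformlyUniversal φ

/-! ### The shift of the free group with two generators -/

/-- the space `(2^ℕ)^{F_2}`; `F_2` is the free group on the two elements of `Bool` -/
abbrev Sh : Type := FreeGroup Bool → ℕ → Bool

/-- the shift action -/
def sh (γ : FreeGroup Bool) (x : Sh) : Sh := fun h => x (γ⁻¹ * h)

/-- the orbit equivalence relation of the shift action -/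
def Orb (x y : Sh) : Prop := ∃ γ, sh γ x = y

/-- Q1 for the single relation `Orb` (all generating sequences of `Orb`) -/
def Q1Shift : Prop := ∀ φ : GenSeq Sh, (∀ x y, φ.Rel x y ↔ Orb x y) → UniformlyUniversal φ

/-! ### Borel actions of the free group with two generators -/

/-- A Borel action of `F_2` is a pair `T` of Borel automorphisms (the images of the generators).  The
word `L` in the letters `(i, true)` (generator) and `(i, false)` (inverse) acts on `x`; the last letter
is applied first. -/
def act {X : Type} [MeasurableSpace X] (T : Bool → X ≃ᵐ X) : List (Bool × Bool) → X → X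
  | [], x => x
  | l :: L, x => if l.2 then T l.1 (act T L x) else (T l.1).symm (act T L x)

/-- the orbit equivalence relation of the action -/
def OrbT {X : Type} [MeasurableSpace X] (T : Bool → X ≃ᵐ X) (x y : X) : Prop := ∃ L, act T L x = y

/-- There is a Borel reduction `g` of the shift to the action `T` which is equivariant for a substitution
`i ↦ w i` of the generators by words and such that the labels (values of `c`) of all points of the path
from `g x` to `g (i x) = w i (g x)` along the word `w i` do not depend on `x`. -/
def LabelRed {X C : Type} [MeasurableSpace X] (T : Bool → X ≃ᵐ X) (c : X → C) : Prop :=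
  ∃ (w : Bool → List (Bool × Bool)) (g : Sh → X), BorelRed Orb (OrbT T) g ∧
    (∀ i x, g (sh (FreeGroup.of i) x) = act T (w i) (g x)) ∧
    ∀ i L, L <:+ w i → ∀ x y, c (act T L (g x)) = c (act T L (g y))

/-- two labels for every Borel action of `F_2` with a universal orbit equivalence relation -/
def TwoLabels : Prop :=
  ∀ (X : Type) [MeasurableSpace X] [StandardBorelSpace X] (T : Bool → X ≃ᵐ X), Universal (OrbT T) →
    ∀ c : X → Bool, Measurable c → LabelRed T c

/-- the generators of the shift action as Borel automorphisms -/
def shT (i : Bool) : Sh ≃ᵐ Sh where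
  toFun := sh (FreeGroup.of i)
  invFun := sh (FreeGroup.of i)⁻¹
  left_inv x := by
    funext h
    simp [sh]
  right_inv x := by
    funext h
    simp [sh]
  measurable_toFun := measurable_pi_lambda _ fun h => measurable_pi_apply ((FreeGroup.of i)⁻¹ * h)
  measurable_invFun := measurable_pi_lambda _ fun h => measurable_pi_apply ((FreeGroup.of i)⁻¹⁻¹ * h)

/-- countably many labels for the shift -/
def ShiftLabels : Prop := ∀ c : Sh → ℕ, Measurable c → LabelRed shT c

/-- every Borel homomorphism from the shift to a relation generated by a sequence becomes uniform after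
composition with a Borel reduction of the shift to itself -/
def HomStatement : Prop :=
  ∀ (X : Type) [MeasurableSpace X] [StandardBorelSpace X] (φ : GenSeq X) (f : Sh → X), Measurable f →
    (∀ x y, Orb x y → φ.Rel (f x) (f y)) →
      ∃ (g : Sh → Sh) (u : FreeGroup Bool → ℕ × ℕ), BorelRed Orb Orb g ∧
        ∀ γ x, φ.Via (u γ) (f (g x)) (f (g (sh γ x)))

end Pool.Agent.Work.MP_d78dd4_lc
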