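import Pool.Agent.Work.MP_d78dd4_lc.Cat

set_option autoImplicit false

/-!
# The measure version: the shift of the free group is ergodic for every element (helper72)
-/

namespace Pool.Agent.Work.MP_d78dd4_lc

namespace Cat

open Set Filter Topology MeasureTheory ProbabilityTheory
open scoped symmDiff ENNReal

/-- the fair coin -/
noncomputable def coin : Measure Bool := (PMF.uniformOfFintype Bool).toMeasure

instance : IsProbabilityMeasure coin := PMF.toMeasure.isProbabilityMeasure _

theorem coin_singleton (b : Bool) : coin {b} = 2⁻¹ := by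
  unfold coin
  rw [PMF.toMeasure_apply_singleton _ _ (measurableSet_singleton b)]
  simp

/-- the measure on the alphabet -/
noncomputable def cantor : Measure (ℕ → Bool) := Measure.infinitePi fun _ => coin

instance : IsProbabilityMeasure cantor := by unfold cantor; infer_instance

/-- the Bernoulli measure -/
noncomputable def bern : Measure Sh := Measure.infinitePi fun _ => cantor

instance : IsProbabilityMeasure bern := by unfold bern; infer_instance

theorem cantor_singleton (y : ℕ → Bool) : cantor {y} = 0 := by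
  have h1 : ∀ N : ℕ, cantor {y} ≤ (2⁻¹ : ℝ≥0∞) ^ N := by
    intro N
    calc cantor {y} ≤ cantor (Set.pi (Finset.range N : Set ℕ) fun n => {y n}) := by
          refine measure_mono ?_
          rintro _ rfl n _
          rfl
      _ = ∏ n ∈ Finset.range N, coin {y n} := by
          unfold cantor
          rw [Measure.infinitePi_pi]
          intro i _
          exact measurableSet_singleton _
      _ = (2⁻¹ : ℝ≥0∞) ^ N := by simp [coin_singleton]
  have h2 : Tendsto (fun N : ℕ => (2⁻¹ : ℝ≥0∞) ^ N) atTop (𝓝 0) :=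
    ENNReal.tendsto_pow_atTop_nhds_zero_of_lt_one (by simp)
  exact le_antisymm (ge_of_tendsto' h2 h1) bot_le

theorem bern_singleton (y : Sh) : bern {y} = 0 := by
  have h1 : bern {y} ≤ bern (Set.pi (({1} : Finset (FreeGroup Bool)) : Set (FreeGroup Bool))
      fun g => {y g}) := by
    refine measure_mono ?_
    rintro _ rfl g _
    rfl
  have h2 : bern (Set.pi (({1} : Finset (FreeGroup Bool)) : Set (FreeGroup Bool))
      fun g => {y g}) = 0 := by
    unfold bern
    rw [Measure.infinitePi_pi]
    · simp [cantor_singleton]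
    · intro i _
      exact measurableSet_singleton _
  exact le_antisymm (h1.trans h2.le) bot_le

theorem measurable_sh (γ : FreeGroup Bool) : Measurable (sh γ) := (continuous_sh γ).measurable

theorem bern_map (γ : FreeGroup Bool) : bern.map (sh γ) = bern := by
  classical
  have : bern.map (sh γ) = Measure.infinitePi fun _ => cantor := by
    refine Measure.eq_infinitePi _ fun s t ht => ?_
    rw [Measure.map_apply (measurable_sh γ)
      (MeasurableSet.pi s.countable_toSet fun i _ => ht i)]
    have h1 : sh γ ⁻¹' ((s : Set (FreeGroup Bool)).pi t) =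
        ((s.image (γ⁻¹ * ·) : Finset (FreeGroup Bool)) : Set (FreeGroup Bool)).pi
          fun g => t (γ * g) := by
      ext x
      simp only [mem_preimage, Set.mem_pi, Finset.coe_image, Set.mem_image,
        Finset.mem_coe, forall_exists_index, and_imp, sh]
      constructor
      · rintro h g h' hh' rfl
        have := h h' hh'
        rwa [mul_inv_cancel_left]
      · intro h g hg
        have := h (γ⁻¹ * g) g hg rfl
        rwa [mul_inv_cancel_left] at this
    rw [h1]
    unfold bern
    rw [Measure.infinitePi_pi _ fun i _ => ht _]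
    rw [Finset.prod_image (fun a _ b _ h => mul_left_cancel h)]
    refine Finset.prod_congr rfl fun g _ => ?_
    rw [mul_inv_cancel_left]
  exact this

theorem bern_preimage (γ : FreeGroup Bool) {A : Set Sh} (hA : MeasurableSet A) :
    bern (sh γ ⁻¹' A) = bern A := by
  conv_rhs => rw [← bern_map γ, Measure.map_apply (measurable_sh γ) hA]

theorem bern_indep {I : Finset (FreeGroup Bool)} {S : Set (∀ _ : I, ℕ → Bool)}
    (hS : MeasurableSet S) (γ : FreeGroup Bool) (hd : ∀ g ∈ I, γ⁻¹ * g ∉ I) :
    bern (cylinder I S ∩ sh γ ⁻¹' (cylinder I S)) = bern (cylinder I S) * bern (cylinder I S) := by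
  classical
  set J : Finset (FreeGroup Bool) := I.image (γ⁻¹ * ·) with hJ
  have hIJ : Disjoint I J := by
    rw [Finset.disjoint_left]
    intro g hg hgJ
    obtain ⟨h, hh, rfl⟩ := Finset.mem_image.1 hgJ
    exact hd h hh hg
  have hind : iIndepFun (fun (g : FreeGroup Bool) (x : Sh) => x g) bern :=
    iIndepFun_infinitePi (P := fun _ : FreeGroup Bool => cantor)
      (X := fun _ (y : ℕ → Bool) => y) fun _ => measurable_id
  have h1 := hind.indepFun_finset I J hIJ fun g => measurable_pi_apply g
  have hmem : ∀ i : I, γ⁻¹ * (i : FreeGroup Bool) ∈ J := fun i =>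
    Finset.mem_image_of_mem _ i.2
  set F : (∀ _ : J, ℕ → Bool) → (∀ _ : I, ℕ → Bool) := fun y i => y ⟨γ⁻¹ * i, hmem i⟩ with hF
  have hFm : Measurable F := measurable_pi_iff.2 fun i => measurable_pi_apply _
  have h2 := h1.measure_inter_preimage_eq_mul S (F ⁻¹' S) hS (hFm hS)
  have e1 : cylinder I S = (fun (a : Sh) (i : I) => a i) ⁻¹' S := rfl
  have e2 : sh γ ⁻¹' (cylinder I S) = (fun (a : Sh) (i : J) => a i) ⁻¹' (F ⁻¹' S) := rfl
  have h3 : bern (sh γ ⁻¹' (cylinder I S)) = bern (cylinder I S) :=
    bern_preimage γ (MeasurableSet.cylinder I hS)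
  rw [← e1, ← e2, h3] at h2
  exact h2

/-- The 0-1 law for the Bernoulli measure. -/
theorem zero_one_bern {w : FreeGroup Bool} (hw : w ≠ 1) {A : Set Sh} (hA : MeasurableSet A)
    (hinv : ∀ x ∈ A, sh w x ∈ A) : bern A = 0 ∨ bern Aᶜ = 0 := by
  classical
  have hpow : ∀ (k : ℕ), ∀ x ∈ A, sh (w ^ k) x ∈ A := by
    intro k
    induction k with
    | zero => intro x hx; rw [pow_zero, sh_one]; exact hx
    | succ k ih =>
      intro x hx
      rw [pow_succ', ← sh_sh]
      exact hinv _ (ih x hx)
  have hinj : Function.Injective (fun k : ℕ => w ^ k) := by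
    rw [injective_pow_iff_not_isOfFinOrder]
    exact not_isOfFinOrder_of_isMulTorsionFree hw
  have key : ∀ ε : ℝ, 0 < ε → ε ≤ 1 → bern.real A ≤ bern.real A ^ 2 + 5 * ε := by
    intro ε hε hε1
    obtain ⟨B, hB, hBA⟩ := exists_measure_symmDiff_lt_of_generateFrom_isSetRing (μ := bern)
      (C := measurableCylinders fun _ : FreeGroup Bool => (ℕ → Bool))
      isSetRing_measurableCylinders
      ⟨{univ}, countable_singleton _, by
        rw [singleton_subset_iff]; exact univ_mem_measurableCylinders _, by simp⟩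
      generateFrom_measurableCylinders.symm hA (ε := ENNReal.ofReal ε) (by simpa using hε)
    obtain ⟨I, S, hS, rfl⟩ := (mem_measurableCylinders _).1 hB
    obtain ⟨k, hk⟩ : ∃ k : ℕ, w ^ k ∉ Finset.image₂ (fun h g => h * g⁻¹) I I := by
      by_contra hcon
      push Not at hcon
      exact Set.infinite_univ (α := ℕ) ((Set.Finite.preimage (hinj.injOn)
        (Finset.finite_toSet (Finset.image₂ (fun h g => h * g⁻¹) I I))).subset
          (fun k _ => hcon k))
    have hd : ∀ g ∈ I, (w ^ k)⁻¹ * g ∉ I := by
      intro g hg hmem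
      apply hk
      refine Finset.mem_image₂.2 ⟨g, hg, _, hmem, ?_⟩
      simp
    have hBm := MeasurableSet.of_mem_measurableCylinders hB
    have hi := bern_indep hS (w ^ k) hd
    set B : Set Sh := cylinder I S with hBdef
    set δ := bern.real (B ∆ A) with hδ
    have hδ0 : 0 ≤ δ := measureReal_nonneg
    have hδε : δ ≤ ε := by
      rw [hδ, measureReal_def]
      exact (ENNReal.toReal_le_of_le_ofReal hε.le hBA.le)
    have h1 : bern.real A ≤ bern.real (B ∩ sh (w ^ k) ⁻¹' B) + δ + δ := by
      have hsub : A ⊆ (B ∩ sh (w ^ k) ⁻¹' B) ∪ (B ∆ A) ∪ (sh (w ^ k) ⁻¹' (B ∆ A)) := by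
        intro x hx
        have hx' := hpow k x hx
        by_cases hxB : x ∈ B
        · by_cases hxB' : sh (w ^ k) x ∈ B
          · exact Or.inl (Or.inl ⟨hxB, hxB'⟩)
          · exact Or.inr (Or.inr ⟨hx', hxB'⟩)
        · exact Or.inl (Or.inr (Or.inr ⟨hx, hxB⟩))
      have h2 : bern.real (sh (w ^ k) ⁻¹' (B ∆ A)) = δ := by
        rw [hδ, measureReal_def, measureReal_def, bern_preimage _ (hBm.symmDiff hA)]
      calc bern.real A ≤ bern.real ((B ∩ sh (w ^ k) ⁻¹' B) ∪ (B ∆ A) ∪
            (sh (w ^ k) ⁻¹' (B ∆ A))) := measureReal_mono hsub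
        _ ≤ bern.real ((B ∩ sh (w ^ k) ⁻¹' B) ∪ (B ∆ A)) +
            bern.real (sh (w ^ k) ⁻¹' (B ∆ A)) := measureReal_union_le _ _
        _ ≤ bern.real (B ∩ sh (w ^ k) ⁻¹' B) + bern.real (B ∆ A) +
            bern.real (sh (w ^ k) ⁻¹' (B ∆ A)) := by
              gcongr
              exact measureReal_union_le _ _
        _ = _ := by rw [h2]
    have h3 : bern.real (B ∩ sh (w ^ k) ⁻¹' B) = bern.real B ^ 2 := by
      rw [measureReal_def, hi, ENNReal.toReal_mul, measureReal_def]
      ring
    have h4 : bern.real B ≤ bern.real A + δ := by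
      have hsub : B ⊆ A ∪ (B ∆ A) := by
        intro x hx
        by_cases hxA : x ∈ A
        · exact Or.inl hxA
        · exact Or.inr (Or.inl ⟨hx, hxA⟩)
      exact (measureReal_mono hsub).trans (measureReal_union_le _ _)
    have h5 : 0 ≤ bern.real B := measureReal_nonneg
    have h6 : bern.real A ≤ 1 := measureReal_le_one
    have h7 : 0 ≤ bern.real A := measureReal_nonneg
    have h8 : bern.real B ^ 2 ≤ (bern.real A + δ) ^ 2 := pow_le_pow_left₀ h5 h4 2
    rw [h3] at h1
    nlinarith
  have h1 : bern.real A ≤ bern.real A ^ 2 := by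
    by_contra hcon
    push Not at hcon
    set d := bern.real A - bern.real A ^ 2 with hd
    have hd0 : 0 < d := by rw [hd]; linarith
    have := key (min (d / 10) 1) (lt_min (by linarith) one_pos) (min_le_right _ _)
    have h2 : min (d / 10) 1 ≤ d / 10 := min_le_left _ _
    have h3 : d ≤ 5 * min (d / 10) 1 := by rw [hd]; linarith
    linarith
  have h6 : bern.real A ≤ 1 := measureReal_le_one
  have h7 : 0 ≤ bern.real A := measureReal_nonneg
  have h8 : bern.real A = 0 ∨ bern.real A = 1 := by
    by_cases h : bern.real A = 0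
    · exact Or.inl h
    · right
      have : 0 < bern.real A := lt_of_le_of_ne h7 (Ne.symm h)
      nlinarith
  rcases h8 with h | h
  · left
    exact (measureReal_eq_zero_iff).1 h
  · right
    rw [prob_compl_eq_zero_iff hA]
    rw [measureReal_def] at h
    rw [← ENNReal.ofReal_toReal (measure_ne_top bern A), h, ENNReal.ofReal_one]

/-- A Borel map which is almost everywhere invariant is almost everywhere constant. -/
theorem ae_const {Z : Type} [MeasurableSpace Z] [StandardBorelSpace Z] {w : FreeGroup Bool}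
    (hw : w ≠ 1) {f : Sh → Z} (hf : Measurable f) {A : Set Sh} (hA : MeasurableSet A)
    (hinv : ∀ x ∈ A, sh w x ∈ A) (hAf : ∀ x ∈ A, f (sh w x) = f x)
    (hAr : ∀ᵐ x ∂bern, x ∈ A) : ∃ z, ∀ᵐ x ∂bern, f x = z := by
  let e := MeasurableSpace.mapNatBool Z
  have he : Measurable e := MeasurableSpace.measurable_mapNatBool Z
  have hei : Function.Injective e := MeasurableSpace.injective_mapNatBool Z
  have h1 : ∀ n : ℕ, ∃ b : Bool, ∀ᵐ x ∂bern, e (f x) n = b := by
    intro n
    have hm : MeasurableSet {z : Z | e z n = true} :=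
      ((measurable_pi_apply n).comp he) (measurableSet_singleton true)
    have hB : MeasurableSet (A ∩ f ⁻¹' {z : Z | e z n = true}) := hA.inter (hf hm)
    rcases zero_one_bern hw hB (fun x hx => ⟨hinv x hx.1, by
      have := hx.2
      rw [mem_preimage] at this ⊢
      rwa [hAf x hx.1]⟩) with h | h
    · refine ⟨false, ?_⟩
      filter_upwards [measure_eq_zero_iff_ae_notMem.1 h, hAr] with x hx hxA
      by_contra hne
      exact hx ⟨hxA, by simpa using hne⟩
    · refine ⟨true, ?_⟩
      filter_upwards [measure_eq_zero_iff_ae_notMem.1 h] with x hx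
      rw [notMem_compl_iff] at hx
      exact hx.2
  choose b hb using h1
  have h2 : ∀ᵐ x ∂bern, ∀ n, e (f x) n = b n := ae_all_iff.2 hb
  obtain ⟨x0, hx0⟩ := h2.exists
  refine ⟨f x0, ?_⟩
  filter_upwards [h2] with x hx
  apply hei
  funext n
  rw [hx n, hx0 n]

/-- Uniform maps are injective on almost every orbit. -/
theorem ae_free {Z : Type} [MeasurableSpace Z] [StandardBorelSpace Z] (f : Sh → Z)
    (hf : Measurable f) (h1 : ∀ x y, f x = f y → Orb x y)
    (h2 : ∀ γ x y, f x = f y → f (sh γ x) = f (sh γ y)) (w : FreeGroup Bool) (hw : w ≠ 1) :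
    ∀ᵐ x ∂bern, f (sh w x) ≠ f x := by
  set K : Set Sh := {x | f (sh w x) = f x} with hK
  have hKm : MeasurableSet K := measurableSet_eq_fun (hf.comp (measurable_sh w)) hf
  have hinv : ∀ x ∈ K, sh w x ∈ K := fun x hx => h2 w _ _ hx
  rcases zero_one_bern hw hKm hinv with h | h
  · exact measure_eq_zero_iff_ae_notMem.1 h
  · exfalso
    have hKr : ∀ᵐ x ∂bern, x ∈ K := by
      filter_upwards [measure_eq_zero_iff_ae_notMem.1 h] with x hx
      exact notMem_compl_iff.1 hx
    obtain ⟨z, hz⟩ := ae_const hw hf hKm hinv (fun x hx => hx) hKr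
    obtain ⟨x0, hx0⟩ := hz.exists
    have h3 : ∀ᵐ x ∂bern, ∀ γ, x ≠ sh γ x0 :=
      ae_all_iff.2 fun γ => measure_eq_zero_iff_ae_notMem.1 (bern_singleton (sh γ x0))
    obtain ⟨x, hx, hx'⟩ := (hz.and h3).exists
    obtain ⟨γ, hγ⟩ := h1 x0 x (by rw [hx0, hx])
    exact hx' γ hγ.symm

end Cat

end Pool.Agent.Work.MP_d78dd4_lc
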