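import Pool.Agent.Work.MP_d78dd4_lc.Basic

set_option autoImplicit false

/-!
# The shift action and the coding of partial actions
-/

namespace Pool.Agent.Work.MP_d78dd4_lc

theorem sh_one (x : Sh) : sh 1 x = x := by
  funext h
  simp [sh]

theorem sh_mul (γ δ : FreeGroup Bool) (x : Sh) : sh (γ * δ) x = sh γ (sh δ x) := by
  funext h
  simp [sh, mul_assoc]

theorem sh_inv_sh (γ : FreeGroup Bool) (x : Sh) : sh γ⁻¹ (sh γ x) = x := by
  rw [← sh_mul, inv_mul_cancel, sh_one]

theorem sh_sh_inv (γ : FreeGroup Bool) (x : Sh) : sh γ (sh γ⁻¹ x) = x := by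
  rw [← sh_mul, mul_inv_cancel, sh_one]

theorem measurable_sh (γ : FreeGroup Bool) : Measurable (sh γ) :=
  measurable_pi_lambda _ fun h => measurable_pi_apply (γ⁻¹ * h)

instance instCountableFree : Countable (FreeGroup Bool) :=
  Function.Surjective.countable (f := FreeGroup.mk) Quot.mk_surjective

theorem orb_equiv : Equivalence Orb where
  refl x := ⟨1, sh_one x⟩
  symm := by
    rintro x y ⟨γ, rfl⟩
    exact ⟨γ⁻¹, sh_inv_sh γ x⟩
  trans := by
    rintro x y z ⟨γ, rfl⟩ ⟨δ, rfl⟩
    exact ⟨δ * γ, sh_mul δ γ x⟩

theorem isCBER_orb : IsCBER Orb where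
  equiv := orb_equiv
  borel := by
    have h1 : {q : Sh × Sh | Orb q.1 q.2} = ⋃ γ : FreeGroup Bool, {q : Sh × Sh | sh γ q.1 = q.2} := by
      ext q
      simp [Orb]
    rw [h1]
    exact MeasurableSet.iUnion fun γ =>
      measurableSet_eq_fun ((measurable_sh γ).comp measurable_fst) measurable_snd
  countable := by
    intro x
    refine (Set.countable_range fun γ : FreeGroup Bool => sh γ x).mono ?_
    rintro y ⟨γ, hγ⟩
    exact ⟨γ, hγ⟩

/-! ### Coding a pair of partial injections into the shift -/

section coding

variable {W : Type}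

/-- the sequence `b, u 0, u 1, ...` -/
def consB (b : Bool) (u : ℕ → Bool) : ℕ → Bool
  | 0 => b
  | n + 1 => u n

theorem consB_inj {b : Bool} {u v : ℕ → Bool} (h : consB b u = consB b v) : u = v := by
  funext n
  exact congrFun h (n + 1)

theorem consB_true_ne (u : ℕ → Bool) : consB true u ≠ fun _ => false := by
  intro h
  have := congrFun h 0
  simp [consB] at this

variable (p : Bool → PartialEquiv W W) (j : W → ℕ → Bool)

open Classical in
/-- apply the inverse of the word `L` (first letter first) and code the result; undefined is coded by the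
zero sequence -/
noncomputable def code : List (Bool × Bool) → W → ℕ → Bool
  | [], w => consB true (j w)
  | l :: L, w =>
    if w ∈ (if l.2 then (p l.1).symm else p l.1).source then
      code L ((if l.2 then (p l.1).symm else p l.1) w)
    else fun _ => false

theorem measurable_code [MeasurableSpace W] (hp : ∀ i, IsBorelPI (p i)) (hj : Measurable j)
    (L : List (Bool × Bool)) : Measurable (code p j L) := by
  classical
  induction L with
  | nil =>
    refine measurable_pi_lambda _ fun n => ?_
    cases n with
    | zero => exact measurable_const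
    | succ n => exact (measurable_pi_apply n).comp hj
  | cons l L ih =>
    have h1 : MeasurableSet (if l.2 then (p l.1).symm else p l.1).source := by
      split_ifs
      · exact (hp l.1).target
      · exact (hp l.1).source
    have h2 : Measurable (PartialEquiv.toFun (if l.2 then (p l.1).symm else p l.1)) := by
      split_ifs
      · exact (hp l.1).meas_symm
      · exact (hp l.1).meas
    exact Measurable.ite h1 (ih.comp h2) measurable_const

/-- the coding map -/
noncomputable def cod (w : W) : Sh := fun γ => code p j γ.toWord w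

theorem measurable_cod [MeasurableSpace W] (hp : ∀ i, IsBorelPI (p i)) (hj : Measurable j) :
    Measurable (cod p j) :=
  measurable_pi_lambda _ fun γ => measurable_code p j hp hj γ.toWord

theorem cod_apply (i : Bool) {w : W} (hw : w ∈ (p i).source) :
    cod p j (p i w) = sh (FreeGroup.of i) (cod p j w) := by
  classical
  funext γ
  have h1 : ((FreeGroup.of i)⁻¹ * γ).toWord = FreeGroup.reduce ((i, false) :: γ.toWord) := by
    conv_lhs => rw [← FreeGroup.mk_toWord (x := γ)]
    rw [FreeGroup.of, FreeGroup.inv_mk, FreeGroup.mul_mk, FreeGroup.toWord_mk]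
    rfl
  show code p j γ.toWord (p i w) = code p j ((FreeGroup.of i)⁻¹ * γ).toWord w
  rw [h1]
  have h2 : FreeGroup.reduce γ.toWord = γ.toWord := FreeGroup.reduce_toWord γ
  have h3 : FreeGroup.reduce ((i, false) :: γ.toWord) =
      List.casesOn (FreeGroup.reduce γ.toWord) [(i, false)] fun hd tl =>
        if (i, false).1 = hd.1 ∧ (i, false).2 = !hd.2 then tl else (i, false) :: hd :: tl :=
    FreeGroup.reduce.cons _
  rw [h3, h2]
  have h4 : ∀ T, code p j ((i, false) :: T) w = code p j T (p i w) := by
    intro T
    simp [code, hw]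
  cases hT : γ.toWord with
  | nil => exact (h4 []).symm
  | cons hd tl =>
    show code p j (hd :: tl) (p i w) =
      code p j (if (i, false).1 = hd.1 ∧ (i, false).2 = !hd.2 then tl else (i, false) :: hd :: tl) w
    split_ifs with h5
    · obtain ⟨k, b⟩ := hd
      simp only at h5
      obtain ⟨rfl, h6⟩ := h5
      have h7 : b = true := by
        cases b
        · simp at h6
        · rfl
      subst h7
      simp [code, (p i).map_source hw, (p i).left_inv hw]
    · exact (h4 _).symm

theorem code_eq_consB {R : W → W → Prop} (hR : Equivalence R)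
    (hp : ∀ i, ∀ w ∈ (p i).source, R w (p i w)) (L : List (Bool × Bool)) :
    ∀ w v, code p j L w = consB true v → ∃ w', R w w' ∧ v = j w' := by
  classical
  induction L with
  | nil =>
    intro w v h
    exact ⟨w, hR.refl w, (consB_inj h).symm⟩
  | cons l L ih =>
    intro w v h
    simp only [code] at h
    by_cases h1 : w ∈ (if l.2 then (p l.1).symm else p l.1).source
    · rw [if_pos h1] at h
      obtain ⟨w', h2, h3⟩ := ih _ _ h
      refine ⟨w', hR.trans ?_ h2, h3⟩
      by_cases h4 : l.2 = true
      · rw [if_pos h4] at h1 ⊢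
        have h5 := hp l.1 _ ((p l.1).map_target h1)
        rw [(p l.1).right_inv h1] at h5
        exact hR.symm h5
      · rw [if_neg h4] at h1 ⊢
        exact hp l.1 _ h1
    · rw [if_neg h1] at h
      exact absurd h.symm (consB_true_ne v)

theorem rel_of_orb_cod {R : W → W → Prop} (hR : Equivalence R)
    (hp : ∀ i, ∀ w ∈ (p i).source, R w (p i w)) (hj : Function.Injective j) {w w' : W}
    (h : Orb (cod p j w) (cod p j w')) : R w w' := by
  obtain ⟨γ, hγ⟩ := h
  have h1 := congrFun hγ 1
  have h2 : cod p j w' 1 = consB true (j w') := by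
    simp [cod, code]
  have h3 : sh γ (cod p j w) 1 = code p j (γ⁻¹ * 1).toWord w := rfl
  rw [h2, h3] at h1
  obtain ⟨w'', h4, h5⟩ := code_eq_consB p j hR hp _ _ _ h1
  rw [hj h5]
  exact h4

end coding

end Pool.Agent.Work.MP_d78dd4_lc
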