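import Pool.Agent.Work.MP_d78dd4_lc.Shift

set_option autoImplicit false

/-!
# Towers: countably many partial injections coded by an automorphism and a partial involution

`tw θ false` moves `(y, n)` to `(y, n + 1)`; `tw θ true` exchanges `(y, 2 ^ (2 j))` and
`(θ_j y, 2 ^ (2 j + 1))`.
-/

namespace Pool.Agent.Work.MP_d78dd4_lc

variable {Y : Type}

/-- the index of a level: `2 ^ (2 j)` and `2 ^ (2 j + 1)` have index `j` -/
def idx (n : ℤ) : ℕ := Nat.log 2 n.toNat / 2

/-- the side of a level: `true` for `2 ^ (2 j)`, `false` for `2 ^ (2 j + 1)` -/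
def side (n : ℤ) : Bool := decide (Nat.log 2 n.toNat % 2 = 0)

theorem toNat_pow (a : ℕ) : ((2 : ℤ) ^ a).toNat = 2 ^ a := by
  have h1 : ((2 : ℤ) ^ a) = ((2 ^ a : ℕ) : ℤ) := by push_cast; rfl
  rw [h1, Int.toNat_natCast]

theorem idx_even (j : ℕ) : idx (2 ^ (2 * j)) = j := by
  rw [idx, toNat_pow, Nat.log_pow (by norm_num)]
  omega

theorem idx_odd (j : ℕ) : idx (2 ^ (2 * j + 1)) = j := by
  rw [idx, toNat_pow, Nat.log_pow (by norm_num)]
  omega

theorem side_even (j : ℕ) : side (2 ^ (2 * j)) = true := by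
  rw [side, toNat_pow, Nat.log_pow (by norm_num)]
  simp

theorem side_odd (j : ℕ) : side (2 ^ (2 * j + 1)) = false := by
  rw [side, toNat_pow, Nat.log_pow (by norm_num)]
  simp

/-- one step up -/
def twA (Y : Type) : PartialEquiv (Y × ℤ) (Y × ℤ) where
  toFun z := (z.1, z.2 + 1)
  invFun z := (z.1, z.2 - 1)
  source := Set.univ
  target := Set.univ
  map_source' z _ := trivial
  map_target' z _ := trivial
  left_inv' z _ := by simp
  right_inv' z _ := by simp

/-- the domain of the crossing -/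
def crossDom (θ : ℕ → PartialEquiv Y Y) : Set (Y × ℤ) :=
  {z | (∃ j : ℕ, z.2 = 2 ^ (2 * j) ∧ z.1 ∈ (θ j).source) ∨
    ∃ j : ℕ, z.2 = 2 ^ (2 * j + 1) ∧ z.1 ∈ (θ j).target}

/-- the crossing -/
def cross (θ : ℕ → PartialEquiv Y Y) (z : Y × ℤ) : Y × ℤ :=
  if side z.2 then (θ (idx z.2) z.1, 2 * z.2) else ((θ (idx z.2)).symm z.1, z.2 / 2)

theorem cross_even (θ : ℕ → PartialEquiv Y Y) (y : Y) (j : ℕ) :
    cross θ (y, 2 ^ (2 * j)) = (θ j y, 2 ^ (2 * j + 1)) := by
  rw [cross]
  simp only [side_even, idx_even, if_true]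
  rw [pow_succ, mul_comm]

theorem cross_odd (θ : ℕ → PartialEquiv Y Y) (y : Y) (j : ℕ) :
    cross θ (y, 2 ^ (2 * j + 1)) = ((θ j).symm y, 2 ^ (2 * j)) := by
  rw [cross]
  simp only [side_odd, idx_odd]
  have h1 : (2 : ℤ) ^ (2 * j + 1) / 2 = 2 ^ (2 * j) := by
    rw [pow_succ]
    simp
  rw [h1]
  rfl

theorem cross_mem (θ : ℕ → PartialEquiv Y Y) {z : Y × ℤ} (hz : z ∈ crossDom θ) :
    cross θ z ∈ crossDom θ := by
  obtain ⟨y, n⟩ := z
  rcases hz with ⟨j, h1, h2⟩ | ⟨j, h1, h2⟩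
  · simp only at h1 h2
    subst h1
    rw [cross_even]
    exact Or.inr ⟨j, rfl, (θ j).map_source h2⟩
  · simp only at h1 h2
    subst h1
    rw [cross_odd]
    exact Or.inl ⟨j, rfl, (θ j).map_target h2⟩

theorem cross_cross (θ : ℕ → PartialEquiv Y Y) {z : Y × ℤ} (hz : z ∈ crossDom θ) :
    cross θ (cross θ z) = z := by
  obtain ⟨y, n⟩ := z
  rcases hz with ⟨j, h1, h2⟩ | ⟨j, h1, h2⟩
  · simp only at h1 h2
    subst h1
    rw [cross_even, cross_odd, (θ j).left_inv h2]
  · simp only at h1 h2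
    subst h1
    rw [cross_odd, cross_even, (θ j).right_inv h2]

/-- the crossing as a partial involution -/
def twB (θ : ℕ → PartialEquiv Y Y) : PartialEquiv (Y × ℤ) (Y × ℤ) where
  toFun := cross θ
  invFun := cross θ
  source := crossDom θ
  target := crossDom θ
  map_source' _ hz := cross_mem θ hz
  map_target' _ hz := cross_mem θ hz
  left_inv' _ hz := cross_cross θ hz
  right_inv' _ hz := cross_cross θ hz

/-- the automorphism and the partial involution -/
def tw (θ : ℕ → PartialEquiv Y Y) : Bool → PartialEquiv (Y × ℤ) (Y × ℤ)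
  | false => twA Y
  | true => twB θ

theorem measurableSet_slices [MeasurableSpace Y] {S : Set (Y × ℤ)}
    (h : ∀ n, MeasurableSet {y | (y, n) ∈ S}) : MeasurableSet S := by
  have h1 : S = ⋃ n : ℤ, {y | (y, n) ∈ S} ×ˢ {n} := by
    ext z
    simp only [Set.mem_iUnion, Set.mem_prod, Set.mem_ofPred_eq, Set.mem_singleton_iff]
    constructor
    · intro hz
      exact ⟨z.2, hz, rfl⟩
    · rintro ⟨n, h2, rfl⟩
      exact h2
  rw [h1]
  exact MeasurableSet.iUnion fun n => (h n).prod (MeasurableSet.singleton n)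

theorem measurableSet_crossDom [MeasurableSpace Y] {θ : ℕ → PartialEquiv Y Y}
    (hθ : ∀ j, IsBorelPI (θ j)) : MeasurableSet (crossDom θ) := by
  refine measurableSet_slices fun n => ?_
  have h1 : {y : Y | (y, n) ∈ crossDom θ} =
      (⋃ j : ℕ, {y | n = 2 ^ (2 * j) ∧ y ∈ (θ j).source}) ∪
        ⋃ j : ℕ, {y | n = 2 ^ (2 * j + 1) ∧ y ∈ (θ j).target} := by
    ext y
    simp [crossDom]
  rw [h1]
  exact (MeasurableSet.iUnion fun j => (MeasurableSet.const _).inter (hθ j).source).union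
    (MeasurableSet.iUnion fun j => (MeasurableSet.const _).inter (hθ j).target)

theorem measurable_cross [MeasurableSpace Y] {θ : ℕ → PartialEquiv Y Y}
    (hθ : ∀ j, IsBorelPI (θ j)) : Measurable (cross θ) := by
  refine measurable_from_prod_countable_left fun n => ?_
  by_cases h : side n = true
  · simp only [cross, h, if_true]
    exact ((hθ (idx n)).meas).prodMk (measurable_const : Measurable fun _ : Y => 2 * n)
  · simp only [cross, h]
    exact ((hθ (idx n)).meas_symm).prodMk (measurable_const : Measurable fun _ : Y => n / 2)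

theorem isBorelPI_tw [MeasurableSpace Y] {θ : ℕ → PartialEquiv Y Y} (hθ : ∀ j, IsBorelPI (θ j)) (i : Bool) :
    IsBorelPI (tw θ i) := by
  cases i with
  | false =>
    refine ⟨MeasurableSet.univ, MeasurableSet.univ, ?_, ?_⟩
    · exact measurable_from_prod_countable_left fun n =>
        measurable_id.prodMk (measurable_const : Measurable fun _ : Y => n + 1)
    · exact measurable_from_prod_countable_left fun n =>
        measurable_id.prodMk (measurable_const : Measurable fun _ : Y => n - 1)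
  | true =>
    exact ⟨measurableSet_crossDom hθ, measurableSet_crossDom hθ, measurable_cross hθ,
      measurable_cross hθ⟩

theorem cross_rel {R : Y → Y → Prop} (hR : Equivalence R) {θ : ℕ → PartialEquiv Y Y}
    (hθ : ∀ j, ∀ y ∈ (θ j).source, R y (θ j y)) {z : Y × ℤ} (hz : z ∈ crossDom θ) :
    R z.1 (cross θ z).1 := by
  obtain ⟨y, n⟩ := z
  rcases hz with ⟨j, h1, h2⟩ | ⟨j, h1, h2⟩
  · simp only at h1 h2
    subst h1
    rw [cross_even]
    exact hθ j _ h2
  · simp only at h1 h2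
    subst h1
    rw [cross_odd]
    have h3 := hθ j _ ((θ j).map_target h2)
    rw [(θ j).right_inv h2] at h3
    exact hR.symm h3

theorem tw_rel {R : Y → Y → Prop} (hR : Equivalence R) {θ : ℕ → PartialEquiv Y Y}
    (hθ : ∀ j, ∀ y ∈ (θ j).source, R y (θ j y)) (i : Bool) (z : Y × ℤ) (hz : z ∈ (tw θ i).source) :
    R z.1 (tw θ i z).1 := by
  cases i with
  | false => exact hR.refl _
  | true => exact cross_rel hR hθ hz

/-! ### Every generating sequence reduces uniformly to the shift -/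

variable [MeasurableSpace Y]

/-- the partial injection of the pair `q = (m, n)`: all `(x, y)` with `φ_m x = y` and `φ_n y = x` -/
def GenSeq.pe (φ : GenSeq Y) (q : ℕ × ℕ) : PartialEquiv Y Y where
  toFun := φ.map q.1
  invFun := φ.map q.2
  source := {x | φ.Via q x (φ.map q.1 x)}
  target := {y | φ.Via q (φ.map q.2 y) y}
  map_source' x hx := by
    show φ.Via q (φ.map q.2 (φ.map q.1 x)) (φ.map q.1 x)
    rw [hx.2.2]
    exact hx
  map_target' y hy := by
    show φ.Via q (φ.map q.2 y) (φ.map q.1 (φ.map q.2 y))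
    rw [hy.1.2]
    exact hy
  left_inv' x hx := hx.2.2
  right_inv' y hy := hy.1.2

theorem GenSeq.Via.mem {φ : GenSeq Y} {q : ℕ × ℕ} {x y : Y} (h : φ.Via q x y) :
    x ∈ (φ.pe q).source ∧ φ.pe q x = y := by
  refine ⟨?_, h.1.2⟩
  show φ.Via q x (φ.map q.1 x)
  rw [h.1.2]
  exact h

theorem GenSeq.via_pe {φ : GenSeq Y} {q : ℕ × ℕ} {x : Y} (h : x ∈ (φ.pe q).source) :
    φ.Via q x (φ.pe q x) := h

theorem GenSeq.isBorelPI_pe [StandardBorelSpace Y] (φ : GenSeq Y) (q : ℕ × ℕ) :
    IsBorelPI (φ.pe q) where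
  source := φ.measurableSet_via q measurable_id (φ.map_meas q.1)
  target := φ.measurableSet_via q (φ.map_meas q.2) measurable_id
  meas := φ.map_meas q.1
  meas_symm := φ.map_meas q.2

theorem exists_code (W : Type) [MeasurableSpace W] [StandardBorelSpace W] :
    ∃ j : W → ℕ → Bool, Measurable j ∧ Function.Injective j :=
  MeasurableSpace.measurable_injection_nat_bool_of_countablySeparated W

/-- every relation given by a generating sequence reduces to the shift in a uniform way -/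
theorem to_shift [StandardBorelSpace Y] (ψ : GenSeq Y) :
    ∃ (f : Y → Sh) (u : ℕ × ℕ → FreeGroup Bool), BorelRed ψ.Rel Orb f ∧
      ∀ q y y', ψ.Via q y y' → f y' = sh (u q) (f y) := by
  obtain ⟨j, hj, hji⟩ := exists_code (Y × ℤ)
  let θ : ℕ → PartialEquiv Y Y := fun n => ψ.pe (Nat.unpair n)
  have hθ : ∀ n, IsBorelPI (θ n) := fun n => ψ.isBorelPI_pe _
  have hR : ∀ n, ∀ y ∈ (θ n).source, ψ.Rel y (θ n y) := fun n y hy => ⟨_, GenSeq.via_pe hy⟩
  let F : Y × ℤ → Sh := cod (tw θ) j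
  have hF : Measurable F := measurable_cod _ _ (isBorelPI_tw hθ) hj
  have h1 : ∀ (y : Y) (n : ℕ), F (y, (n : ℤ)) = sh (FreeGroup.of false ^ n) (F (y, 0)) := by
    intro y n
    induction n with
    | zero =>
      rw [pow_zero, sh_one]
      rfl
    | succ n ih =>
      rw [pow_succ', sh_mul, ← ih]
      exact cod_apply (tw θ) j false (w := (y, (n : ℤ))) trivial
  have h2 : ∀ n : ℕ, ∀ y ∈ (θ n).source, F (θ n y, ((2 ^ (2 * n + 1) : ℕ) : ℤ)) =
      sh (FreeGroup.of true) (F (y, ((2 ^ (2 * n) : ℕ) : ℤ))) := by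
    intro n y hy
    have h3 := cod_apply (tw θ) j true (w := (y, 2 ^ (2 * n))) (Or.inl ⟨n, rfl, hy⟩)
    have h4 : tw θ true (y, 2 ^ (2 * n)) = (θ n y, 2 ^ (2 * n + 1)) := cross_even θ y n
    rw [h4] at h3
    push_cast
    exact h3
  have h5 : ∀ q y y', ψ.Via q y y' → sh (FreeGroup.of false ^ (2 ^ (2 * Nat.pair q.1 q.2 + 1)))
      (F (y', 0)) = sh (FreeGroup.of true * FreeGroup.of false ^ (2 ^ (2 * Nat.pair q.1 q.2)))
        (F (y, 0)) := by
    intro q y y' hq
    obtain ⟨h6, h7⟩ := hq.mem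
    have h8 : θ (Nat.pair q.1 q.2) = ψ.pe q := by
      show ψ.pe (Nat.unpair _) = _
      rw [Nat.unpair_pair]
    have h9 := h2 (Nat.pair q.1 q.2) y (by rw [h8]; exact h6)
    rw [h8, h7, h1, h1 y, ← sh_mul] at h9
    exact h9
  refine ⟨fun y => F (y, 0), fun q => (FreeGroup.of false ^ (2 ^ (2 * Nat.pair q.1 q.2 + 1)))⁻¹ *
    (FreeGroup.of true * FreeGroup.of false ^ (2 ^ (2 * Nat.pair q.1 q.2))), ⟨?_, ?_⟩, ?_⟩
  · exact hF.comp (measurable_id.prodMk measurable_const)
  · intro y y'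
    constructor
    · rintro ⟨q, hq⟩
      exact orb_equiv.trans ⟨_, rfl⟩ (orb_equiv.symm ⟨_, h5 q y y' hq⟩)
    · intro h
      have hRR : Equivalence fun z z' : Y × ℤ => ψ.Rel z.1 z'.1 :=
        ⟨fun z => ψ.rel_equiv.refl _, fun h => ψ.rel_equiv.symm h, fun h h' => ψ.rel_equiv.trans h h'⟩
      exact rel_of_orb_cod (tw θ) j hRR (fun i z hz => tw_rel ψ.rel_equiv hR i z hz) hji h
  · intro q y y' hq
    show F (y', 0) = _
    rw [sh_mul, ← h5 q y y' hq, sh_inv_sh]

end Pool.Agent.Work.MP_d78dd4_lc
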